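import Pool.Agent.Lib.MP_8a3537_gt.UV.Defs

/-!
# Coefficient rings (MP_8a3537_gt, folder CR): definitions and functoriality (helper73)

`Van R G X B Y`: all the nilpotent forms `UF ψ μ χ` over `R[G]` with entries supported in the sets
`X`, `B`, `Y` are stably hyperbolic. The folder `CR` proves that the class of the rings with involution
`R` with this property is closed under several constructions.
-/

set_option autoImplicit false
set_option linter.unusedSectionVars false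

namespace Pool.Agent.Lib.MP8a3537.CR

open Matrix Pool.Agent.Lib.MP8a3537.UV

/-- All the nilpotent forms `UF ψ μ χ` over `R[G]` with `ψ`, `μ`, `χ` supported in `X`, `B`, `Y` are
stably hyperbolic. -/
def Van (R G : Type) [Ring R] [StarRing R] [Group G] (X B Y : Set G) : Prop :=
  ∀ (ε : ℤˣ) (n : ℕ) (ψ μ χ : Matrix (Fin n) (Fin n) (MonoidAlgebra R G)),
    SuppIn X ψ → SuppIn B μ → SuppIn Y χ →
    IsNilpotent (nu ε (ψ + (ε : ℤ) • ψᴴ) μ (χ + (ε : ℤ) • χᴴ)) → StablyHyperbolic ε (UF ψ μ χ)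

section General

variable {A A' : Type*} [Ring A] [StarRing A] [Ring A'] [StarRing A']
variable {ι κ l : Type*} [Fintype ι] [DecidableEq ι] [Fintype κ] [DecidableEq κ] [Fintype l]
  [DecidableEq l]

theorem eps_sq (ε : ℤˣ) : (ε : ℤ) * (ε : ℤ) = 1 := by
  rw [← Units.val_mul, Int.units_mul_self, Units.val_one]

theorem Iso.refl (ε : ℤˣ) (Ψ : Matrix ι ι A) : Isometric ε Ψ Ψ :=
  ⟨1, 1, 0, by simp, by simp, by simp⟩

theorem Iso.trans {ε : ℤˣ} {Ψ : Matrix ι ι A} {Φ : Matrix κ κ A} {Θ : Matrix l l A}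
    (h : Isometric ε Ψ Φ) (h' : Isometric ε Φ Θ) : Isometric ε Ψ Θ := by
  obtain ⟨u, v, Z, huv, hvu, hΦ⟩ := h
  obtain ⟨u', v', Z', huv', hvu', hΘ⟩ := h'
  refine ⟨u * u', v' * v, u'ᴴ * Z * u' + Z', ?_, ?_, ?_⟩
  · rw [Matrix.mul_assoc, ← Matrix.mul_assoc u', huv', Matrix.one_mul, huv]
  · rw [Matrix.mul_assoc, ← Matrix.mul_assoc v, hvu, Matrix.one_mul, hvu']
  · rw [hΘ, hΦ]
    simp only [conjTranspose_mul, conjTranspose_add, conjTranspose_conjTranspose, Matrix.mul_add,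
      Matrix.mul_sub, Matrix.add_mul, Matrix.sub_mul, Matrix.mul_smul, Matrix.smul_mul, smul_add,
      Matrix.mul_assoc]
    abel

theorem Iso.symm {ε : ℤˣ} {Ψ : Matrix ι ι A} {Φ : Matrix κ κ A} (h : Isometric ε Ψ Φ) :
    Isometric ε Φ Ψ := by
  obtain ⟨u, v, Z, huv, hvu, hΦ⟩ := h
  refine ⟨v, u, -(vᴴ * Z * v), hvu, huv, ?_⟩
  have h1 : vᴴ * uᴴ = 1 := by rw [← conjTranspose_mul, huv, conjTranspose_one]
  have h2 : vᴴ * (uᴴ * Ψ * u) * v = Ψ := by
    rw [← Matrix.mul_assoc, ← Matrix.mul_assoc, h1, Matrix.one_mul, Matrix.mul_assoc, huv,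
      Matrix.mul_one]
  rw [hΦ]
  simp only [conjTranspose_mul, conjTranspose_neg, conjTranspose_conjTranspose, Matrix.mul_add,
    Matrix.mul_sub, Matrix.add_mul, Matrix.sub_mul, Matrix.mul_smul, Matrix.smul_mul, smul_neg]
  rw [h2]
  simp only [Matrix.mul_assoc]
  abel

/-- Direct sums with a fixed form. -/
theorem Iso.sum_right {ε : ℤˣ} {Ψ : Matrix ι ι A} {Φ : Matrix κ κ A} (h : Isometric ε Ψ Φ)
    (Θ : Matrix l l A) : Isometric ε (fromBlocks Ψ 0 0 Θ) (fromBlocks Φ 0 0 Θ) := by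
  obtain ⟨u, v, Z, huv, hvu, hΦ⟩ := h
  refine ⟨fromBlocks u 0 0 1, fromBlocks v 0 0 1, fromBlocks Z 0 0 0, ?_, ?_, ?_⟩
  · rw [fromBlocks_multiply]
    simp [huv]
  · rw [fromBlocks_multiply]
    simp [hvu]
  · rw [hΦ, fromBlocks_conjTranspose, fromBlocks_conjTranspose, fromBlocks_multiply,
      fromBlocks_multiply, fromBlocks_smul, fromBlocks_add, sub_eq_add_neg (fromBlocks _ _ _ _),
      fromBlocks_neg, fromBlocks_add]
    simp [sub_eq_add_neg]

theorem sh_of_iso {ε : ℤˣ} {Ψ : Matrix ι ι A} {Φ : Matrix κ κ A} (h : Isometric ε Ψ Φ)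
    (h' : StablyHyperbolic ε Φ) : StablyHyperbolic ε Ψ := by
  obtain ⟨m, n, hmn⟩ := h'
  exact ⟨m, n, Iso.trans (Iso.sum_right h _) hmn⟩

/-! ### Functoriality -/

variable (f : A →+* A')

theorem map_conj (hf : ∀ a, f (star a) = star (f a)) {m n : Type*} (M : Matrix m n A) :
    (Mᴴ).map f = (M.map f)ᴴ := by
  ext i j
  simp [hf]

theorem map_zsmul' {m n : Type*} (z : ℤ) (M : Matrix m n A) : (z • M).map f = z • M.map f := by
  ext i j
  simp

theorem map_hyp : (hyp ι A).map f = hyp ι A' := by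
  unfold hyp
  rw [fromBlocks_map]
  simp

theorem Iso.map {ε : ℤˣ} (hf : ∀ a, f (star a) = star (f a)) {Ψ : Matrix ι ι A}
    {Φ : Matrix κ κ A} (h : Isometric ε Ψ Φ) : Isometric ε (Ψ.map f) (Φ.map f) := by
  obtain ⟨u, v, Z, huv, hvu, hΦ⟩ := h
  refine ⟨u.map f, v.map f, Z.map f, ?_, ?_, ?_⟩
  · rw [← Matrix.map_mul, huv, Matrix.map_one _ f.map_zero f.map_one]
  · rw [← Matrix.map_mul, hvu, Matrix.map_one _ f.map_zero f.map_one]
  · rw [hΦ, Matrix.map_sub _ (fun a b => map_sub f a b), Matrix.map_add _ (fun a b => map_add f a b),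
      Matrix.map_mul, Matrix.map_mul, map_conj f hf, map_zsmul', map_conj f hf]

theorem SH.map {ε : ℤˣ} (hf : ∀ a, f (star a) = star (f a)) {Ψ : Matrix ι ι A}
    (h : StablyHyperbolic ε Ψ) : StablyHyperbolic ε (Ψ.map f) := by
  obtain ⟨m, n, hmn⟩ := h
  refine ⟨m, n, ?_⟩
  have h1 := Iso.map f hf hmn
  rw [fromBlocks_map, map_hyp, map_hyp] at h1
  simpa using h1

theorem map_UF (hf : ∀ a, f (star a) = star (f a)) (ψ μ χ : Matrix ι ι A) :
    (UF ψ μ χ).map f = UF (ψ.map f) (μ.map f) (χ.map f) := by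
  unfold UF
  rw [fromBlocks_map, Matrix.map_add _ (fun a b => map_add f a b), map_conj f hf,
    Matrix.map_one _ f.map_zero f.map_one]
  simp

theorem map_nu (hf : ∀ a, f (star a) = star (f a)) (ε : ℤˣ) (a μ b : Matrix ι ι A) :
    (nu ε a μ b).map f = nu ε (a.map f) (μ.map f) (b.map f) := by
  unfold nu
  rw [fromBlocks_map, map_conj f hf, map_zsmul']

theorem map_nil {M : Matrix ι ι A} (h : IsNilpotent M) : IsNilpotent (M.map f) := by
  obtain ⟨k, hk⟩ := h
  refine ⟨k, ?_⟩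
  have h1 := congrArg (fun N : Matrix ι ι A => N.map f) hk
  have h2 : (M ^ k).map f = (M.map f) ^ k := map_pow f.mapMatrix M k
  change (M ^ k).map f = (0 : Matrix ι ι A).map f at h1
  rw [h2] at h1
  rw [h1]
  simp

end General

/-! ### The maps of group rings -/

section GR

variable {R R' G : Type*} [Ring R] [StarRing R] [Ring R'] [StarRing R'] [Group G]

/-- The map of group rings. -/
noncomputable abbrev mr (G : Type*) [Group G] (j : R →+* R') : MonoidAlgebra R G →+* MonoidAlgebra R' G :=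
  MonoidAlgebra.mapRingHom G j

theorem mr_coeff (j : R →+* R') (x : MonoidAlgebra R G) (g : G) :
    (mr G j x).coeff g = j (x.coeff g) := by
  simp [mr]

theorem mr_star (j : R →+* R') (hj : ∀ r, j (star r) = star (j r)) (x : MonoidAlgebra R G) :
    mr G j (star x) = star (mr G j x) := by
  ext g
  rw [mr_coeff, star_coeff, star_coeff, mr_coeff, hj]

theorem mr_single (j : R →+* R') (g : G) (r : R) :
    mr G j (MonoidAlgebra.single g r) = MonoidAlgebra.single g (j r) := by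
  simp [mr]

theorem suppIn_mr (j : R →+* R') {m n : Type*} {X : Set G} {M : Matrix m n (MonoidAlgebra R G)}
    (h : SuppIn X M) : SuppIn X (M.map (mr G j)) := by
  intro i k g hg
  apply h i k g
  intro h0
  apply hg
  rw [Matrix.map_apply, mr_coeff, h0, map_zero]

/-- The data over `R[G]` go to data over `R'[G]`. -/
theorem nil_mr (j : R →+* R') (hj : ∀ r, j (star r) = star (j r)) {n : Type*} [Fintype n]
    [DecidableEq n] {ε : ℤˣ} {ψ μ χ : Matrix n n (MonoidAlgebra R G)}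
    (h : IsNilpotent (nu ε (ψ + (ε : ℤ) • ψᴴ) μ (χ + (ε : ℤ) • χᴴ))) :
    IsNilpotent (nu ε (ψ.map (mr G j) + (ε : ℤ) • (ψ.map (mr G j))ᴴ) (μ.map (mr G j))
      (χ.map (mr G j) + (ε : ℤ) • (χ.map (mr G j))ᴴ)) := by
  have h1 := map_nil (mr G j) h
  rw [map_nu (mr G j) (mr_star j hj), Matrix.map_add _ (fun a b => map_add (mr G j) a b),
    Matrix.map_add _ (fun a b => map_add (mr G j) a b), map_zsmul', map_zsmul',
    map_conj (mr G j) (mr_star j hj), map_conj (mr G j) (mr_star j hj)] at h1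
  exact h1

end GR

end Pool.Agent.Lib.MP8a3537.CR
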