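import Pool.Agent.Lib.MP_8a3537_gt.CR.SCL

/-!
# Coefficient rings (MP_8a3537_gt, folder CR): polynomial rings (helper73)

`R[t]` is the polynomial ring with the involution `(∑ r_i t^i)^* = ∑ r_i^* t^i`.
-/

set_option autoImplicit false
set_option linter.unusedSectionVars false

namespace Pool.Agent.Lib.MP8a3537.CR

open Matrix Pool.Agent.Lib.MP8a3537.UV

section PolyStar

open Polynomial

variable {R : Type*} [Ring R] [StarRing R]

/-- `(∑ r_i t^i)^* = ∑ r_i^* t^i`. -/
noncomputable def pconj (p : R[X]) : R[X] := p.sum fun i a => monomial i (star a)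

theorem pconj_coeff (p : R[X]) (n : ℕ) : (pconj p).coeff n = star (p.coeff n) := by
  unfold pconj
  rw [Polynomial.sum, finsetSum_coeff]
  simp only [coeff_monomial]
  rw [Finset.sum_ite_eq']
  split_ifs with h
  · rfl
  · rw [notMem_support_iff.1 h, star_zero]

/-- The involution of the polynomial ring: the variable is self-adjoint. -/
noncomputable instance polyStar : StarRing R[X] where
  star := pconj
  star_involutive p := by
    ext n
    rw [pconj_coeff, pconj_coeff, star_star]
  star_mul p q := by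
    ext n
    rw [pconj_coeff, coeff_mul, coeff_mul, star_sum, ← Finset.Nat.sum_antidiagonal_swap]
    refine Finset.sum_congr rfl fun x _ => ?_
    rw [pconj_coeff, pconj_coeff, star_mul]
    rfl
  star_add p q := by
    ext n
    rw [coeff_add, pconj_coeff, pconj_coeff, pconj_coeff, coeff_add, star_add]

theorem pstar_coeff (p : R[X]) (n : ℕ) : (star p).coeff n = star (p.coeff n) := pconj_coeff p n

theorem pstar_C (r : R) : star (C r) = C (star r) := by
  ext n
  rw [pstar_coeff, coeff_C, coeff_C]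
  split_ifs <;> simp

/-- The substitution `t ↦ s t`. -/
noncomputable def sc (s : zp R) : R[X] →+* R[X] :=
  eval₂RingHom' C (C s.1 * X) fun a => by
    rw [commute_iff_eq, ← mul_assoc, ← C_mul, s.2.1 a, C_mul, mul_assoc, mul_assoc, X_mul_C]

theorem sc_coeff (s : zp R) (p : R[X]) (n : ℕ) : (sc s p).coeff n = s.1 ^ n * p.coeff n := by
  have hc : ∀ (a : R) (k : ℕ), a * s.1 ^ k = s.1 ^ k * a := fun a k => (s ^ k).2.1 a
  induction p using Polynomial.induction_on' with
  | add p q hp hq => rw [map_add, coeff_add, hp, hq, coeff_add, mul_add]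
  | monomial k a =>
    have h1 : sc s (monomial k a) = monomial k (a * s.1 ^ k) := by
      unfold sc
      change eval₂ C (C s.1 * X) (monomial k a) = _
      rw [eval₂_monomial]
      have h2 : (C s.1 * X : R[X]) ^ k = C (s.1 ^ k) * X ^ k := by
        rw [(Commute.mul_pow (commute_X (C s.1)).symm k), C_pow]
      rw [h2, ← mul_assoc, ← C_mul, C_mul_X_pow_eq_monomial]
    rw [h1, coeff_monomial, coeff_monomial]
    split_ifs with h
    · rw [h, hc]
    · rw [mul_zero]

theorem sc_star (s : zp R) (p : R[X]) : sc s (star p) = star (sc s p) := by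
  ext n
  rw [sc_coeff, pstar_coeff, pstar_coeff, sc_coeff, star_mul, star_pow, s.2.2]
  exact ((s ^ n).2.1 _).symm

theorem sc_C (s : zp R) (r : R) : sc s (C r) = C r := by
  ext n
  rw [sc_coeff, coeff_C]
  split_ifs with h
  · rw [h, pow_zero, one_mul]
  · rw [mul_zero]

theorem sc_X (s : zp R) : sc s X = C s.1 * X := by
  ext n
  rw [sc_coeff, coeff_C_mul, coeff_X]
  split_ifs with h
  · rw [← h, pow_one]
  · rw [mul_zero, mul_zero]

/-- The evaluation `t ↦ r`. -/
noncomputable def ev (r : zp R) : R[X] →+* R :=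
  eval₂RingHom' (RingHom.id R) r.1 fun a => r.2.1 a

theorem ev_monomial (r : zp R) (k : ℕ) (a : R) : ev r (monomial k a) = a * r.1 ^ k := by
  unfold ev
  change eval₂ (RingHom.id R) r.1 (monomial k a) = _
  rw [eval₂_monomial]
  rfl

theorem ev_C (r : zp R) (a : R) : ev r (C a) = a := by
  rw [← monomial_zero_left, ev_monomial, pow_zero, mul_one]

theorem ev_X (r : zp R) : ev r X = r.1 := by
  rw [X, ev_monomial, pow_one, one_mul]

theorem ev_star (r : zp R) (p : R[X]) : ev r (star p) = star (ev r p) := by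
  induction p using Polynomial.induction_on' with
  | add p q hp hq => rw [star_add, map_add, hp, hq, map_add, star_add]
  | monomial k a =>
    have h1 : star (monomial k a : R[X]) = monomial k (star a) := by
      ext n
      rw [pstar_coeff, coeff_monomial, coeff_monomial]
      split_ifs <;> simp
    rw [h1, ev_monomial, ev_monomial, star_mul, star_pow, r.2.2]
    exact (r ^ k).2.1 _

theorem ev_zero (p : R[X]) : ev (0 : zp R) p = p.coeff 0 := by
  induction p using Polynomial.induction_on' with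
  | add p q hp hq => rw [map_add, hp, hq, coeff_add]
  | monomial k a =>
    rw [ev_monomial, coeff_monomial]
    rcases Nat.eq_zero_or_pos k with rfl | hk
    · rw [pow_zero, mul_one, if_pos rfl]
    · rw [if_neg hk.ne']
      change a * (0 : R) ^ k = 0
      rw [zero_pow hk.ne', mul_zero]

end PolyStar

section ZI

variable {R R' G : Type*} [Ring R] [StarRing R] [Ring R'] [StarRing R'] [Group G]

/-- The central self-adjoint elements of `R` in `R[G]`. -/
noncomputable def zi (G : Type*) [Group G] (z : zp R) : zp (MonoidAlgebra R G) :=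
  ⟨MonoidAlgebra.single 1 z.1, by
    refine ⟨fun a => ?_, ?_⟩
    · induction a using MonoidAlgebra.induction_linear with
      | zero => rw [zero_mul, mul_zero]
      | add f g hf hg => rw [add_mul, mul_add, hf, hg]
      | single g r =>
        rw [MonoidAlgebra.single_mul_single, MonoidAlgebra.single_mul_single, mul_one, one_mul,
          z.2.1]
    · rw [star_single, inv_one, z.2.2]⟩

theorem zi_smul_map (φ : R →+* R') (z : zp R) (z' : zp R') (h : φ z.1 = z'.1) {m n : Type*}
    (M : Matrix m n (MonoidAlgebra R G)) : (zi G z • M).map (mr G φ) = zi G z' • M.map (mr G φ) := by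
  ext1 i j
  rw [Matrix.map_apply, Matrix.smul_apply, Matrix.smul_apply, Matrix.map_apply, zp_smul, zp_smul,
    map_mul]
  congr 1
  change mr G φ (MonoidAlgebra.single 1 z.1) = MonoidAlgebra.single 1 z'.1
  rw [mr_single, h]

/-- The scaled form. -/
noncomputable def zUF {n : Type*} [Fintype n] [DecidableEq n] (z : zp R)
    (ψ μ χ : Matrix n n (MonoidAlgebra R G)) : Matrix (n ⊕ n) (n ⊕ n) (MonoidAlgebra R G) :=
  UF (zi G z • ψ) (zi G z • μ) (zi G z • χ)

theorem zUF_map {n : Type*} [Fintype n] [DecidableEq n] (φ : R →+* R')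
    (hφ : ∀ r, φ (star r) = star (φ r)) (z : zp R) (z' : zp R') (h : φ z.1 = z'.1)
    (ψ μ χ : Matrix n n (MonoidAlgebra R G)) :
    (zUF z ψ μ χ).map (mr G φ) = zUF z' (ψ.map (mr G φ)) (μ.map (mr G φ)) (χ.map (mr G φ)) := by
  unfold zUF
  rw [map_UF (mr G φ) (mr_star φ hφ), zi_smul_map φ z z' h, zi_smul_map φ z z' h,
    zi_smul_map φ z z' h]

theorem zUF_zero {n : Type*} [Fintype n] [DecidableEq n]
    (ψ μ χ : Matrix n n (MonoidAlgebra R G)) : zUF (0 : zp R) ψ μ χ = hyp n _ := by
  have h0 : ∀ M : Matrix n n (MonoidAlgebra R G), zi G (0 : zp R) • M = 0 := by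
    intro M
    ext1 i j
    rw [Matrix.smul_apply, zp_smul]
    change MonoidAlgebra.single 1 (0 : R) * M i j = 0
    rw [MonoidAlgebra.single_zero, zero_mul]
  unfold zUF UF hyp
  rw [h0, h0, h0, conjTranspose_zero, add_zero]

theorem zi_add (z w : zp R) : zi G (z + w) = zi G z + zi G w :=
  Subtype.ext (MonoidAlgebra.single_add _ _ _)

theorem zi_one : zi G (1 : zp R) = 1 := Subtype.ext rfl

theorem zi_four (z : zp R) : zi G (1 + 4 * z) = 1 + 4 * zi G z := by
  have h4 : (4 : zp R) * z = z + z + z + z := by ring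
  have h5 : (4 : zp (MonoidAlgebra R G)) * zi G z = zi G z + zi G z + zi G z + zi G z := by ring
  rw [h4, h5, zi_add, zi_add, zi_add, zi_add, zi_one]

/-- The scaled forms for `1 + 4c`. -/
theorem zUF_scale {n : Type*} [Fintype n] [DecidableEq n] (ε : ℤˣ)
    (ψ μ χ : Matrix n n (MonoidAlgebra R G))
    (hN : IsNilpotent (nu ε (ψ + (ε : ℤ) • ψᴴ) μ (χ + (ε : ℤ) • χᴴ))) (c : zp R) :
    Isometric ε (zUF (1 + 4 * c) ψ μ χ) (UF ψ μ χ) := by
  have h1 : ∀ z : zp (MonoidAlgebra R G), UF (z • ψ) (z • μ) (z • χ) =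
      hyp n _ + z • fromBlocks ψ μᴴ 0 χ := by
    intro z
    unfold UF hyp
    rw [fromBlocks_smul, fromBlocks_add, zp_conj, smul_zero, zero_add, zero_add, zero_add]
  have h2 : UF ψ μ χ = hyp n _ + fromBlocks ψ μᴴ 0 χ := by
    have := h1 1
    simpa only [one_smul] using this
  unfold zUF
  rw [zi_four, h1, h2]
  refine scale ε _ _ (nu ε (ψ + (ε : ℤ) • ψᴴ) μ (χ + (ε : ℤ) • χᴴ)) ?_ hN (zi G c)
  unfold hyp nu
  rw [fromBlocks_conjTranspose, fromBlocks_smul, fromBlocks_add, fromBlocks_multiply,
    fromBlocks_conjTranspose, fromBlocks_smul, fromBlocks_add]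
  simp only [Matrix.mul_zero, Matrix.zero_mul, Matrix.mul_one, Matrix.one_mul, zero_add, add_zero,
    conjTranspose_zero, conjTranspose_one, smul_zero, Matrix.smul_mul, Matrix.mul_smul, smul_smul,
    eps_sq, one_smul, conjTranspose_conjTranspose]

end ZI

/-! ### Hyperbolic forms -/

section Hyp

variable {A : Type*} [Ring A] [StarRing A]

theorem iso_reindex (ε : ℤˣ) {ι κ : Type*} [Fintype ι] [DecidableEq ι] [Fintype κ] [DecidableEq κ]
    (e : κ ≃ ι) (Ψ : Matrix ι ι A) : Isometric ε Ψ (Ψ.submatrix e e) := by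
  refine ⟨(1 : Matrix ι ι A).submatrix id e, (1 : Matrix ι ι A).submatrix e id, 0, ?_, ?_, ?_⟩
  · rw [Matrix.submatrix_mul_equiv, Matrix.one_mul, Matrix.submatrix_id_id]
  · rw [← Matrix.submatrix_mul _ _ e id e Function.bijective_id, Matrix.one_mul,
      Matrix.submatrix_one_equiv]
  · rw [conjTranspose_submatrix, conjTranspose_one, conjTranspose_zero, smul_zero, sub_zero,
      add_zero]
    have h1 : (1 : Matrix ι ι A).submatrix e id * Ψ = Ψ.submatrix e id := by
      have := Matrix.submatrix_mul (1 : Matrix ι ι A) Ψ e id id Function.bijective_id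
      rw [Matrix.one_mul, Matrix.submatrix_id_id] at this
      exact this.symm
    rw [h1]
    have h2 := Matrix.submatrix_mul Ψ (1 : Matrix ι ι A) e id e Function.bijective_id
    rw [Matrix.mul_one] at h2
    exact h2

theorem hyp_sum (ε : ℤˣ) (n m : ℕ) :
    Isometric ε (fromBlocks (hyp (Fin n) A) 0 0 (hyp (Fin m) A)) (hyp (Fin (n + m)) A) := by
  have h1 := iso_reindex ε (Equiv.sumSumSumComm (Fin n) (Fin m) (Fin n) (Fin m))
    (fromBlocks (hyp (Fin n) A) 0 0 (hyp (Fin m) A))
  have h2 : (fromBlocks (hyp (Fin n) A) 0 0 (hyp (Fin m) A)).submatrix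
      (Equiv.sumSumSumComm (Fin n) (Fin m) (Fin n) (Fin m))
      (Equiv.sumSumSumComm (Fin n) (Fin m) (Fin n) (Fin m)) = hyp (Fin n ⊕ Fin m) A := by
    ext i j
    rcases i with (i | i) | (i | i) <;> rcases j with (j | j) | (j | j) <;>
      simp [hyp, Matrix.one_apply]
  rw [h2] at h1
  refine Iso.trans h1 ?_
  have h3 := iso_reindex ε (Equiv.sumCongr (finSumFinEquiv (m := n) (n := m)).symm
    (finSumFinEquiv (m := n) (n := m)).symm) (hyp (Fin n ⊕ Fin m) A)
  have h4 : (hyp (Fin n ⊕ Fin m) A).submatrix (Equiv.sumCongr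
      (finSumFinEquiv (m := n) (n := m)).symm (finSumFinEquiv (m := n) (n := m)).symm)
      (Equiv.sumCongr (finSumFinEquiv (m := n) (n := m)).symm
      (finSumFinEquiv (m := n) (n := m)).symm) = hyp (Fin (n + m)) A := by
    ext i j
    rcases i with i | i <;> rcases j with j | j <;> simp [hyp, Matrix.one_apply]
  rw [h4] at h3
  exact h3

end Hyp

end Pool.Agent.Lib.MP8a3537.CR
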