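import Pool.Agent.Lib.MP_8a3537_gt.CR.SCL
import Pool.Agent.Lib.MP_8a3537_gt.CR.POL

/-!
# Coefficient rings (MP_8a3537_gt, folder CR, helper73): a central element `s` with `s + s^* = 1`

If the coefficient ring `R` contains a central element `s` with `s + s^* = 1` (for instance `1/2 ∈ R`, or
`R` contains the Eisenstein integers with complex conjugation), then all nilpotent forms over `R[G]` are
hyperbolic, for all groups `G` and without conditions on the supports.
-/

set_option autoImplicit false
set_option linter.unusedSectionVars false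

namespace Pool.Agent.Lib.MP8a3537.CR

open Matrix Pool.Agent.Lib.MP8a3537.UV

section Cen

variable {A : Type*} [Ring A] [StarRing A] {κ : Type*} [Fintype κ] [DecidableEq κ]

theorem cen_conj {s : A} (hs : ∀ a, a * s = s * a) {m n : Type*} (M : Matrix m n A) :
    (s • M)ᴴ = star s • Mᴴ := by
  ext i j
  rw [conjTranspose_apply, Matrix.smul_apply, Matrix.smul_apply, conjTranspose_apply, smul_eq_mul,
    smul_eq_mul, star_mul]
  have h := congrArg star (hs (star (star (M j i))))
  rw [star_mul, star_mul, star_star] at h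
  exact h.symm

theorem cen_star {s : A} (hs : ∀ a, a * s = s * a) (a : A) : a * star s = star s * a := by
  have h := congrArg star (hs (star a))
  rw [star_mul, star_mul, star_star] at h
  exact h.symm

theorem cen_mul {s : A} (hs : ∀ a, a * s = s * a) {l m n : Type*} [Fintype m] (M : Matrix l m A)
    (N : Matrix m n A) : M * (s • N) = s • (M * N) := by
  ext i j
  simp only [Matrix.mul_apply, Matrix.smul_apply, smul_eq_mul, Finset.mul_sum]
  refine Finset.sum_congr rfl fun k _ => ?_
  rw [← mul_assoc, hs, mul_assoc]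

/-- The square root of `1 + N`, up to a unitary. -/
theorem norm_one (ε : ℤˣ) {s : A} (hs : ∀ a, a * s = s * a) (h1 : s + star s = 1)
    (J : Matrix κ κ A) (m : ℕ) :
    ∀ N : Matrix κ κ A, Nᴴ * J = J * N → N ^ (m + 1) = 0 →
      ∃ U V : Matrix κ κ A, U * V = 1 ∧ V * U = 1 ∧ Uᴴ * (J * (1 + N)) * U = J := by
  have hs' : ∀ a, a * star s = star s * a := cen_star hs
  -- the self-adjoint central element `p = s s^*`
  let p : zp A := ⟨s * star s, fun a => by rw [← mul_assoc, hs, mul_assoc, hs', mul_assoc],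
    by rw [star_mul, star_star]⟩
  induction m with
  | zero =>
    intro N _ hN
    rw [zero_add, pow_one] at hN
    exact ⟨1, 1, by rw [Matrix.one_mul], by rw [Matrix.one_mul], by
      rw [hN, add_zero, Matrix.mul_one, conjTranspose_one, Matrix.one_mul, Matrix.mul_one]⟩
  | succ m ih =>
    intro N hJN hN
    let q : Polynomial (zp A) := Polynomial.X ^ 2 * (Polynomial.C p - 1 + Polynomial.C p * Polynomial.X)
    let N' : Matrix κ κ A := Polynomial.aeval N q
    have hq : N' = N ^ 2 * (p • (1 : Matrix κ κ A) - 1 + p • N) := by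
      simp only [N', q, map_mul, map_add, map_sub, map_pow, map_one, Polynomial.aeval_X,
        Polynomial.aeval_C, Algebra.smul_def, mul_one]
    have hN'J : N'ᴴ * J = J * N' := aeval_adj hJN q
    have hN' : N' ^ (m + 1) = 0 := by
      have e1 : q ^ (m + 1) = Polynomial.X ^ (m + 1 + 1) * (Polynomial.X ^ m *
          (Polynomial.C p - 1 + Polynomial.C p * Polynomial.X) ^ (m + 1)) := by
        simp only [q]
        rw [mul_pow, ← pow_mul, ← mul_assoc, ← pow_add]
        congr 2
        ring
      change (Polynomial.aeval N q) ^ (m + 1) = 0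
      rw [← map_pow, e1, map_mul, map_pow, Polynomial.aeval_X, hN, Matrix.zero_mul]
    obtain ⟨U, V, hUV, hVU, hU⟩ := ih N' hN'J hN'
    have hcN : ∀ z : A, (∀ a, a * z = z * a) → ∀ M : Matrix κ κ A, (z • M) * N = z • (M * N) :=
      fun z _ M => Matrix.smul_mul z M N
    have hnil : IsNilpotent (-(s • N)) := by
      refine ⟨m + 1 + 1, ?_⟩
      have h3 : ∀ k : ℕ, (s • N) ^ k = s ^ k • N ^ k := by
        intro k
        induction k with
        | zero => rw [pow_zero, pow_zero, pow_zero, one_smul]
        | succ k ih2 =>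
          rw [pow_succ, ih2, cen_mul hs, Matrix.smul_mul, smul_smul, ← pow_succ', ← pow_succ]
      rw [neg_pow, h3, hN, smul_zero, mul_zero]
    obtain ⟨w, wi, hw1, hw2, hw⟩ : ∃ w wi : Matrix κ κ A, w * wi = 1 ∧ wi * w = 1 ∧
        w = 1 - s • N := by
      obtain ⟨W, hW⟩ := hnil.isUnit_one_add
      exact ⟨(W : Matrix κ κ A), ((W⁻¹ : (Matrix κ κ A)ˣ) : Matrix κ κ A), W.mul_inv, W.inv_mul,
        by rw [hW]; abel⟩
    have key : wᴴ * (J * (1 + N)) * w = J * (1 + N') := by
      have h4 : wᴴ * J = J * (1 - star s • N) := by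
        rw [hw, conjTranspose_sub, conjTranspose_one, cen_conj hs, Matrix.sub_mul,
          Matrix.one_mul, Matrix.smul_mul, hJN, Matrix.mul_sub, Matrix.mul_one, cen_mul hs']
      have h5 : (1 - star s • N) * (1 + N) * (1 - s • N) = 1 + N' := by
        have e5 : ∀ M : Matrix κ κ A, star s • M = M - s • M := by
          intro M
          have : (star s : A) = 1 - s := by rw [← h1]; abel
          rw [this, sub_smul, one_smul]
        have e6 : ∀ M : Matrix κ κ A, p • M = s • M - s • s • M := by
          intro M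
          have : p • M = (s * star s) • M := rfl
          rw [this, mul_smul, e5, smul_sub]
        rw [hq, e6, e6]
        simp only [e5, smul_sub, smul_add, Matrix.mul_add, Matrix.mul_sub, Matrix.add_mul,
          Matrix.sub_mul, cen_mul hs, Matrix.smul_mul, Matrix.mul_one, Matrix.one_mul,
          Matrix.mul_assoc, pow_two]
        abel
      calc wᴴ * (J * (1 + N)) * w = (wᴴ * J) * (1 + N) * w := by simp only [Matrix.mul_assoc]
        _ = J * ((1 - star s • N) * (1 + N) * (1 - s • N)) := by
          rw [h4, hw]; simp only [Matrix.mul_assoc]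
        _ = J * (1 + N') := by rw [h5]
    refine ⟨w * U, V * wi, ?_, ?_, ?_⟩
    · calc w * U * (V * wi) = w * (U * V) * wi := by simp only [Matrix.mul_assoc]
        _ = 1 := by rw [hUV, Matrix.mul_one, hw1]
    · calc V * wi * (w * U) = V * (wi * w) * U := by simp only [Matrix.mul_assoc]
        _ = 1 := by rw [hw2, Matrix.mul_one, hVU]
    · calc (w * U)ᴴ * (J * (1 + N)) * (w * U)
          = Uᴴ * (wᴴ * (J * (1 + N)) * w) * U := by
            rw [conjTranspose_mul]; simp only [Matrix.mul_assoc]
        _ = J := by rw [key, hU]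

/-- The nilpotent form `h + ξ` is isometric to `h`. -/
theorem cen_iso (ε : ℤˣ) {s : A} (hs : ∀ a, a * s = s * a) (h1 : s + star s = 1)
    (h ξ N : Matrix κ κ A) (hJ : (h + (ε : ℤ) • hᴴ) * N = ξ + (ε : ℤ) • ξᴴ)
    (hN : IsNilpotent N) : Isometric ε (h + ξ) h := by
  obtain ⟨m, hm⟩ := hN
  have hm' : N ^ (m + 1) = 0 := by rw [pow_succ, hm, Matrix.zero_mul]
  set J : Matrix κ κ A := h + (ε : ℤ) • hᴴ with hJdef
  have hJs : Jᴴ = (ε : ℤ) • J := by
    rw [hJdef, conjTranspose_add, conjTranspose_zsmul, conjTranspose_conjTranspose, smul_add,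
      smul_smul, eps_sq, one_smul, add_comm]
  have hadj : Nᴴ * J = J * N := by
    have h1 : (J * N)ᴴ = (ε : ℤ) • (J * N) := by
      rw [hJ, conjTranspose_add, conjTranspose_zsmul, conjTranspose_conjTranspose, smul_add,
        smul_smul, eps_sq, one_smul, add_comm]
    rw [conjTranspose_mul, hJs, Matrix.mul_smul] at h1
    have h2 := congrArg (fun M : Matrix κ κ A => (ε : ℤ) • M) h1
    simpa only [smul_smul, eps_sq, one_smul] using h2
  obtain ⟨U, V, hUV, hVU, hU⟩ := norm_one ε hs h1 J m N hadj hm'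
  have hs' : ∀ a, a * star s = star s * a := cen_star hs
  set M : Matrix κ κ A := Uᴴ * (h + ξ) * U with hM
  have hpol : M + (ε : ℤ) • Mᴴ = J := by
    have e1 : (h + ξ) + (ε : ℤ) • (h + ξ)ᴴ = J * (1 + N) := by
      rw [Matrix.mul_add, Matrix.mul_one, hJ, hJdef, conjTranspose_add, smul_add]
      abel
    have e2 : Mᴴ = Uᴴ * (h + ξ)ᴴ * U := by
      rw [hM, conjTranspose_mul, conjTranspose_mul, conjTranspose_conjTranspose,
        Matrix.mul_assoc]
    rw [e2]
    calc M + (ε : ℤ) • (Uᴴ * (h + ξ)ᴴ * U)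
        = Uᴴ * ((h + ξ) + (ε : ℤ) • (h + ξ)ᴴ) * U := by
          rw [Matrix.mul_add, Matrix.add_mul, Matrix.mul_smul, Matrix.smul_mul]
      _ = J := by rw [e1, hU]
  refine ⟨U, V, star s • (h - M), hUV, hVU, ?_⟩
  rw [← hM, cen_conj hs', star_star]
  -- `h = M + s^* (h - M) - ε s (h - M)^*`
  have e5 : ∀ X : Matrix κ κ A, star s • X = X - s • X := by
    intro X
    have : (star s : A) = 1 - s := by rw [← h1]; abel
    rw [this, sub_smul, one_smul]
  have e6 : (h - M) + (ε : ℤ) • (h - M)ᴴ = 0 := by
    have e7 : (h - M) + (ε : ℤ) • (h - M)ᴴ = (h + (ε : ℤ) • hᴴ) - (M + (ε : ℤ) • Mᴴ) := by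
      rw [conjTranspose_sub, smul_sub]
      abel
    rw [e7, hpol, ← hJdef, sub_self]
  have e8 : (ε : ℤ) • (s • (h - M)ᴴ) = - (s • (h - M)) := by
    rw [smul_comm, eq_neg_iff_add_eq_zero, ← smul_add]
    have e9 : (ε : ℤ) • (h - M)ᴴ + (h - M) = 0 := by rw [add_comm]; exact e6
    rw [e9, smul_zero]
  rw [e8, e5]
  abel

end Cen

section Van

variable {R G : Type} [Ring R] [StarRing R] [Group G]

theorem cen_single {s : R} (hs : ∀ a, a * s = s * a) (x : MonoidAlgebra R G) :
    x * MonoidAlgebra.single 1 s = MonoidAlgebra.single 1 s * x := by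
  induction x using MonoidAlgebra.induction_linear with
  | zero => rw [zero_mul, mul_zero]
  | add x y hx hy => rw [add_mul, mul_add, hx, hy]
  | single g r =>
    rw [MonoidAlgebra.single_mul_single, MonoidAlgebra.single_mul_single, mul_one, one_mul, hs]

/-- **(H)** Rings with a central element `s` with `s + s^* = 1`. -/
theorem van_cen {s : R} (hs : ∀ a, a * s = s * a) (h1 : s + star s = 1) (X B Y : Set G) :
    Van R G X B Y := by
  intro ε n ψ μ χ _ _ _ hN
  have h2 : UF ψ μ χ = hyp (Fin n) _ + fromBlocks ψ μᴴ 0 χ := by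
    unfold UF hyp
    rw [fromBlocks_add, zero_add, zero_add, zero_add]
  have hiso : Isometric ε (UF ψ μ χ) (hyp (Fin n) (MonoidAlgebra R G)) := by
    rw [h2]
    refine cen_iso ε (s := MonoidAlgebra.single 1 s) (cen_single hs) ?_ _ _
      (nu ε (ψ + (ε : ℤ) • ψᴴ) μ (χ + (ε : ℤ) • χᴴ)) ?_ hN
    · rw [UV.star_single, inv_one, ← MonoidAlgebra.single_add, h1]
      rfl
    · unfold hyp nu
      rw [fromBlocks_conjTranspose, fromBlocks_smul, fromBlocks_add, fromBlocks_multiply,
        fromBlocks_conjTranspose, fromBlocks_smul, fromBlocks_add]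
      simp only [Matrix.mul_zero, Matrix.zero_mul, Matrix.mul_one, Matrix.one_mul, zero_add,
        add_zero, conjTranspose_zero, conjTranspose_one, smul_zero, Matrix.smul_mul,
        Matrix.mul_smul, smul_smul, eps_sq, one_smul, conjTranspose_conjTranspose]
  exact sh_of_iso hiso ⟨0, n, hyp_sum ε n 0⟩

end Van

end Pool.Agent.Lib.MP8a3537.CR
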