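import Pool.Agent.Lib.MP_8a3537_gt.CR.UNI

/-!
# Coefficient rings (MP_8a3537_gt, folder CR): directed colimits (helper66)

`R` is the colimit of a directed system of rings with involution `S i` (the maps need not be injective);
if the vanishing theorem holds for `S j` for arbitrarily large `j`, it holds for `R`.
-/

set_option autoImplicit false
set_option linter.unusedSectionVars false

namespace Pool.Agent.Lib.MP8a3537.CR

open Matrix Pool.Agent.Lib.MP8a3537.UV

/-- `R` is the colimit of the directed system of rings with involution `S i` with the transition maps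
`f i j`. -/
structure IsCol {I : Type} [Preorder I] (S : I → Type) [∀ i, Ring (S i)] [∀ i, StarRing (S i)]
    (f : ∀ i j, i ≤ j → (S i →+* S j)) {R : Type} [Ring R] [StarRing R] (g : ∀ i, S i →+* R) :
    Prop where
  ne : Nonempty I
  dir : ∀ i j : I, ∃ k, i ≤ k ∧ j ≤ k
  sf : ∀ i j h r, f i j h (star r) = star (f i j h r)
  sg : ∀ i r, g i (star r) = star (g i r)
  comp : ∀ i j k hij hjk hik r, f j k hjk (f i j hij r) = f i k hik r
  comm : ∀ i j h r, g j (f i j h r) = g i r
  surj : ∀ x, ∃ i r, g i r = x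
  ker : ∀ i r, g i r = 0 → ∃ j h, f i j h r = 0

section Col

variable {I : Type} [Preorder I] {S : I → Type} [∀ i, Ring (S i)] [∀ i, StarRing (S i)]
  {f : ∀ i j, i ≤ j → (S i →+* S j)} {R : Type} [Ring R] [StarRing R] {g : ∀ i, S i →+* R}
  (hC : IsCol S f g) {G : Type} [Group G]

include hC

/-- finitely many elements of `R` come from one `S i` -/
theorem IsCol.fin_surj (F : Finset R) : ∃ i, ∀ x ∈ F, ∃ r, g i r = x := by
  classical
  induction F using Finset.induction_on with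
  | empty => exact ⟨hC.ne.some, fun x hx => absurd hx (Finset.notMem_empty x)⟩
  | insert a F _ ih =>
    obtain ⟨i, hi⟩ := ih
    obtain ⟨j, r, hr⟩ := hC.surj a
    obtain ⟨k, hik, hjk⟩ := hC.dir i j
    refine ⟨k, fun x hx => ?_⟩
    rcases Finset.mem_insert.1 hx with rfl | hx
    · exact ⟨f j k hjk r, by rw [hC.comm, hr]⟩
    · obtain ⟨s, hs⟩ := hi x hx
      exact ⟨f i k hik s, by rw [hC.comm, hs]⟩

/-- finitely many elements of the kernel of `g i` vanish in one `S j` -/
theorem IsCol.fin_ker (i : I) (F : Finset (S i)) (hF : ∀ x ∈ F, g i x = 0) :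
    ∃ j, ∃ h : i ≤ j, ∀ x ∈ F, f i j h x = 0 := by
  classical
  induction F using Finset.induction_on with
  | empty => exact ⟨i, le_rfl, fun x hx => absurd hx (Finset.notMem_empty x)⟩
  | insert a F _ ih =>
    obtain ⟨j, hij, hj⟩ := ih fun x hx => hF x (Finset.mem_insert_of_mem hx)
    obtain ⟨k, hik, hk⟩ := hC.ker i a (hF a (Finset.mem_insert_self a F))
    obtain ⟨l, hjl, hkl⟩ := hC.dir j k
    refine ⟨l, hij.trans hjl, fun x hx => ?_⟩
    rcases Finset.mem_insert.1 hx with rfl | hx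
    · rw [← hC.comp i k l hik hkl (hij.trans hjl), hk, map_zero]
    · rw [← hC.comp i j l hij hjl (hij.trans hjl), hj x hx, map_zero]

theorem IsCol.mr_comp (i j : I) (h : i ≤ j) {m n : Type} (M : Matrix m n (MonoidAlgebra (S i) G)) :
    (M.map (mr G (f i j h))).map (mr G (g j)) = M.map (mr G (g i)) := by
  ext a b x
  rw [Matrix.map_apply, Matrix.map_apply, Matrix.map_apply, mr_coeff, mr_coeff, mr_coeff, hC.comm]

/-- a matrix over `S i` which is `0` over `R` is `0` over some `S j` -/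
theorem IsCol.mat_ker (i : I) {m n : Type} [Fintype m] [Fintype n]
    (M : Matrix m n (MonoidAlgebra (S i) G)) (h : M.map (mr G (g i)) = 0) :
    ∃ j, ∃ h : i ≤ j, M.map (mr G (f i j h)) = 0 := by
  classical
  obtain ⟨j, hij, hj⟩ := hC.fin_ker i (Finset.univ.biUnion fun a => Finset.univ.biUnion fun b =>
    (M a b).coeff.support.image fun x => (M a b).coeff x) (by
      intro x hx
      rw [Finset.mem_biUnion] at hx
      obtain ⟨a, -, hx⟩ := hx
      rw [Finset.mem_biUnion] at hx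
      obtain ⟨b, -, hx⟩ := hx
      obtain ⟨y, -, rfl⟩ := Finset.mem_image.1 hx
      have h1 : mr G (g i) (M a b) = 0 := congrFun (congrFun h a) b
      rw [← mr_coeff, h1]
      rfl)
  refine ⟨j, hij, ?_⟩
  ext a b x
  rw [Matrix.map_apply, mr_coeff, Matrix.zero_apply]
  change f i j hij ((M a b).coeff x) = 0
  by_cases h0 : (M a b).coeff x = 0
  · rw [h0, map_zero]
  · apply hj
    rw [Finset.mem_biUnion]
    refine ⟨a, Finset.mem_univ _, ?_⟩
    rw [Finset.mem_biUnion]
    exact ⟨b, Finset.mem_univ _, Finset.mem_image.2 ⟨x, Finsupp.mem_support_iff.2 h0, rfl⟩⟩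

end Col

/-- lifts of matrices with the same support -/
theorem exists_lift_supp {R R0 G : Type} [Ring R] [StarRing R] [Ring R0] [StarRing R0] [Group G]
    (j : R0 →+* R) {n : Type} (M : Matrix n n (MonoidAlgebra R G))
    (h : ∀ i k g, ∃ r, j r = (M i k).coeff g) {X : Set G} (hX : SuppIn X M) :
    ∃ M0 : Matrix n n (MonoidAlgebra R0 G), M0.map (mr G j) = M ∧ SuppIn X M0 := by
  classical
  have hc : ∀ x : R, ∃ r : R0, ((∃ r, j r = x) → j r = x) ∧ (x = 0 → r = 0) := by
    intro x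
    by_cases h0 : x = 0
    · exact ⟨0, fun _ => by rw [map_zero, h0], fun _ => rfl⟩
    · by_cases h1 : ∃ r, j r = x
      · obtain ⟨r, hr⟩ := h1
        exact ⟨r, fun _ => hr, fun h2 => absurd h2 h0⟩
      · exact ⟨0, fun h2 => absurd h2 h1, fun _ => rfl⟩
  choose c hc1 hc2 using hc
  refine ⟨fun i k => .ofCoeff ((M i k).coeff.mapRange c (hc2 0 rfl)), ?_, ?_⟩
  · ext i k g
    refine (mr_coeff (G := G) j _ g).trans ?_
    exact hc1 _ (h i k g)
  · intro i k g hg
    apply hX i k g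
    intro h0
    apply hg
    change c ((M i k).coeff g) = 0
    exact hc2 _ h0

/-- **(C)** Directed colimits: if the vanishing theorem holds for `S j`, `j` arbitrarily large, it
holds for the colimit `R` of the `S j`. -/
theorem van_col {I : Type} [Preorder I] {S : I → Type} [∀ i, Ring (S i)] [∀ i, StarRing (S i)]
    {f : ∀ i j, i ≤ j → (S i →+* S j)} {R : Type} [Ring R] [StarRing R] {g : ∀ i, S i →+* R}
    (hC : IsCol S f g) {G : Type} [Group G] (X B Y : Set G)
    (h : ∀ i, ∃ j, i ≤ j ∧ Van (S j) G X B Y) : Van R G X B Y := by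
  classical
  intro ε n ψ μ χ hψ hμ hχ hN
  obtain ⟨i, hi⟩ := hC.fin_surj (coefs ψ ∪ coefs μ ∪ coefs χ)
  have hmem : ∀ M : Matrix (Fin n) (Fin n) (MonoidAlgebra R G),
      (∀ x ∈ coefs M, ∃ r, g i r = x) → ∀ a b y, ∃ r, g i r = (M a b).coeff y := by
    intro M hM a b y
    by_cases h0 : (M a b).coeff y = 0
    · exact ⟨0, by rw [map_zero, h0]⟩
    · apply hM
      unfold coefs
      rw [Finset.mem_biUnion]
      refine ⟨a, Finset.mem_univ _, ?_⟩
      rw [Finset.mem_biUnion]
      exact ⟨b, Finset.mem_univ _, Finset.mem_image.2 ⟨y, Finsupp.mem_support_iff.2 h0, rfl⟩⟩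
  obtain ⟨ψ0, rfl, hψ0⟩ := exists_lift_supp (g i) ψ (hmem ψ fun x hx => hi x (by simp [hx])) hψ
  obtain ⟨μ0, rfl, hμ0⟩ := exists_lift_supp (g i) μ (hmem μ fun x hx => hi x (by simp [hx])) hμ
  obtain ⟨χ0, rfl, hχ0⟩ := exists_lift_supp (g i) χ (hmem χ fun x hx => hi x (by simp [hx])) hχ
  -- the nilpotency
  obtain ⟨N, hN⟩ := hN
  have h1 : ((nu ε (ψ0 + (ε : ℤ) • ψ0ᴴ) μ0 (χ0 + (ε : ℤ) • χ0ᴴ)) ^ N).map (mr G (g i)) = 0 := by
    have h2 : ∀ M : Matrix (Fin n ⊕ Fin n) (Fin n ⊕ Fin n) (MonoidAlgebra (S i) G),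
        (M ^ N).map (mr G (g i)) = (M.map (mr G (g i))) ^ N := fun M =>
      map_pow (mr G (g i)).mapMatrix M N
    rw [h2, map_nu (mr G (g i)) (mr_star _ (hC.sg i)), Matrix.map_add _ (fun a b => map_add _ a b),
      Matrix.map_add _ (fun a b => map_add _ a b), map_zsmul', map_zsmul',
      map_conj _ (mr_star _ (hC.sg i)), map_conj _ (mr_star _ (hC.sg i))]
    exact hN
  obtain ⟨j, hij, hj⟩ := hC.mat_ker i _ h1
  obtain ⟨k, hjk, hV⟩ := h j
  have hik : i ≤ k := hij.trans hjk
  have h3 : IsNilpotent (nu ε (ψ0.map (mr G (f i k hik)) + (ε : ℤ) • (ψ0.map (mr G (f i k hik)))ᴴ)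
      (μ0.map (mr G (f i k hik)))
      (χ0.map (mr G (f i k hik)) + (ε : ℤ) • (χ0.map (mr G (f i k hik)))ᴴ)) := by
    refine ⟨N, ?_⟩
    have h4 : ((nu ε (ψ0 + (ε : ℤ) • ψ0ᴴ) μ0 (χ0 + (ε : ℤ) • χ0ᴴ)) ^ N).map (mr G (f i k hik)) =
        0 := by
      have h5 : ∀ M : Matrix (Fin n ⊕ Fin n) (Fin n ⊕ Fin n) (MonoidAlgebra (S i) G),
          M.map (mr G (f i k hik)) = (M.map (mr G (f i j hij))).map (mr G (f j k hjk)) := by
        intro M
        ext a b x
        rw [Matrix.map_apply, Matrix.map_apply, Matrix.map_apply, mr_coeff, mr_coeff, mr_coeff,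
          hC.comp i j k hij hjk hik]
      rw [h5, hj]
      ext a b x
      rw [Matrix.map_apply, Matrix.zero_apply, map_zero, Matrix.zero_apply]
    have h2 : ∀ M : Matrix (Fin n ⊕ Fin n) (Fin n ⊕ Fin n) (MonoidAlgebra (S i) G),
        (M ^ N).map (mr G (f i k hik)) = (M.map (mr G (f i k hik))) ^ N := fun M =>
      map_pow (mr G (f i k hik)).mapMatrix M N
    rw [h2, map_nu (mr G _) (mr_star _ (hC.sf i k hik)), Matrix.map_add _ (fun a b => map_add _ a b),
      Matrix.map_add _ (fun a b => map_add _ a b), map_zsmul', map_zsmul',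
      map_conj _ (mr_star _ (hC.sf i k hik)), map_conj _ (mr_star _ (hC.sf i k hik))] at h4
    exact h4
  have h6 := hV ε n _ _ _ (suppIn_mr (f i k hik) hψ0) (suppIn_mr (f i k hik) hμ0)
    (suppIn_mr (f i k hik) hχ0) h3
  have h7 := SH.map (mr G (g k)) (mr_star _ (hC.sg k)) h6
  rw [map_UF _ (mr_star _ (hC.sg k)), hC.mr_comp, hC.mr_comp, hC.mr_comp] at h7
  exact h7

end Pool.Agent.Lib.MP8a3537.CR
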