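import Pool.Agent.Lib.MP_8a3537_gt.CR.PUL

/-!
# Coefficient rings (MP_8a3537_gt, folder CR): matrix rings (helper66)

`R'` is isomorphic to the matrix ring `M_k(R)`, and the involution of `R'` corresponds to
`x ↦ d⁻¹ x^* d`, `d^* = ± d`. The vanishing theorem holds for `R` if and only if it holds for `R'`.
-/

set_option autoImplicit false
set_option linter.unusedSectionVars false

namespace Pool.Agent.Lib.MP8a3537.CR

open Matrix Pool.Agent.Lib.MP8a3537.UV

/-- `τ` is an isomorphism of rings, and the involutions differ by the conjugation with `c`, `c^* = ± c`. -/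
structure Tw {A T : Type*} [Ring A] [StarRing A] [Ring T] [StarRing T] (τ : A ≃+* T) (c ci : T)
    (δ : ℤˣ) : Prop where
  c1 : c * ci = 1
  c2 : ci * c = 1
  cs : star c = (δ : ℤ) • c
  ts : ∀ x, τ (star x) = ci * star (τ x) * c

/-- The vanishing theorem over a ring with involution, with sets of admissible entries. -/
def VanA (A : Type) [Ring A] [StarRing A] (X B Y : A → Prop) : Prop :=
  ∀ (ε : ℤˣ) (n : ℕ) (ψ μ χ : Matrix (Fin n) (Fin n) A),
    (∀ i j, X (ψ i j)) → (∀ i j, B (μ i j)) → (∀ i j, Y (χ i j)) →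
    IsNilpotent (nu ε (ψ + (ε : ℤ) • ψᴴ) μ (χ + (ε : ℤ) • χᴴ)) → StablyHyperbolic ε (UF ψ μ χ)

theorem van_iff {R G : Type} [Ring R] [StarRing R] [Group G] (X B Y : Set G) :
    Van R G X B Y ↔ VanA (MonoidAlgebra R G) (fun x => ∀ g, x.coeff g ≠ 0 → g ∈ X)
      (fun x => ∀ g, x.coeff g ≠ 0 → g ∈ B) (fun x => ∀ g, x.coeff g ≠ 0 → g ∈ Y) := Iff.rfl

namespace Tw

section

variable {A T : Type} [Ring A] [StarRing A] [Ring T] [StarRing T] {τ : A ≃+* T} {c ci : T}
    {δ : ℤˣ} (h : Tw τ c ci δ) {m n o : Type} [Fintype m] [DecidableEq m] [Fintype n]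
    [DecidableEq n] [Fintype o] [DecidableEq o]

include h

theorem cis : star ci = (δ : ℤ) • ci := by
  have h1 : star ci * star c = 1 := by rw [← star_mul, h.c1, star_one]
  rw [h.cs, mul_smul_comm] at h1
  have h2 : (δ : ℤ) • star ci = ci := by
    calc (δ : ℤ) • star ci = (δ : ℤ) • (star ci * (c * ci)) := by rw [h.c1, mul_one]
      _ = ((δ : ℤ) • (star ci * c)) * ci := by rw [← mul_assoc, smul_mul_assoc]
      _ = ci := by rw [h1, one_mul]
  calc star ci = ((δ : ℤ) * (δ : ℤ)) • star ci := by rw [eps_sq, one_smul]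
    _ = (δ : ℤ) • ci := by rw [mul_smul, h2]

omit h in
/-- the diagonal matrix -/
theorem dc_mul {c ci : T} (h1 : c * ci = 1) :
    (diagonal fun _ : m => c) * (diagonal fun _ : m => ci) = 1 := by
  rw [diagonal_mul_diagonal, h1, diagonal_one]

theorem dc_star : (diagonal fun _ : m => c)ᴴ = (δ : ℤ) • (diagonal fun _ : m => c) := by
  rw [diagonal_conjTranspose]
  ext i j
  rw [Matrix.smul_apply]
  by_cases hij : i = j
  · subst hij
    simp [h.cs]
  · simp [hij]

theorem dci_star : (diagonal fun _ : m => ci)ᴴ = (δ : ℤ) • (diagonal fun _ : m => ci) := by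
  rw [diagonal_conjTranspose]
  ext i j
  rw [Matrix.smul_apply]
  by_cases hij : i = j
  · subst hij
    simp [h.cis]
  · simp [hij]

theorem conj_map (M : Matrix m n A) :
    (Mᴴ).map τ = (diagonal fun _ : n => ci) * (M.map τ)ᴴ * (diagonal fun _ : m => c) := by
  ext i j
  rw [Matrix.mul_diagonal, Matrix.diagonal_mul]
  exact h.ts _

/-- the inverse isomorphism -/
theorem symm : Tw τ.symm (τ.symm ci) (τ.symm c) δ where
  c1 := by rw [← map_mul, h.c2, map_one]
  c2 := by rw [← map_mul, h.c1, map_one]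
  cs := by
    apply τ.injective
    rw [h.ts, RingEquiv.apply_symm_apply, map_zsmul, RingEquiv.apply_symm_apply, h.cis,
      mul_smul_comm, smul_mul_assoc, mul_assoc, h.c2, mul_one]
  ts := fun x => by
    apply τ.injective
    rw [map_mul, map_mul, RingEquiv.apply_symm_apply, RingEquiv.apply_symm_apply,
      RingEquiv.apply_symm_apply, h.ts, RingEquiv.apply_symm_apply]
    calc star x = (c * ci) * star x * (c * ci) := by rw [h.c1, one_mul, mul_one]
      _ = c * (ci * star x * c) * ci := by simp only [mul_assoc]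

theorem iso_tw {ε : ℤˣ} {Ψ : Matrix m m A} {Φ : Matrix n n A}
    (hi : Isometric (ε * δ) ((diagonal fun _ : m => c) * Ψ.map τ) ((diagonal fun _ : n => c) * Φ.map τ)) :
    Isometric ε Ψ Φ := by
  obtain ⟨u, v, Z, huv, hvu, hΦ⟩ := hi
  have hinj : ∀ {p q : Type} (M N : Matrix p q A), M.map τ = N.map τ → M = N := by
    intro p q M N hMN
    ext i j
    apply τ.injective
    exact congrFun (congrFun hMN i) j
  have hs : ∀ {p q : Type} (M : Matrix p q T), (M.map τ.symm).map τ = M := by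
    intro p q M
    ext i j
    exact τ.apply_symm_apply _
  refine ⟨u.map τ.symm, v.map τ.symm, ((diagonal fun _ : n => ci) * Z).map τ.symm, ?_, ?_, ?_⟩
  · apply hinj
    rw [Matrix.map_mul, hs, hs, huv, Matrix.map_one _ (map_zero τ) (map_one τ)]
  · apply hinj
    rw [Matrix.map_mul, hs, hs, hvu, Matrix.map_one _ (map_zero τ) (map_one τ)]
  · apply hinj
    have e0 : ∀ M N : Matrix n n T, (diagonal fun _ : n => c) * M = (diagonal fun _ : n => c) * N →
        M = N := by
      intro M N hMN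
      calc M = (diagonal fun _ : n => ci) * (diagonal fun _ : n => c) * M := by
            rw [dc_mul h.c2, Matrix.one_mul]
        _ = (diagonal fun _ : n => ci) * (diagonal fun _ : n => c) * N := by
            rw [Matrix.mul_assoc, hMN, ← Matrix.mul_assoc]
        _ = N := by rw [dc_mul h.c2, Matrix.one_mul]
    apply e0
    have e1 : ∀ M : Matrix n n T, (diagonal fun _ : n => c) * ((diagonal fun _ : n => ci) * M) = M := by
      intro M
      rw [← Matrix.mul_assoc, dc_mul h.c1, Matrix.one_mul]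
    have e2 : (diagonal fun _ : n => ci)ᴴ * (diagonal fun _ : n => c) = (δ : ℤ) • (1 : Matrix n n T) := by
      rw [h.dci_star, Matrix.smul_mul, dc_mul h.c2]
    rw [hΦ, Matrix.map_sub _ (fun a b => map_sub τ a b), Matrix.map_add _ (fun a b => map_add τ a b),
      Matrix.map_mul, Matrix.map_mul, h.conj_map, hs, hs]
    have e3 : (((ε : ℤ) • (((diagonal fun _ : n => ci) * Z).map τ.symm)ᴴ)).map τ =
        (ε : ℤ) • ((diagonal fun _ : n => ci) * (((diagonal fun _ : n => ci) * Z)ᴴ) *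
          (diagonal fun _ : n => c)) := by
      have e4 : ∀ M : Matrix n n A, ((ε : ℤ) • M).map τ = (ε : ℤ) • M.map τ := by
        intro M
        ext i j
        exact map_zsmul τ _ _
      rw [e4, h.conj_map, hs]
    rw [e3, Matrix.mul_sub, Matrix.mul_add, e1, Matrix.mul_smul]
    simp only [Matrix.mul_assoc]
    rw [e1, e1, conjTranspose_mul, Matrix.mul_assoc, e2, Matrix.mul_smul, Matrix.mul_one, smul_smul,
      Units.val_mul]

omit h in
theorem diag_sum (c : T) : (diagonal fun _ : m ⊕ n => c) =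
    fromBlocks (diagonal fun _ : m => c) 0 0 (diagonal fun _ : n => c) := by
  rw [fromBlocks_diagonal]
  congr 1
  funext i
  rcases i with i | i <;> rfl

/-- the hyperbolic form -/
theorem hyp_tw (ε : ℤˣ) : Isometric ε ((diagonal fun _ : m ⊕ m => c) * (hyp m A).map τ) (hyp m T) := by
  have h1 : (hyp m A).map τ = hyp m T := by
    unfold hyp
    rw [fromBlocks_map, Matrix.map_one _ (map_zero τ) (map_one τ)]
    simp
  rw [h1]
  refine ⟨fromBlocks 1 0 0 (diagonal fun _ : m => ci), fromBlocks 1 0 0 (diagonal fun _ : m => c), 0,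
    ?_, ?_, ?_⟩
  · rw [fromBlocks_multiply]
    simp [h.c2]
  · rw [fromBlocks_multiply]
    simp [h.c1]
  · rw [diag_sum, fromBlocks_conjTranspose]
    unfold hyp
    rw [fromBlocks_multiply, fromBlocks_multiply]
    simp only [conjTranspose_one, conjTranspose_zero, Matrix.one_mul, Matrix.mul_one,
      Matrix.zero_mul, Matrix.mul_zero, add_zero, zero_add, smul_zero, sub_zero]
    rw [fromBlocks_multiply]
    simp [h.c1]

theorem sh_tw {ε : ℤˣ} {Ψ : Matrix m m A}
    (hS : StablyHyperbolic (ε * δ) ((diagonal fun _ : m => c) * Ψ.map τ)) : StablyHyperbolic ε Ψ := by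
  obtain ⟨k, l, hi⟩ := hS
  refine ⟨k, l, h.iso_tw ?_⟩
  refine Iso.trans ?_ (Iso.symm (h.hyp_tw (ε * δ)))
  refine Iso.trans ?_ hi
  have h1 : (diagonal fun _ : m ⊕ (Fin k ⊕ Fin k) => c) *
      (fromBlocks Ψ 0 0 (hyp (Fin k) A)).map τ =
      fromBlocks ((diagonal fun _ : m => c) * Ψ.map τ) 0 0
        ((diagonal fun _ : Fin k ⊕ Fin k => c) * (hyp (Fin k) A).map τ) := by
    rw [diag_sum, fromBlocks_map, fromBlocks_multiply]
    simp
  rw [h1]
  exact Iso.sum_left (h.hyp_tw (ε * δ)) _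

theorem uf_tw (ε : ℤˣ) (ψ μ χ : Matrix m m A) :
    Isometric (ε * δ) ((diagonal fun _ : m ⊕ m => c) * (UF ψ μ χ).map τ)
      (UF ((diagonal fun _ : m => c) * ψ.map τ) (μ.map τ)
        ((δ : ℤ) • (χ.map τ * (diagonal fun _ : m => ci)))) := by
  refine ⟨fromBlocks 1 0 0 (diagonal fun _ : m => ci), fromBlocks 1 0 0 (diagonal fun _ : m => c), 0,
    ?_, ?_, ?_⟩
  · rw [fromBlocks_multiply]
    simp [h.c2]
  · rw [fromBlocks_multiply]
    simp [h.c1]
  · have e1 : (1 + μᴴ : Matrix m m A).map τ = 1 + (diagonal fun _ : m => ci) * (μ.map τ)ᴴ *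
        (diagonal fun _ : m => c) := by
      rw [Matrix.map_add _ (fun a b => map_add τ a b), Matrix.map_one _ (map_zero τ) (map_one τ),
        h.conj_map]
    unfold UF
    rw [diag_sum, fromBlocks_conjTranspose, fromBlocks_map, e1, fromBlocks_multiply,
      fromBlocks_multiply, h.dci_star]
    have e2 : ∀ M : Matrix m m T, (diagonal fun _ : m => c) * ((diagonal fun _ : m => ci) * M) = M := by
      intro M
      rw [← Matrix.mul_assoc, dc_mul h.c1, Matrix.one_mul]
    have e3 : ∀ M : Matrix m m T, (diagonal fun _ : m => ci) * ((diagonal fun _ : m => c) * M) = M := by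
      intro M
      rw [← Matrix.mul_assoc, dc_mul h.c2, Matrix.one_mul]
    have e4 : (diagonal fun _ : m => c) * (diagonal fun _ : m => ci) = (1 : Matrix m m T) :=
      dc_mul h.c1
    simp only [conjTranspose_one, conjTranspose_zero, Matrix.one_mul, Matrix.mul_one,
      Matrix.zero_mul, Matrix.mul_zero, add_zero, zero_add, Matrix.map_zero τ (map_zero τ),
      Matrix.mul_add, Matrix.mul_assoc, e2, e3, Matrix.smul_mul, smul_zero, sub_zero]
    rw [fromBlocks_multiply]
    simp only [Matrix.mul_one, Matrix.zero_mul, Matrix.mul_zero, add_zero, zero_add, Matrix.add_mul,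
      Matrix.mul_assoc, e4, Matrix.smul_mul]

theorem pow_conj {P Pi : Matrix m m T} (h1 : Pi * P = 1) (M : Matrix m m T) (k : ℕ) :
    (P * M * Pi) ^ (k + 1) = P * M ^ (k + 1) * Pi := by
  induction k with
  | zero => simp
  | succ k ih =>
    rw [pow_succ, ih, pow_succ M (k + 1)]
    calc P * M ^ (k + 1) * Pi * (P * M * Pi) = P * M ^ (k + 1) * (Pi * P) * M * Pi := by
          simp only [Matrix.mul_assoc]
      _ = P * (M ^ (k + 1) * M) * Pi := by rw [h1, Matrix.mul_one]; simp only [Matrix.mul_assoc]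

theorem nil_tw {ε : ℤˣ} {ψ μ χ : Matrix m m A}
    (hN : IsNilpotent (nu ε (ψ + (ε : ℤ) • ψᴴ) μ (χ + (ε : ℤ) • χᴴ))) :
    IsNilpotent (nu (ε * δ)
      ((diagonal fun _ : m => c) * ψ.map τ + ((ε * δ : ℤˣ) : ℤ) • ((diagonal fun _ : m => c) * ψ.map τ)ᴴ)
      (μ.map τ) ((δ : ℤ) • (χ.map τ * (diagonal fun _ : m => ci)) +
        ((ε * δ : ℤˣ) : ℤ) • ((δ : ℤ) • (χ.map τ * (diagonal fun _ : m => ci)))ᴴ)) := by
  have e2 : ∀ M : Matrix m m T, (diagonal fun _ : m => c) * ((diagonal fun _ : m => ci) * M) = M := by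
    intro M
    rw [← Matrix.mul_assoc, dc_mul h.c1, Matrix.one_mul]
  have e3 : ∀ M : Matrix m m T, (diagonal fun _ : m => ci) * ((diagonal fun _ : m => c) * M) = M := by
    intro M
    rw [← Matrix.mul_assoc, dc_mul h.c2, Matrix.one_mul]
  have e4 : (diagonal fun _ : m => c) * (diagonal fun _ : m => ci) = (1 : Matrix m m T) :=
    dc_mul h.c1
  have e5 : ∀ (z : ℤ) (M : Matrix m m A), (z • M).map τ = z • M.map τ := by
    intro z M
    ext i j
    exact map_zsmul τ _ _
  have key : nu (ε * δ)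
      ((diagonal fun _ : m => c) * ψ.map τ + ((ε * δ : ℤˣ) : ℤ) • ((diagonal fun _ : m => c) * ψ.map τ)ᴴ)
      (μ.map τ) ((δ : ℤ) • (χ.map τ * (diagonal fun _ : m => ci)) +
        ((ε * δ : ℤˣ) : ℤ) • ((δ : ℤ) • (χ.map τ * (diagonal fun _ : m => ci)))ᴴ) =
      fromBlocks 1 0 0 (diagonal fun _ : m => c) *
        (nu ε (ψ + (ε : ℤ) • ψᴴ) μ (χ + (ε : ℤ) • χᴴ)).map τ *
        fromBlocks 1 0 0 (diagonal fun _ : m => ci) := by
    unfold nu
    rw [fromBlocks_map, fromBlocks_multiply, fromBlocks_multiply]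
    have hd : (δ : ℤ) * (δ : ℤ) = 1 := eps_sq δ
    have he : (ε : ℤ) * (ε : ℤ) = 1 := eps_sq ε
    congr 1
    · simp
    · simp only [Matrix.one_mul, Matrix.mul_zero, Matrix.zero_mul, zero_add, add_zero]
      rw [e5, Matrix.map_add _ (fun a b => map_add τ a b), e5, h.conj_map]
      simp only [conjTranspose_smul, star_trivial, conjTranspose_mul, h.dci_star, Units.val_mul,
        smul_add, Matrix.add_mul, Matrix.smul_mul, Matrix.mul_assoc, e4, Matrix.mul_one, smul_smul]
      have f1 : (ε : ℤ) * δ * δ = ε := by rw [mul_assoc, hd, mul_one]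
      have f2 : (ε : ℤ) * δ * (ε * δ * (δ * δ)) = ε * ε := by
        rw [hd, mul_one]
        calc (ε : ℤ) * δ * (ε * δ) = (ε * ε) * (δ * δ) := by ring
          _ = ε * ε := by rw [hd, mul_one]
      rw [f1, f2]
    · simp only [Matrix.mul_one, Matrix.mul_zero, Matrix.zero_mul, zero_add, add_zero]
      rw [Matrix.map_add _ (fun a b => map_add τ a b), e5, h.conj_map]
      simp only [conjTranspose_mul, h.dc_star, Units.val_mul, Matrix.mul_add, Matrix.mul_smul,
        Matrix.mul_assoc, e2, smul_smul]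
      rw [mul_assoc, hd, mul_one]
    · rw [h.conj_map]
      simp only [Matrix.mul_zero, Matrix.zero_mul, zero_add, add_zero, Matrix.mul_assoc, e2, e4,
        Matrix.mul_one]
  rw [key]
  obtain ⟨k, hk⟩ := hN
  refine ⟨k + 1, ?_⟩
  have h2 : ∀ M : Matrix (m ⊕ m) (m ⊕ m) A, (M ^ (k + 1)).map τ = (M.map τ) ^ (k + 1) := fun M =>
    map_pow (τ : A →+* T).mapMatrix M (k + 1)
  rw [h.pow_conj (by rw [fromBlocks_multiply]; simp [h.c2]), ← h2, pow_succ, hk, Matrix.zero_mul,
    Matrix.map_zero τ (map_zero τ), Matrix.mul_zero, Matrix.zero_mul]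

end

theorem vanA_tw {A T : Type} [Ring A] [StarRing A] [Ring T] [StarRing T] {τ : A ≃+* T} {c ci : T}
    {δ : ℤˣ} (h : Tw τ c ci δ) {X B Y : A → Prop} {X' B' Y' : T → Prop}
    (hX : ∀ x, X x → X' (c * τ x)) (hB : ∀ x, B x → B' (τ x))
    (hY : ∀ x, Y x → Y' ((δ : ℤ) • (τ x * ci))) (hV : VanA T X' B' Y') : VanA A X B Y := by
  intro ε n ψ μ χ h1 h2 h3 hN
  apply h.sh_tw
  refine sh_of_iso (h.uf_tw ε ψ μ χ) ?_
  refine hV (ε * δ) n _ _ _ ?_ ?_ ?_ (h.nil_tw hN)
  · intro i j
    rw [Matrix.diagonal_mul]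
    exact hX _ (h1 i j)
  · intro i j
    exact hB _ (h2 i j)
  · intro i j
    rw [Matrix.smul_apply, Matrix.mul_diagonal]
    exact hY _ (h3 i j)

end Tw

/-! ### Matrices of matrices -/

section Comp

variable {A : Type} [Ring A] [StarRing A] {k : ℕ} {m n o : Type} [Fintype m] [DecidableEq m]
  [Fintype n] [DecidableEq n] [Fintype o] [DecidableEq o]

/-- the matrix over `A` of a matrix of matrices -/
def cm {m n : Type} (M : Matrix m n (Matrix (Fin k) (Fin k) A)) : Matrix (m × Fin k) (n × Fin k) A :=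
  fun p q => M p.1 q.1 p.2 q.2

/-- the matrix of matrices of a matrix -/
def dm {m n : Type} (M : Matrix (m × Fin k) (n × Fin k) A) : Matrix m n (Matrix (Fin k) (Fin k) A) :=
  fun i j a b => M (i, a) (j, b)

theorem cm_dm {m n : Type} (M : Matrix (m × Fin k) (n × Fin k) A) : cm (dm M) = M := rfl

theorem cm_inj {m n : Type} {M N : Matrix m n (Matrix (Fin k) (Fin k) A)} (h : cm M = cm N) :
    M = N := by
  funext i j a b
  exact congrFun (congrFun h (i, a)) (j, b)

theorem cm_mul (M : Matrix m n (Matrix (Fin k) (Fin k) A))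
    (N : Matrix n o (Matrix (Fin k) (Fin k) A)) : cm (M * N) = cm M * cm N := by
  ext ⟨i, a⟩ ⟨j, b⟩
  rw [Matrix.mul_apply, Fintype.sum_prod_type]
  change (M * N) i j a b = _
  rw [Matrix.mul_apply, Matrix.sum_apply]
  refine Finset.sum_congr rfl fun l _ => ?_
  rw [Matrix.mul_apply]
  rfl

theorem cm_one : cm (1 : Matrix m m (Matrix (Fin k) (Fin k) A)) = 1 := by
  ext ⟨i, a⟩ ⟨j, b⟩
  change (1 : Matrix m m (Matrix (Fin k) (Fin k) A)) i j a b = _
  rw [Matrix.one_apply, Matrix.one_apply]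
  by_cases hij : i = j
  · subst hij
    rw [if_pos rfl, Matrix.one_apply]
    by_cases hab : a = b
    · subst hab
      rw [if_pos rfl, if_pos rfl]
    · rw [if_neg hab, if_neg]
      exact fun h => hab (congrArg Prod.snd h)
  · rw [if_neg hij, if_neg]
    · rfl
    · exact fun h => hij (congrArg Prod.fst h)

theorem cm_conj (M : Matrix m n (Matrix (Fin k) (Fin k) A)) : cm Mᴴ = (cm M)ᴴ := rfl

theorem cm_pow (M : Matrix m m (Matrix (Fin k) (Fin k) A)) (r : ℕ) : cm (M ^ r) = cm M ^ r := by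
  induction r with
  | zero => rw [pow_zero, pow_zero, cm_one]
  | succ r ih => rw [pow_succ, pow_succ, cm_mul, ih]

theorem iso_cm {ε : ℤˣ} {Ψ : Matrix m m (Matrix (Fin k) (Fin k) A)}
    {Φ : Matrix n n (Matrix (Fin k) (Fin k) A)} (h : Isometric ε Ψ Φ) :
    Isometric ε (cm Ψ) (cm Φ) := by
  obtain ⟨u, v, Z, huv, hvu, hΦ⟩ := h
  refine ⟨cm u, cm v, cm Z, ?_, ?_, ?_⟩
  · rw [← cm_mul, huv, cm_one]
  · rw [← cm_mul, hvu, cm_one]
  · rw [hΦ, ← cm_conj, ← cm_conj, ← cm_mul, ← cm_mul]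
    rfl

theorem iso_dm {ε : ℤˣ} {Ψ : Matrix m m (Matrix (Fin k) (Fin k) A)}
    {Φ : Matrix n n (Matrix (Fin k) (Fin k) A)} (h : Isometric ε (cm Ψ) (cm Φ)) :
    Isometric ε Ψ Φ := by
  obtain ⟨u, v, Z, huv, hvu, hΦ⟩ := h
  refine ⟨dm u, dm v, dm Z, ?_, ?_, ?_⟩
  · apply cm_inj
    rw [cm_mul, cm_dm, cm_dm, huv, cm_one]
  · apply cm_inj
    rw [cm_mul, cm_dm, cm_dm, hvu, cm_one]
  · apply cm_inj
    rw [hΦ]
    have h1 : cm ((dm u)ᴴ * Ψ * dm u) = uᴴ * cm Ψ * u := by
      rw [cm_mul, cm_mul, cm_conj, cm_dm]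
    rw [← h1]
    rfl

theorem cm_blocks (P : Matrix m m (Matrix (Fin k) (Fin k) A)) (Q : Matrix m n _) (S : Matrix n m _)
    (U : Matrix n n _) : cm (fromBlocks P Q S U) =
    (fromBlocks (cm P) (cm Q) (cm S) (cm U)).submatrix (Equiv.sumProdDistrib m n (Fin k))
      (Equiv.sumProdDistrib m n (Fin k)) := by
  ext ⟨i | i, a⟩ ⟨j | j, b⟩ <;> rfl

theorem iso_cm_blocks (ε : ℤˣ) (P : Matrix m m (Matrix (Fin k) (Fin k) A)) (Q : Matrix m n _)
    (S : Matrix n m _) (U : Matrix n n _) :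
    Isometric ε (cm (fromBlocks P Q S U)) (fromBlocks (cm P) (cm Q) (cm S) (cm U)) := by
  rw [cm_blocks]
  exact Iso.symm (iso_reindex ε _ _)

theorem iso_hyp (ε : ℤˣ) (e : m ≃ n) : Isometric ε (hyp m A) (hyp n A) := by
  refine Iso.trans (iso_reindex ε (Equiv.sumCongr e.symm e.symm) _) ?_
  have h1 : (hyp m A).submatrix (Equiv.sumCongr e.symm e.symm) (Equiv.sumCongr e.symm e.symm) =
      hyp n A := by
    unfold hyp
    ext (i | i) (j | j)
    · rfl
    · change (1 : Matrix m m A) (e.symm i) (e.symm j) = (1 : Matrix n n A) i j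
      rw [Matrix.one_apply, Matrix.one_apply]
      simp only [EmbeddingLike.apply_eq_iff_eq]
    · rfl
    · rfl
  rw [h1]
  exact Iso.refl ε _

theorem iso_cm_hyp (ε : ℤˣ) : Isometric ε (cm (hyp m (Matrix (Fin k) (Fin k) A))) (hyp (m × Fin k) A) := by
  refine Iso.trans (iso_cm_blocks ε _ _ _ _) ?_
  rw [cm_one]
  exact Iso.refl ε _

theorem nil_submatrix (e : n ≃ m) {M : Matrix m m A} (h : IsNilpotent M) :
    IsNilpotent (M.submatrix e e) := by
  obtain ⟨r, hr⟩ := h
  refine ⟨r, ?_⟩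
  have h1 : ∀ r : ℕ, (M.submatrix e e) ^ r = (M ^ r).submatrix e e := by
    intro r
    induction r with
    | zero => simp
    | succ r ih => rw [pow_succ, pow_succ, ih, Matrix.submatrix_mul_equiv]
  rw [h1, hr]
  rfl

theorem nil_cm {M : Matrix m m (Matrix (Fin k) (Fin k) A)} (h : IsNilpotent M) :
    IsNilpotent (cm M) := by
  obtain ⟨r, hr⟩ := h
  refine ⟨r, ?_⟩
  rw [← cm_pow, hr]
  rfl

/-- any finite index set -/
theorem VanA.ft {X B Y : A → Prop} (hV : VanA A X B Y) (ε : ℤˣ) (ψ μ χ : Matrix m m A)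
    (h1 : ∀ i j, X (ψ i j)) (h2 : ∀ i j, B (μ i j)) (h3 : ∀ i j, Y (χ i j))
    (hN : IsNilpotent (nu ε (ψ + (ε : ℤ) • ψᴴ) μ (χ + (ε : ℤ) • χᴴ))) :
    StablyHyperbolic ε (UF ψ μ χ) := by
  have e : m ≃ Fin (Fintype.card m) := Fintype.equivFin m
  have e1 : (UF ψ μ χ).submatrix (Equiv.sumCongr e.symm e.symm) (Equiv.sumCongr e.symm e.symm) =
      UF (ψ.submatrix e.symm e.symm) (μ.submatrix e.symm e.symm) (χ.submatrix e.symm e.symm) := by
    unfold UF
    ext (i | i) (j | j)
    · rfl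
    · change (1 + μᴴ : Matrix m m A) (e.symm i) (e.symm j) =
        (1 + (μ.submatrix e.symm e.symm)ᴴ : Matrix _ _ A) i j
      rw [Matrix.add_apply, Matrix.add_apply, Matrix.one_apply, Matrix.one_apply]
      simp only [EmbeddingLike.apply_eq_iff_eq]
      rfl
    · rfl
    · rfl
  have e2 : (nu ε (ψ + (ε : ℤ) • ψᴴ) μ (χ + (ε : ℤ) • χᴴ)).submatrix
      (Equiv.sumCongr e.symm e.symm) (Equiv.sumCongr e.symm e.symm) =
      nu ε (ψ.submatrix e.symm e.symm + (ε : ℤ) • (ψ.submatrix e.symm e.symm)ᴴ)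
        (μ.submatrix e.symm e.symm)
        (χ.submatrix e.symm e.symm + (ε : ℤ) • (χ.submatrix e.symm e.symm)ᴴ) := by
    unfold nu
    ext (i | i) (j | j) <;> rfl
  refine sh_of_iso (iso_reindex ε (Equiv.sumCongr e.symm e.symm) _) ?_
  rw [e1]
  refine hV ε _ _ _ _ (fun i j => h1 _ _) (fun i j => h2 _ _) (fun i j => h3 _ _) ?_
  rw [← e2]
  exact nil_submatrix _ hN

/-- equal ranks -/
def CardInv (A : Type) [Ring A] : Prop :=
  ∀ (ι κ : Type) [Fintype ι] [DecidableEq ι] [Fintype κ] [DecidableEq κ] (u : Matrix ι κ A)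
    (v : Matrix κ ι A), u * v = 1 → v * u = 1 → Fintype.card ι = Fintype.card κ

/-- from `A` to the matrices over `A` -/
theorem vanA_cm (hk : 0 < k) (hc : CardInv A) {X B Y : A → Prop} (hV : VanA A X B Y) :
    VanA (Matrix (Fin k) (Fin k) A) (fun M => ∀ a b, X (M a b)) (fun M => ∀ a b, B (M a b))
      (fun M => ∀ a b, Y (M a b)) := by
  intro ε n ψ μ χ h1 h2 h3 hN
  have e1 : (nu ε (cm ψ + (ε : ℤ) • (cm ψ)ᴴ) (cm μ) (cm χ + (ε : ℤ) • (cm χ)ᴴ)) =
      (cm (nu ε (ψ + (ε : ℤ) • ψᴴ) μ (χ + (ε : ℤ) • χᴴ))).submatrix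
        (Equiv.sumProdDistrib (Fin n) (Fin n) (Fin k)).symm
        (Equiv.sumProdDistrib (Fin n) (Fin n) (Fin k)).symm := by
    ext (⟨i, a⟩ | ⟨i, a⟩) (⟨j, b⟩ | ⟨j, b⟩) <;> rfl
  have e2 : UF (cm ψ) (cm μ) (cm χ) = fromBlocks (cm ψ) (cm (1 + μᴴ)) (cm 0) (cm χ) := by
    unfold UF
    have e3 : cm (1 + μᴴ) = cm (1 : Matrix (Fin n) (Fin n) (Matrix (Fin k) (Fin k) A)) + cm μᴴ := rfl
    rw [e3, cm_one, cm_conj]
    rfl
  obtain ⟨m, l, hi⟩ := hV.ft ε (cm ψ) (cm μ) (cm χ) (fun p q => h1 p.1 q.1 p.2 q.2)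
    (fun p q => h2 p.1 q.1 p.2 q.2) (fun p q => h3 p.1 q.1 p.2 q.2)
    (by rw [e1]; exact nil_submatrix _ (nil_cm hN))
  have hcard : n * k + m = l := by
    obtain ⟨u, v, -, a, b, -⟩ := hi
    have := hc _ _ u v a b
    simp only [Fintype.card_sum, Fintype.card_fin, Fintype.card_prod] at this
    omega
  subst hcard
  have hmk : m ≤ m * k := Nat.le_mul_of_pos_right m hk
  have h5 := stab hi (m * k - m)
  rw [show m + (m * k - m) = m * k by omega, show n * k + m + (m * k - m) = (n + m) * k by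
    rw [add_mul]; omega] at h5
  refine ⟨m, n + m, iso_dm ?_⟩
  refine Iso.trans (iso_cm_blocks ε _ _ _ _) ?_
  refine Iso.trans ?_ (Iso.symm (iso_cm_hyp ε))
  refine Iso.trans ?_ (iso_hyp ε finProdFinEquiv.symm)
  refine Iso.trans ?_ h5
  change Isometric ε (fromBlocks (cm (UF ψ μ χ)) 0 0 (cm (hyp (Fin m) _))) _
  refine Iso.trans (Iso.sum_left (Iso.trans (iso_cm_hyp ε) (iso_hyp ε finProdFinEquiv)) _) ?_
  refine Iso.sum_right ?_ _
  rw [e2]
  exact iso_cm_blocks ε _ _ _ _

/-! ### The corner -/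

/-- the embedding in the corner `i0` -/
def ex (i0 : Fin k) {m n : Type} (M : Matrix m n A) : Matrix m n (Matrix (Fin k) (Fin k) A) :=
  fun i j a b => if a = i0 ∧ b = i0 then M i j else 0

variable (i0 : Fin k)

theorem ex_apply {m n : Type} (M : Matrix m n A) (i : m) (j : n) (a b : Fin k) :
    ex i0 M i j a b = if a = i0 ∧ b = i0 then M i j else 0 := rfl

theorem ex_mul (M : Matrix m n A) (N : Matrix n o A) : ex i0 (M * N) = ex i0 M * ex i0 N := by
  funext i j a b
  simp only [Matrix.mul_apply, Matrix.sum_apply, ex_apply]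
  by_cases hb : b = i0
  · by_cases ha : a = i0
    · subst ha hb
      rw [if_pos ⟨rfl, rfl⟩]
      refine Finset.sum_congr rfl fun l _ => ?_
      rw [Finset.sum_eq_single b]
      · simp
      · intro x _ hx
        simp [hx]
      · intro h
        exact absurd (Finset.mem_univ _) h
    · rw [if_neg (fun h => ha h.1)]
      symm
      refine Finset.sum_eq_zero fun l _ => ?_
      refine Finset.sum_eq_zero fun x _ => ?_
      simp [ha]
  · rw [if_neg (fun h => hb h.2)]
    symm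
    refine Finset.sum_eq_zero fun l _ => ?_
    refine Finset.sum_eq_zero fun x _ => ?_
    simp [hb]

theorem ex_add {m n : Type} (M N : Matrix m n A) : ex i0 (M + N) = ex i0 M + ex i0 N := by
  funext i j a b
  rw [Matrix.add_apply, Matrix.add_apply]
  unfold ex
  by_cases h : a = i0 ∧ b = i0
  · rw [if_pos h, if_pos h, if_pos h]
    rfl
  · rw [if_neg h, if_neg h, if_neg h, add_zero]

theorem ex_smul {m n : Type} (z : ℤ) (M : Matrix m n A) : ex i0 (z • M) = z • ex i0 M := by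
  funext i j a b
  rw [Matrix.smul_apply, Matrix.smul_apply]
  unfold ex
  by_cases h : a = i0 ∧ b = i0
  · rw [if_pos h, if_pos h]
    rfl
  · rw [if_neg h, if_neg h, smul_zero]

theorem ex_conj {m n : Type} (M : Matrix m n A) : ex i0 Mᴴ = (ex i0 M)ᴴ := by
  funext i j a b
  change _ = star (ex i0 M j i b a)
  unfold ex
  by_cases h : a = i0 ∧ b = i0
  · rw [if_pos h, if_pos ⟨h.2, h.1⟩]
    rfl
  · rw [if_neg h, if_neg (fun h' => h ⟨h'.2, h'.1⟩), star_zero]

theorem ex_blocks {m n : Type} (P : Matrix m m A) (Q : Matrix m n A) (S : Matrix n m A)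
    (U : Matrix n n A) : ex i0 (fromBlocks P Q S U) =
    fromBlocks (ex i0 P) (ex i0 Q) (ex i0 S) (ex i0 U) := by
  ext (i | i) (j | j) <;> rfl

theorem ex_nil {M : Matrix m m A} (h : IsNilpotent M) : IsNilpotent (ex i0 M) := by
  obtain ⟨r, hr⟩ := h
  refine ⟨r + 1, ?_⟩
  have h1 : ∀ r : ℕ, (ex i0 M) ^ (r + 1) = ex i0 (M ^ (r + 1)) := by
    intro r
    induction r with
    | zero => simp
    | succ r ih => rw [pow_succ, ih, pow_succ M (r + 1), ex_mul]
  rw [h1, pow_succ, hr, Matrix.zero_mul]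
  funext i j a b
  unfold ex
  split_ifs <;> rfl

/-- the decomposition of the index set -/
def EEf (n : Type) (p : (n ⊕ n) ⊕ ((n × {a : Fin k // a ≠ i0}) ⊕ (n × {a : Fin k // a ≠ i0}))) :
    (n ⊕ n) × Fin k :=
  match p with
  | Sum.inl q => (q, i0)
  | Sum.inr (Sum.inl q) => (Sum.inl q.1, q.2.1)
  | Sum.inr (Sum.inr q) => (Sum.inr q.1, q.2.1)

theorem EEf_bij (n : Type) : Function.Bijective (EEf i0 n) := by
  constructor
  · rintro (p | (⟨i, s⟩ | ⟨i, s⟩)) (q | (⟨j, t⟩ | ⟨j, t⟩)) h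
    · exact congrArg Sum.inl (congrArg Prod.fst h)
    · exact absurd (congrArg Prod.snd h).symm t.2
    · exact absurd (congrArg Prod.snd h).symm t.2
    · exact absurd (congrArg Prod.snd h) s.2
    · have h1 : i = j := Sum.inl.inj (congrArg Prod.fst h)
      have h2 : s = t := Subtype.ext (congrArg Prod.snd h)
      rw [h1, h2]
    · exact absurd (congrArg Prod.fst h) Sum.inl_ne_inr
    · exact absurd (congrArg Prod.snd h) s.2
    · exact absurd (congrArg Prod.fst h) Sum.inr_ne_inl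
    · have h1 : i = j := Sum.inr.inj (congrArg Prod.fst h)
      have h2 : s = t := Subtype.ext (congrArg Prod.snd h)
      rw [h1, h2]
  · rintro ⟨p, a⟩
    by_cases ha : a = i0
    · exact ⟨Sum.inl p, by rw [ha]; rfl⟩
    · rcases p with i | i
      · exact ⟨Sum.inr (Sum.inl (i, ⟨a, ha⟩)), rfl⟩
      · exact ⟨Sum.inr (Sum.inr (i, ⟨a, ha⟩)), rfl⟩

theorem cm_UF_ex (ψ μ χ : Matrix m m A) :
    (cm (UF (ex i0 ψ) (ex i0 μ) (ex i0 χ))).submatrix (EEf i0 m) (EEf i0 m) =
      fromBlocks (UF ψ μ χ) 0 0 (hyp (m × {a : Fin k // a ≠ i0}) A) := by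
  have h12 : ∀ (i j : m) (a b : Fin k), (1 + (ex i0 μ)ᴴ : Matrix m m (Matrix (Fin k) (Fin k) A)) i j a b =
      (if i = j ∧ a = b then (1 : A) else 0) + (if a = i0 ∧ b = i0 then star (μ j i) else 0) := by
    intro i j a b
    rw [← ex_conj, Matrix.add_apply, Matrix.add_apply, Matrix.one_apply]
    congr 1
    by_cases hij : i = j
    · rw [if_pos hij, Matrix.one_apply]
      by_cases hab : a = b
      · rw [if_pos hab, if_pos ⟨hij, hab⟩]
      · rw [if_neg hab, if_neg (fun h => hab h.2)]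
    · rw [if_neg hij, if_neg (fun h => hij h.1)]
      rfl
  ext p q
  rcases p with (i | i) | (⟨i, s⟩ | ⟨i, s⟩) <;> rcases q with (j | j) | (⟨j, t⟩ | ⟨j, t⟩)
  · change (if i0 = i0 ∧ i0 = i0 then ψ i j else 0) = ψ i j
    simp
  · change (1 + (ex i0 μ)ᴴ : Matrix m m (Matrix (Fin k) (Fin k) A)) i j i0 i0 = (1 + μᴴ : Matrix m m A) i j
    rw [h12, Matrix.add_apply, Matrix.one_apply]
    simp
  · change (if i0 = i0 ∧ t.1 = i0 then ψ i j else 0) = 0
    simp [t.2]
  · change (1 + (ex i0 μ)ᴴ : Matrix m m (Matrix (Fin k) (Fin k) A)) i j i0 t.1 = 0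
    rw [h12]
    simp [t.2, Ne.symm t.2]
  · rfl
  · change (if i0 = i0 ∧ i0 = i0 then χ i j else 0) = χ i j
    simp
  · rfl
  · change (if i0 = i0 ∧ t.1 = i0 then χ i j else 0) = 0
    simp [t.2]
  · change (if s.1 = i0 ∧ i0 = i0 then ψ i j else 0) = 0
    simp [s.2]
  · change (1 + (ex i0 μ)ᴴ : Matrix m m (Matrix (Fin k) (Fin k) A)) i j s.1 i0 = 0
    rw [h12]
    simp [s.2]
  · change (if s.1 = i0 ∧ t.1 = i0 then ψ i j else 0) = 0
    simp [s.2]
  · change (1 + (ex i0 μ)ᴴ : Matrix m m (Matrix (Fin k) (Fin k) A)) i j s.1 t.1 =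
      (1 : Matrix (m × {a : Fin k // a ≠ i0}) (m × {a : Fin k // a ≠ i0}) A) (i, s) (j, t)
    rw [h12, Matrix.one_apply]
    simp [s.2, Prod.ext_iff, Subtype.ext_iff]
  · rfl
  · change (if s.1 = i0 ∧ i0 = i0 then χ i j else 0) = 0
    simp [s.2]
  · rfl
  · change (if s.1 = i0 ∧ t.1 = i0 then χ i j else 0) = 0
    simp [s.2]

theorem sh_destab {ε : ℤˣ} {Ψ : Matrix m m A} (h : StablyHyperbolic ε (fromBlocks Ψ 0 0 (hyp n A))) :
    StablyHyperbolic ε Ψ := by
  obtain ⟨r, l, hi⟩ := h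
  refine ⟨Fintype.card n + r, l, ?_⟩
  refine Iso.trans (Iso.sum_left (Iso.trans (Iso.symm (hyp_sum ε (Fintype.card n) r))
    (Iso.sum_right (iso_hyp ε (Fintype.equivFin n).symm) _)) Ψ) ?_
  refine Iso.trans (iso_reindex ε (Equiv.sumAssoc m (n ⊕ n) (Fin r ⊕ Fin r)) _) ?_
  have h2 : (fromBlocks Ψ 0 0 (fromBlocks (hyp n A) 0 0 (hyp (Fin r) A))).submatrix
      (Equiv.sumAssoc m (n ⊕ n) (Fin r ⊕ Fin r)) (Equiv.sumAssoc m (n ⊕ n) (Fin r ⊕ Fin r)) =
      fromBlocks (fromBlocks Ψ 0 0 (hyp n A)) 0 0 (hyp (Fin r) A) := by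
    ext i k
    rcases i with (i | i) | i <;> rcases k with (k | k) | k <;> rfl
  rw [h2]
  exact hi

theorem sh_cm {ε : ℤˣ} {Ψ : Matrix m m (Matrix (Fin k) (Fin k) A)} (h : StablyHyperbolic ε Ψ) :
    StablyHyperbolic ε (cm Ψ) := by
  obtain ⟨r, l, hi⟩ := h
  refine ⟨r * k, l * k, ?_⟩
  refine Iso.trans ?_ (Iso.trans (Iso.trans (iso_cm hi) (iso_cm_hyp ε)) (iso_hyp ε finProdFinEquiv))
  refine Iso.trans ?_ (Iso.symm (iso_cm_blocks ε _ _ _ _))
  exact Iso.sum_left (Iso.symm (Iso.trans (iso_cm_hyp ε) (iso_hyp ε finProdFinEquiv))) _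

/-- from the matrices over `A` to `A` -/
theorem vanA_of_cm (hk : 0 < k) {X B Y : A → Prop} (hX : X 0) (hB : B 0) (hY : Y 0)
    (hV : VanA (Matrix (Fin k) (Fin k) A) (fun M => ∀ a b, X (M a b)) (fun M => ∀ a b, B (M a b))
      (fun M => ∀ a b, Y (M a b))) : VanA A X B Y := by
  intro ε n ψ μ χ h1 h2 h3 hN
  have hs : ∀ {X : A → Prop} (_ : X 0) (M : Matrix (Fin n) (Fin n) A), (∀ i j, X (M i j)) →
      ∀ i j a b, X (ex (⟨0, hk⟩ : Fin k) M i j a b) := by
    intro X h0 M hM i j a b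
    unfold ex
    split_ifs
    · exact hM i j
    · exact h0
  have e1 : nu ε (ex (⟨0, hk⟩ : Fin k) ψ + (ε : ℤ) • (ex (⟨0, hk⟩ : Fin k) ψ)ᴴ) (ex ⟨0, hk⟩ μ)
      (ex ⟨0, hk⟩ χ + (ε : ℤ) • (ex ⟨0, hk⟩ χ)ᴴ) =
      ex ⟨0, hk⟩ (nu ε (ψ + (ε : ℤ) • ψᴴ) μ (χ + (ε : ℤ) • χᴴ)) := by
    unfold nu
    rw [ex_blocks, ex_smul, ex_add, ex_add, ex_smul, ex_smul, ex_conj, ex_conj, ex_conj]
  have h4 := hV ε n (ex ⟨0, hk⟩ ψ) (ex ⟨0, hk⟩ μ) (ex ⟨0, hk⟩ χ) (hs hX ψ h1) (hs hB μ h2)
    (hs hY χ h3) (by rw [e1]; exact ex_nil _ hN)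
  have h5 := sh_cm h4
  apply sh_destab (n := Fin n × {a : Fin k // a ≠ ⟨0, hk⟩})
  rw [← cm_UF_ex]
  refine sh_of_iso ?_ h5
  exact Iso.symm (iso_reindex ε (Equiv.ofBijective _ (EEf_bij (⟨0, hk⟩ : Fin k) (Fin n))) _)

end Comp

/-! ### Group rings of matrix rings -/

section GRM

variable {R R' G : Type} [Ring R] [StarRing R] [Ring R'] [StarRing R'] [Group G] {k : ℕ}

theorem coeff_single_mul (r : R) (x : MonoidAlgebra R G) (g : G) :
    (MonoidAlgebra.single 1 r * x).coeff g = r * x.coeff g := by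
  induction x using MonoidAlgebra.induction_linear with
  | zero => simp
  | add x y hx hy => rw [mul_add, MonoidAlgebra.coeff_add, MonoidAlgebra.coeff_add, Finsupp.add_apply,
      Finsupp.add_apply, hx, hy, mul_add]
  | single h s =>
    rw [MonoidAlgebra.single_mul_single, one_mul, MonoidAlgebra.coeff_single,
      MonoidAlgebra.coeff_single]
    classical
    rw [Finsupp.single_apply, Finsupp.single_apply]
    split_ifs
    · rfl
    · rw [mul_zero]

theorem coeff_mul_single (r : R) (x : MonoidAlgebra R G) (g : G) :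
    (x * MonoidAlgebra.single 1 r).coeff g = x.coeff g * r := by
  induction x using MonoidAlgebra.induction_linear with
  | zero => simp
  | add x y hx hy => rw [add_mul, MonoidAlgebra.coeff_add, MonoidAlgebra.coeff_add, Finsupp.add_apply,
      Finsupp.add_apply, hx, hy, add_mul]
  | single h s =>
    rw [MonoidAlgebra.single_mul_single, mul_one, MonoidAlgebra.coeff_single,
      MonoidAlgebra.coeff_single]
    classical
    rw [Finsupp.single_apply, Finsupp.single_apply]
    split_ifs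
    · rfl
    · rw [zero_mul]

/-- the coefficient of a matrix over `R[G]` at `g` -/
def co (g : G) (N : Matrix (Fin k) (Fin k) (MonoidAlgebra R G)) : Matrix (Fin k) (Fin k) R :=
  fun a b => (N a b).coeff g

/-- constant matrices -/
noncomputable def cs (G : Type) [Group G] (d : Matrix (Fin k) (Fin k) R) :
    Matrix (Fin k) (Fin k) (MonoidAlgebra R G) := d.map (MonoidAlgebra.single 1)

theorem co_ext {M N : Matrix (Fin k) (Fin k) (MonoidAlgebra R G)} (h : ∀ g, co g M = co g N) :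
    M = N := by
  ext a b g
  exact congrFun (congrFun (h g) a) b

theorem coeff_sum' {ι : Type} (s : Finset ι) (f : ι → MonoidAlgebra R G) (g : G) :
    (∑ i ∈ s, f i).coeff g = ∑ i ∈ s, (f i).coeff g := by
  classical
  induction s using Finset.induction_on with
  | empty => simp
  | insert a s ha ih => rw [Finset.sum_insert ha, Finset.sum_insert ha, MonoidAlgebra.coeff_add,
      Finsupp.add_apply, ih]

theorem co_cs_mul (g : G) (d : Matrix (Fin k) (Fin k) R)
    (N : Matrix (Fin k) (Fin k) (MonoidAlgebra R G)) : co g (cs G d * N) = d * co g N := by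
  ext a b
  change ((cs G d * N) a b).coeff g = _
  rw [Matrix.mul_apply, Matrix.mul_apply, coeff_sum']
  exact Finset.sum_congr rfl fun x _ => coeff_single_mul _ _ _

theorem co_mul_cs (g : G) (d : Matrix (Fin k) (Fin k) R)
    (N : Matrix (Fin k) (Fin k) (MonoidAlgebra R G)) : co g (N * cs G d) = co g N * d := by
  ext a b
  change ((N * cs G d) a b).coeff g = _
  rw [Matrix.mul_apply, Matrix.mul_apply, coeff_sum']
  exact Finset.sum_congr rfl fun x _ => coeff_mul_single _ _ _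

theorem cs_apply (d : Matrix (Fin k) (Fin k) R) (a b : Fin k) :
    cs G d a b = (MonoidAlgebra.single 1 (d a b) : MonoidAlgebra R G) := rfl

theorem co_apply (g : G) (N : Matrix (Fin k) (Fin k) (MonoidAlgebra R G)) (a b : Fin k) :
    co g N a b = (N a b).coeff g := rfl

theorem cs_mul (d e : Matrix (Fin k) (Fin k) R) : cs G d * cs G e = cs G (d * e) := by
  apply co_ext
  intro g
  rw [co_cs_mul]
  ext a b
  classical
  simp only [Matrix.mul_apply, co_apply, cs_apply, MonoidAlgebra.coeff_single, Finsupp.single_apply]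
  split_ifs
  · rfl
  · simp

theorem cs_one : cs G (1 : Matrix (Fin k) (Fin k) R) = 1 := by
  ext1 a b
  change MonoidAlgebra.single 1 ((1 : Matrix (Fin k) (Fin k) R) a b) = _
  rw [Matrix.one_apply, Matrix.one_apply]
  split_ifs
  · rfl
  · exact MonoidAlgebra.single_zero _

theorem cs_star (d : Matrix (Fin k) (Fin k) R) : star (cs G d) = cs G (star d) := by
  ext1 a b
  change star (cs G d b a) = _
  rw [cs_apply, cs_apply, star_single, inv_one]
  rfl

theorem cs_smul (z : ℤ) (d : Matrix (Fin k) (Fin k) R) : cs G (z • d) = z • cs G d := by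
  ext a b g
  change (MonoidAlgebra.single 1 (z • d a b)).coeff g = (z • (MonoidAlgebra.single 1 (d a b))).coeff g
  classical
  rw [MonoidAlgebra.coeff_smul, Finsupp.smul_apply]
  simp only [MonoidAlgebra.coeff_single, Finsupp.single_apply]
  split_ifs
  · rfl
  · rw [smul_zero]

variable (Θ : R' ≃+* Matrix (Fin k) (Fin k) R)

theorem cs_comm (d : Matrix (Fin k) (Fin k) R) (g : G) :
    Commute (cs G d) (Matrix.scalar (Fin k) (MonoidAlgebra.single g (1 : R))) := by
  rw [commute_iff_eq]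
  ext1 a b
  rw [Matrix.scalar_apply, Matrix.mul_diagonal, Matrix.diagonal_mul, cs_apply,
    MonoidAlgebra.single_mul_single, MonoidAlgebra.single_mul_single, one_mul, mul_one, one_mul,
    mul_one]

/-- the homomorphism `R'[G] → M_k(R[G])` -/
noncomputable def tau0 (G : Type) [Group G] :
    MonoidAlgebra R' G →+* Matrix (Fin k) (Fin k) (MonoidAlgebra R G) :=
  MonoidAlgebra.liftNCRingHom
    (((MonoidAlgebra.singleOneRingHom (R := R) (M := G)).mapMatrix).comp
      (Θ : R' →+* Matrix (Fin k) (Fin k) R))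
    (((Matrix.scalar (Fin k)).toMonoidHom).comp (MonoidAlgebra.of R G)) (fun r g => cs_comm (Θ r) g)

theorem tau0_single (g : G) (r : R') : tau0 Θ G (MonoidAlgebra.single g r) =
    cs G (Θ r) * Matrix.scalar (Fin k) (MonoidAlgebra.single g (1 : R)) :=
  MonoidAlgebra.liftNC_single _ _ _ _

theorem co_add (g : G) (M N : Matrix (Fin k) (Fin k) (MonoidAlgebra R G)) :
    co g (M + N) = co g M + co g N := rfl

theorem tau0_co (x : MonoidAlgebra R' G) (g : G) : co g (tau0 Θ G x) = Θ (x.coeff g) := by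
  induction x using MonoidAlgebra.induction_linear with
  | zero =>
    rw [map_zero]
    change _ = Θ 0
    rw [map_zero]
    rfl
  | add x y hx hy => rw [map_add, co_add, hx, hy, MonoidAlgebra.coeff_add, Finsupp.add_apply, map_add]
  | single h s =>
    rw [tau0_single]
    ext a b
    classical
    rw [co_apply, Matrix.scalar_apply, Matrix.mul_diagonal, cs_apply,
      MonoidAlgebra.single_mul_single, one_mul, mul_one, MonoidAlgebra.coeff_single,
      MonoidAlgebra.coeff_single, Finsupp.single_apply, Finsupp.single_apply]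
    split_ifs
    · rfl
    · rw [map_zero]
      rfl

theorem tau0_bij : Function.Bijective (tau0 Θ G) := by
  constructor
  · intro x y hxy
    ext g
    apply Θ.injective
    rw [← tau0_co, ← tau0_co, hxy]
  · intro M
    classical
    refine ⟨.ofCoeff (Finsupp.onFinset (Finset.univ.biUnion fun a => Finset.univ.biUnion fun b =>
      (M a b).coeff.support) (fun g => Θ.symm (co g M)) fun g hg => ?_), ?_⟩
    · by_contra h0
      apply hg
      have h1 : co g M = 0 := by
        ext a b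
        by_contra h2
        apply h0
        rw [Finset.mem_biUnion]
        refine ⟨a, Finset.mem_univ _, ?_⟩
        rw [Finset.mem_biUnion]
        exact ⟨b, Finset.mem_univ _, Finsupp.mem_support_iff.2 h2⟩
      rw [h1, map_zero]
    · apply co_ext
      intro g
      rw [tau0_co]
      change Θ (Θ.symm (co g M)) = _
      rw [RingEquiv.apply_symm_apply]

/-- the isomorphism `R'[G] = M_k(R[G])` -/
noncomputable def tau (G : Type) [Group G] :
    MonoidAlgebra R' G ≃+* Matrix (Fin k) (Fin k) (MonoidAlgebra R G) :=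
  RingEquiv.ofBijective (tau0 Θ G) (tau0_bij Θ)

theorem tau_co (x : MonoidAlgebra R' G) (g : G) : co g (tau Θ G x) = Θ (x.coeff g) := tau0_co Θ x g

theorem tau_symm_coeff (M : Matrix (Fin k) (Fin k) (MonoidAlgebra R G)) (g : G) :
    ((tau Θ G).symm M).coeff g = Θ.symm (co g M) := by
  apply Θ.injective
  rw [← tau_co, RingEquiv.apply_symm_apply, RingEquiv.apply_symm_apply]

variable {Θ} {d di : Matrix (Fin k) (Fin k) R} {δ : ℤˣ}

theorem co_star (g : G) (M : Matrix (Fin k) (Fin k) (MonoidAlgebra R G)) :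
    co g (star M) = star (co g⁻¹ M) := by
  ext a b
  change (star (M b a)).coeff g = star ((M b a).coeff g⁻¹)
  exact star_coeff _ _

theorem tw_tau (h : Tw Θ d di δ) (G : Type) [Group G] : Tw (tau Θ G) (cs G d) (cs G di) δ where
  c1 := by rw [cs_mul, h.c1, cs_one]
  c2 := by rw [cs_mul, h.c2, cs_one]
  cs := by rw [cs_star, h.cs, cs_smul]
  ts := fun x => by
    apply co_ext
    intro g
    rw [co_mul_cs, co_cs_mul, tau_co, co_star, tau_co, star_coeff, h.ts]

theorem cardInv_gr [InvariantBasisNumber R] : CardInv (MonoidAlgebra R G) :=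
  fun _ _ _ _ _ _ u v h1 h2 => card_of_inv' (G := G) u v h1 h2

theorem supp_co {X : Set G} {M : Matrix (Fin k) (Fin k) (MonoidAlgebra R G)} :
    (∀ a b g, (M a b).coeff g ≠ 0 → g ∈ X) ↔ ∀ g, co g M ≠ 0 → g ∈ X := by
  constructor
  · intro h g hg
    by_contra h0
    apply hg
    ext a b
    by_contra h1
    exact h0 (h a b g h1)
  · intro h a b g hg
    exact h g fun h0 => hg (congrFun (congrFun h0 a) b)

/-- **(M)** Matrix rings: `R'` is isomorphic to `M_k(R)`, the involution is `x ↦ d⁻¹ x^* d`, `d^* = ± d`. -/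
theorem van_mor [InvariantBasisNumber R] (hk : 0 < k) (h : Tw Θ d di δ) (X B Y : Set G)
    (hV : Van R G X B Y) : Van R' G X B Y := by
  rw [van_iff] at hV ⊢
  refine (tw_tau h G).vanA_tw ?_ ?_ ?_ (vanA_cm hk cardInv_gr hV)
  · intro x hx
    refine supp_co.2 fun g hg => hx g fun h0 => hg ?_
    rw [co_cs_mul, tau_co, h0, map_zero, mul_zero]
  · intro x hx
    refine supp_co.2 fun g hg => hx g fun h0 => hg ?_
    rw [tau_co, h0, map_zero]
  · intro x hx
    refine supp_co.2 fun g hg => hx g fun h0 => hg ?_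
    have h1 : ∀ (z : ℤ) (N : Matrix (Fin k) (Fin k) (MonoidAlgebra R G)), co g N = 0 →
        co g (z • N) = 0 := by
      intro z N hN
      ext a b
      change (z • N a b).coeff g = 0
      have h2 : (N a b).coeff g = 0 := congrFun (congrFun hN a) b
      rw [MonoidAlgebra.coeff_smul, Finsupp.smul_apply, h2, smul_zero]
    apply h1
    rw [co_mul_cs, tau_co, h0, map_zero, zero_mul]

/-- **(M')** The converse: the vanishing theorem for `M_k(R)` gives the vanishing theorem for `R`. -/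
theorem van_mor' (hk : 0 < k) (h : Tw Θ d di δ) (X B Y : Set G)
    (hV : Van R' G X B Y) : Van R G X B Y := by
  rw [van_iff] at hV ⊢
  have hz : ∀ X : Set G, ∀ g : G, (0 : MonoidAlgebra R G).coeff g ≠ 0 → g ∈ X :=
    fun X g hg => absurd rfl hg
  refine vanA_of_cm hk (hz X) (hz B) (hz Y) ?_
  refine (tw_tau h G).symm.vanA_tw ?_ ?_ ?_ hV
  · intro M hM g hg
    refine supp_co.1 hM g fun h0 => hg ?_
    rw [← map_mul, tau_symm_coeff, co_cs_mul, h0, mul_zero, map_zero]
  · intro M hM g hg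
    refine supp_co.1 hM g fun h0 => hg ?_
    rw [tau_symm_coeff, h0, map_zero]
  · intro M hM g hg
    refine supp_co.1 hM g fun h0 => hg ?_
    rw [MonoidAlgebra.coeff_smul, Finsupp.smul_apply, ← map_mul, tau_symm_coeff, co_mul_cs, h0,
      zero_mul, map_zero, smul_zero]

end GRM

end Pool.Agent.Lib.MP8a3537.CR
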