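import Pool.Agent.Lib.MP_8a3537_gt.CR.Basic

/-!
# Coefficient rings (MP_8a3537_gt, folder CR): locally nilpotent ideals (helper73)
-/

set_option autoImplicit false
set_option linter.unusedSectionVars false

namespace Pool.Agent.Lib.MP8a3537.CR

open Matrix Pool.Agent.Lib.MP8a3537.UV

/-- The kernel of `π` is locally nilpotent: every finite subset is contained in a nilpotent two-sided
ideal `J` with `J^* = J`. -/
def LocNil {R R' : Type*} [Ring R] [StarRing R] [Ring R'] (π : R →+* R') : Prop :=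
  ∀ F : Finset R, (∀ x ∈ F, π x = 0) → ∃ (J : AddSubgroup R) (n : ℕ), (∀ x ∈ F, x ∈ J) ∧
    (∀ x ∈ J, star x ∈ J ∧ ∀ a, a * x ∈ J ∧ x * a ∈ J) ∧
    ∀ l : List R, l.length = n → (∀ x ∈ l, x ∈ J) → l.prod = 0

/-- A chain `F 0 ⊇ F 1 ⊇ ...` of two-sided ideals with `F k F l ⊆ F (k + l + 1)` and `F n = 0`. -/
structure NC (A : Type*) [Ring A] [StarRing A] (F : ℕ → AddSubgroup A) (n : ℕ) : Prop where
  left : ∀ k a x, x ∈ F k → a * x ∈ F k
  right : ∀ k a x, x ∈ F k → x * a ∈ F k
  st : ∀ k x, x ∈ F k → star x ∈ F k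
  mul : ∀ k l x y, x ∈ F k → y ∈ F l → x * y ∈ F (k + l + 1)
  anti : ∀ k x, x ∈ F (k + 1) → x ∈ F k
  nil : ∀ x, x ∈ F n → x = 0

section Chain

variable {R : Type*} [Ring R] [StarRing R]

/-- The chain of the powers of a nilpotent ideal. -/
theorem exists_chain (J : AddSubgroup R) (n : ℕ)
    (hJ : ∀ x ∈ J, star x ∈ J ∧ ∀ a, a * x ∈ J ∧ x * a ∈ J)
    (hn : ∀ l : List R, l.length = n → (∀ x ∈ l, x ∈ J) → l.prod = 0) :
    ∃ F : ℕ → AddSubgroup R, NC R F n ∧ ∀ x ∈ J, x ∈ F 0 := by
  let P : ℕ → Set R := fun k => {x | ∃ l : List R, k + 1 ≤ l.length ∧ (∀ y ∈ l, y ∈ J) ∧ l.prod = x}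
  refine ⟨fun k => AddSubgroup.closure (P k), ⟨?_, ?_, ?_, ?_, ?_, ?_⟩, ?_⟩
  · intro k a x hx
    induction hx using AddSubgroup.closure_induction with
    | mem x hx =>
      obtain ⟨l, hl, hlJ, rfl⟩ := hx
      rcases l with _ | ⟨y, l⟩
      · simp at hl
      · refine AddSubgroup.subset_closure ⟨(a * y) :: l, by simpa using hl, ?_, ?_⟩
        · intro z hz
          rcases List.mem_cons.1 hz with rfl | hz
          · exact ((hJ y (hlJ y (by simp))).2 a).1
          · exact hlJ z (by simp [hz])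
        · simp [mul_assoc]
    | zero => simp
    | add x y _ _ hx hy => rw [mul_add]; exact AddSubgroup.add_mem _ hx hy
    | neg x _ hx => rw [mul_neg]; exact AddSubgroup.neg_mem _ hx
  · intro k a x hx
    induction hx using AddSubgroup.closure_induction with
    | mem x hx =>
      obtain ⟨l, hl, hlJ, rfl⟩ := hx
      rcases List.eq_nil_or_concat l with rfl | ⟨l, y, rfl⟩
      · simp at hl
      · refine AddSubgroup.subset_closure ⟨l ++ [y * a], by simpa using hl, ?_, ?_⟩
        · intro z hz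
          rcases List.mem_append.1 hz with hz | hz
          · exact hlJ z (by simp [hz])
          · rw [List.mem_singleton] at hz
            rw [hz]
            exact ((hJ y (hlJ y (by simp))).2 a).2
        · simp [mul_assoc]
    | zero => simp
    | add x y _ _ hx hy => rw [add_mul]; exact AddSubgroup.add_mem _ hx hy
    | neg x _ hx => rw [neg_mul]; exact AddSubgroup.neg_mem _ hx
  · intro k x hx
    induction hx using AddSubgroup.closure_induction with
    | mem x hx =>
      obtain ⟨l, hl, hlJ, rfl⟩ := hx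
      refine AddSubgroup.subset_closure ⟨(l.map star).reverse, by simpa using hl, ?_, ?_⟩
      · intro z hz
        rw [List.mem_reverse, List.mem_map] at hz
        obtain ⟨y, hy, rfl⟩ := hz
        exact (hJ y (hlJ y hy)).1
      · clear hl hlJ
        induction l with
        | nil => simp
        | cons y l ih => simp [ih]
    | zero => simp
    | add x y _ _ hx hy => rw [star_add]; exact AddSubgroup.add_mem _ hx hy
    | neg x _ hx => rw [star_neg]; exact AddSubgroup.neg_mem _ hx
  · intro k l x y hx hy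
    induction hx using AddSubgroup.closure_induction with
    | mem x hx =>
      obtain ⟨p, hp, hpJ, rfl⟩ := hx
      induction hy using AddSubgroup.closure_induction with
      | mem y hy =>
        obtain ⟨q, hq, hqJ, rfl⟩ := hy
        refine AddSubgroup.subset_closure ⟨p ++ q, ?_, ?_, by simp⟩
        · rw [List.length_append]
          omega
        · intro z hz
          rcases List.mem_append.1 hz with hz | hz
          · exact hpJ z hz
          · exact hqJ z hz
      | zero => rw [mul_zero]; exact AddSubgroup.zero_mem _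
      | add x y _ _ hx hy => rw [mul_add]; exact AddSubgroup.add_mem _ hx hy
      | neg x _ hx => rw [mul_neg]; exact AddSubgroup.neg_mem _ hx
    | zero => rw [zero_mul]; exact AddSubgroup.zero_mem _
    | add x y _ _ hx hy => rw [add_mul]; exact AddSubgroup.add_mem _ hx hy
    | neg x _ hx => rw [neg_mul]; exact AddSubgroup.neg_mem _ hx
  · intro k x hx
    refine AddSubgroup.closure_mono ?_ hx
    rintro y ⟨l, hl, hlJ, rfl⟩
    exact ⟨l, by omega, hlJ, rfl⟩
  · intro x hx
    have h1 : P n ⊆ ((⊥ : AddSubgroup R) : Set R) := by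
      rintro y ⟨l, hl, hlJ, rfl⟩
      have h2 : l.prod = 0 := by
        rw [← List.take_append_drop n l, List.prod_append,
          hn (l.take n) (by rw [List.length_take]; omega) fun z hz => hlJ z (List.mem_of_mem_take hz),
          zero_mul]
      rw [h2]
      exact AddSubgroup.zero_mem _
    have h3 := (AddSubgroup.closure_le _).2 h1 hx
    simpa using h3
  · intro x hx
    exact AddSubgroup.subset_closure ⟨[x], by simp, by simpa using hx, by simp⟩

end Chain

section Hensel

variable {A : Type*} [Ring A] [StarRing A] {F : ℕ → AddSubgroup A} {n : ℕ}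

/-- All entries are in `F k`. -/
def In (F : ℕ → AddSubgroup A) (k : ℕ) {m l : Type*} (M : Matrix m l A) : Prop :=
  ∀ i j, M i j ∈ F k

theorem In.add {k : ℕ} {m l : Type*} {M N : Matrix m l A} (h : In F k M) (h' : In F k N) :
    In F k (M + N) := fun i j => AddSubgroup.add_mem _ (h i j) (h' i j)

theorem In.neg {k : ℕ} {m l : Type*} {M : Matrix m l A} (h : In F k M) : In F k (-M) :=
  fun i j => AddSubgroup.neg_mem _ (h i j)

theorem In.mul (hF : NC A F n) {k l : ℕ} {m o p : Type*} [Fintype o] {M : Matrix m o A}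
    {N : Matrix o p A} (h : In F k M) (h' : In F l N) : In F (k + l + 1) (M * N) := by
  intro i j
  rw [Matrix.mul_apply]
  exact AddSubgroup.sum_mem _ fun x _ => hF.mul k l _ _ (h i x) (h' x j)

theorem In.left (hF : NC A F n) {k : ℕ} {m o p : Type*} [Fintype o] (M : Matrix m o A)
    {N : Matrix o p A} (h' : In F k N) : In F k (M * N) := by
  intro i j
  rw [Matrix.mul_apply]
  exact AddSubgroup.sum_mem _ fun x _ => hF.left k _ _ (h' x j)

theorem In.right (hF : NC A F n) {k : ℕ} {m o p : Type*} [Fintype o] {M : Matrix m o A}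
    (h : In F k M) (N : Matrix o p A) : In F k (M * N) := by
  intro i j
  rw [Matrix.mul_apply]
  exact AddSubgroup.sum_mem _ fun x _ => hF.right k _ _ (h i x)

theorem In.conj (hF : NC A F n) {k : ℕ} {m l : Type*} {M : Matrix m l A} (h : In F k M) :
    In F k Mᴴ := fun i j => hF.st k _ (h j i)

theorem In.anti (hF : NC A F n) {k l : ℕ} (hkl : k ≤ l) {m o : Type*} {M : Matrix m o A}
    (h : In F l M) : In F k M := by
  induction hkl with
  | refl => exact h
  | step _ ih => exact ih fun i j => hF.anti _ _ (h i j)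

theorem In.zero_of (hF : NC A F n) {k : ℕ} (hk : n ≤ k) {m o : Type*} {M : Matrix m o A}
    (h : In F k M) : M = 0 := Matrix.ext fun i j => hF.nil _ (In.anti hF hk h i j)

variable {κ : Type*} [Fintype κ] [DecidableEq κ]

theorem In.pow (hF : NC A F n) {k : ℕ} {M : Matrix κ κ A} (h : In F k M) (j : ℕ) :
    In F (k + j) (M ^ (j + 1)) := by
  induction j with
  | zero => simpa using h
  | succ j ih =>
    rw [pow_succ]
    refine In.anti hF ?_ (In.mul hF ih h)
    omega

theorem In.nilp (hF : NC A F n) {k : ℕ} {M : Matrix κ κ A} (h : In F k M) : IsNilpotent M :=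
  ⟨n + 1, In.zero_of hF (by omega) (In.pow hF h n)⟩

/-- **Hensel**: a form which is hyperbolic modulo `F 0` is isometric to the hyperbolic form. -/
theorem hensel (hF : NC A F n) (ε : ℤˣ) {m : Type*} [Fintype m] [DecidableEq m] :
    ∀ (r k : ℕ), n ≤ k + r → ∀ E : Matrix (m ⊕ m) (m ⊕ m) A, In F k E →
      Isometric ε (hyp m A + E) (hyp m A) := by
  intro r
  induction r with
  | zero =>
    intro k hk E hE
    rw [In.zero_of hF (by omega) hE, add_zero]
    exact Iso.refl ε _
  | succ r ih =>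
    intro k hk E hE
    set h : Matrix (m ⊕ m) (m ⊕ m) A := hyp m A with hh
    -- `J = h + ε h^*` and its inverse
    set J : Matrix (m ⊕ m) (m ⊕ m) A := h + (ε : ℤ) • hᴴ with hJ
    have hJJ : J * ((ε : ℤ) • J) = 1 := by
      rw [hJ, hh, hyp, fromBlocks_conjTranspose, fromBlocks_smul, fromBlocks_add, Matrix.mul_smul,
        fromBlocks_multiply, fromBlocks_smul]
      simp only [Matrix.mul_zero, Matrix.zero_mul, Matrix.mul_one, Matrix.one_mul, zero_add, add_zero,
        conjTranspose_zero, conjTranspose_one, smul_zero, Matrix.smul_mul, Matrix.mul_smul, smul_smul,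
        eps_sq, one_smul]
      rw [fromBlocks_one]
    obtain ⟨Y, hY⟩ : ∃ Y : Matrix (m ⊕ m) (m ⊕ m) A, Y = -(((ε : ℤ) • J) * E) := ⟨_, rfl⟩
    have hYk : In F k Y := by
      rw [hY]
      exact (In.left hF _ hE).neg
    have hJY : J * Y = -E := by rw [hY, Matrix.mul_neg, ← Matrix.mul_assoc, hJJ, Matrix.one_mul]
    obtain ⟨V, hV⟩ := (In.nilp hF hYk).isUnit_one_add
    -- the new error
    have hstep : Isometric ε (h + E) (h + (Yᴴ * E + E * Y + Yᴴ * h * Y + Yᴴ * E * Y)) := by
      refine ⟨V, ↑V⁻¹, -(Yᴴ * h), V.mul_inv, V.inv_mul, ?_⟩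
      rw [hV, conjTranspose_add, conjTranspose_one, conjTranspose_neg, conjTranspose_mul,
        conjTranspose_conjTranspose]
      have h1 : h * Y + (ε : ℤ) • (hᴴ * Y) = -E := by
        rw [← Matrix.smul_mul, ← Matrix.add_mul, ← hJ, hJY]
      have h2 : (ε : ℤ) • (hᴴ * Y) = -E - h * Y := by rw [← h1]; abel
      rw [smul_neg, h2]
      simp only [Matrix.add_mul, Matrix.mul_add, Matrix.one_mul, Matrix.mul_one, Matrix.mul_assoc]
      abel
    refine Iso.trans hstep (ih (k + 1) (by omega) _ ?_)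
    have hkk : k + 1 ≤ k + k + 1 := by omega
    refine In.add (In.add (In.add ?_ ?_) ?_) ?_
    · exact In.anti hF hkk (In.mul hF (In.conj hF hYk) hE)
    · exact In.anti hF hkk (In.mul hF hE hYk)
    · exact In.anti hF hkk (In.mul hF (In.right hF (In.conj hF hYk) h) hYk)
    · exact In.anti hF hkk (In.mul hF (In.right hF (In.conj hF hYk) E) hYk)

/-- A matrix which is invertible modulo `F 0` is invertible. -/
theorem unit_lift (hF : NC A F n) {ι κ : Type*} [Fintype ι] [DecidableEq ι] [Fintype κ]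
    [DecidableEq κ] (u : Matrix ι κ A) (v : Matrix κ ι A) (h1 : In F 0 (u * v - 1))
    (h2 : In F 0 (v * u - 1)) : ∃ v' : Matrix κ ι A, u * v' = 1 ∧ v' * u = 1 := by
  obtain ⟨P, hP⟩ := (In.nilp hF h1).isUnit_one_add
  obtain ⟨Q, hQ⟩ := (In.nilp hF h2).isUnit_one_add
  have hP' : (P : Matrix ι ι A) = u * v := by rw [hP]; abel
  have hQ' : (Q : Matrix κ κ A) = v * u := by rw [hQ]; abel
  have e1 : u * (v * (↑P⁻¹ : Matrix ι ι A)) = 1 := by
    rw [← Matrix.mul_assoc, ← hP', P.mul_inv]
  have e2 : ((↑Q⁻¹ : Matrix κ κ A) * v) * u = 1 := by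
    rw [Matrix.mul_assoc, ← hQ', Q.inv_mul]
  refine ⟨v * (↑P⁻¹ : Matrix ι ι A), e1, ?_⟩
  have e3 : v * (↑P⁻¹ : Matrix ι ι A) = (↑Q⁻¹ : Matrix κ κ A) * v := by
    calc v * (↑P⁻¹ : Matrix ι ι A)
        = (((↑Q⁻¹ : Matrix κ κ A) * v) * u) * (v * (↑P⁻¹ : Matrix ι ι A)) := by
          rw [e2, Matrix.one_mul]
      _ = ((↑Q⁻¹ : Matrix κ κ A) * v) * (u * (v * (↑P⁻¹ : Matrix ι ι A))) := by
          rw [Matrix.mul_assoc]
      _ = _ := by rw [e1, Matrix.mul_one]
  rw [e3, e2]

end Hensel

/-! ### Group rings -/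

section GR

variable {R G : Type*} [Ring R] [StarRing R] [Group G] {F : ℕ → AddSubgroup R} {n : ℕ}

/-- All coefficients are in `F k`. -/
def cf (G : Type*) [Group G] (P : AddSubgroup R) : AddSubgroup (MonoidAlgebra R G) where
  carrier := {x | ∀ g, x.coeff g ∈ P}
  add_mem' := by
    intro x y hx hy g
    rw [MonoidAlgebra.coeff_add, Finsupp.add_apply]
    exact AddSubgroup.add_mem _ (hx g) (hy g)
  zero_mem' := by
    intro g
    rw [MonoidAlgebra.coeff_zero, Finsupp.zero_apply]
    exact AddSubgroup.zero_mem _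
  neg_mem' := by
    intro x hx g
    rw [MonoidAlgebra.coeff_neg, Finsupp.neg_apply]
    exact AddSubgroup.neg_mem _ (hx g)

theorem mem_cf {P : AddSubgroup R} {x : MonoidAlgebra R G} : x ∈ cf G P ↔ ∀ g, x.coeff g ∈ P :=
  Iff.rfl

theorem cf_mul {P Q T : Set R} (S : AddSubgroup R) (hST : T ⊆ (S : Set R))
    (h : ∀ x ∈ P, ∀ y ∈ Q, x * y ∈ T) (x y : MonoidAlgebra R G) (hx : ∀ g, x.coeff g ∈ P)
    (hy : ∀ g, y.coeff g ∈ Q) (g : G) : (x * y).coeff g ∈ S := by
  classical
  rw [MonoidAlgebra.coeff_mul]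
  simp only [Finsupp.sum]
  refine AddSubgroup.sum_mem _ fun a _ => AddSubgroup.sum_mem _ fun b _ => ?_
  split_ifs
  · exact hST (h _ (hx a) _ (hy b))
  · exact AddSubgroup.zero_mem _

theorem nc_cf (hF : NC R F n) : NC (MonoidAlgebra R G) (fun k => cf G (F k)) n where
  left k a x hx g := cf_mul (P := Set.univ) (Q := (F k : Set R)) (T := (F k : Set R)) (F k)
    (fun _ h => h) (fun a _ y hy => hF.left k a y hy) a x (fun _ => Set.mem_univ _) hx g
  right k a x hx g := cf_mul (P := (F k : Set R)) (Q := Set.univ) (T := (F k : Set R)) (F k)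
    (fun _ h => h) (fun x hx a _ => hF.right k a x hx) x a hx (fun _ => Set.mem_univ _) g
  st k x hx g := by
    rw [star_coeff]
    exact hF.st k _ (hx _)
  mul k l x y hx hy g := cf_mul (P := (F k : Set R)) (Q := (F l : Set R))
    (T := (F (k + l + 1) : Set R)) (F (k + l + 1)) (fun _ h => h)
    (fun x hx y hy => hF.mul k l x y hx hy) x y hx hy g
  anti k x hx g := hF.anti k _ (hx g)
  nil x hx := by
    ext g
    rw [hF.nil _ (hx g), MonoidAlgebra.coeff_zero, Finsupp.zero_apply]

end GR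

/-! ### The theorem -/

section Main

variable {R R' G : Type} [Ring R] [StarRing R] [Ring R'] [StarRing R'] [Group G]

/-- Stably hyperbolic forms lift along a surjection with locally nilpotent kernel. -/
theorem sh_lift (π : R →+* R') (hπ : ∀ r, π (star r) = star (π r))
    (hsurj : Function.Surjective π) (hnil : LocNil π) {ε : ℤˣ} {ι : Type} [Fintype ι]
    [DecidableEq ι] (Ψ : Matrix ι ι (MonoidAlgebra R G))
    (h : StablyHyperbolic ε (Ψ.map (mr G π))) : StablyHyperbolic ε Ψ := by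
  classical
  obtain ⟨m, k, u', v', Z', huv', hvu', hΦ'⟩ := h
  -- lifts of the matrices
  have hs : Function.Surjective (mr G π) := by
    intro y
    induction y using MonoidAlgebra.induction_linear with
    | zero => exact ⟨0, map_zero _⟩
    | add f g hf hg =>
      obtain ⟨x, rfl⟩ := hf
      obtain ⟨y, rfl⟩ := hg
      exact ⟨x + y, map_add _ _ _⟩
    | single g r =>
      obtain ⟨r, rfl⟩ := hsurj r
      exact ⟨MonoidAlgebra.single g r, mr_single π g r⟩
  have hsM : ∀ {m n : Type} (M' : Matrix m n (MonoidAlgebra R' G)),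
      ∃ M : Matrix m n (MonoidAlgebra R G), M.map (mr G π) = M' := by
    intro m n M'
    choose f hf using hs
    exact ⟨M'.map f, by ext i j; simp [hf]⟩
  obtain ⟨u, rfl⟩ := hsM u'
  obtain ⟨v, rfl⟩ := hsM v'
  obtain ⟨Z, rfl⟩ := hsM Z'
  set Θ : Matrix (ι ⊕ (Fin m ⊕ Fin m)) (ι ⊕ (Fin m ⊕ Fin m)) (MonoidAlgebra R G) :=
    fromBlocks Ψ 0 0 (hyp (Fin m) _) with hΘ
  have hΘ' : fromBlocks (Ψ.map (mr G π)) 0 0 (hyp (Fin m) (MonoidAlgebra R' G)) =
      Θ.map (mr G π) := by
    rw [hΘ, fromBlocks_map, map_hyp]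
    simp
  rw [hΘ'] at hΦ'
  -- the errors
  have e1 : (u * v - 1).map (mr G π) = 0 := by
    rw [Matrix.map_sub _ (fun a b => map_sub (mr G π) a b), Matrix.map_mul, huv',
      Matrix.map_one _ (map_zero _) (map_one _), sub_self]
  have e2 : (v * u - 1).map (mr G π) = 0 := by
    rw [Matrix.map_sub _ (fun a b => map_sub (mr G π) a b), Matrix.map_mul, hvu',
      Matrix.map_one _ (map_zero _) (map_one _), sub_self]
  set E : Matrix (Fin k ⊕ Fin k) (Fin k ⊕ Fin k) (MonoidAlgebra R G) :=
    uᴴ * Θ * u + Z - (ε : ℤ) • Zᴴ - hyp (Fin k) _ with hE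
  have e3 : E.map (mr G π) = 0 := by
    rw [hE, Matrix.map_sub _ (fun a b => map_sub (mr G π) a b),
      Matrix.map_sub _ (fun a b => map_sub (mr G π) a b),
      Matrix.map_add _ (fun a b => map_add (mr G π) a b), Matrix.map_mul, Matrix.map_mul,
      map_conj (mr G π) (mr_star π hπ), map_zsmul', map_conj (mr G π) (mr_star π hπ), map_hyp,
      ← hΦ', sub_self]
  -- a finite set of coefficients
  let cs : MonoidAlgebra R G → Finset R := fun x => x.coeff.support.image fun g => x.coeff g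
  obtain ⟨E1, hE1⟩ : ∃ E1 : Matrix (ι ⊕ (Fin m ⊕ Fin m)) (ι ⊕ (Fin m ⊕ Fin m))
    (MonoidAlgebra R G), E1 = u * v - 1 := ⟨_, rfl⟩
  obtain ⟨E2, hE2⟩ : ∃ E2 : Matrix (Fin k ⊕ Fin k) (Fin k ⊕ Fin k)
    (MonoidAlgebra R G), E2 = v * u - 1 := ⟨_, rfl⟩
  rw [← hE1] at e1
  rw [← hE2] at e2
  let F0 : Finset R := (Finset.univ.biUnion fun i => Finset.univ.biUnion fun j =>
      cs (E1 i j)) ∪ (Finset.univ.biUnion fun i => Finset.univ.biUnion fun j =>
      cs (E2 i j)) ∪ (Finset.univ.biUnion fun i => Finset.univ.biUnion fun j =>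
      cs (E i j))
  have hcs : ∀ x : MonoidAlgebra R G, mr G π x = 0 → ∀ r ∈ cs x, π r = 0 := by
    intro x hx r hr
    obtain ⟨g, -, rfl⟩ := Finset.mem_image.1 hr
    rw [← mr_coeff, hx, MonoidAlgebra.coeff_zero, Finsupp.zero_apply]
  have hent : ∀ {p q : Type} (M : Matrix p q (MonoidAlgebra R G)), M.map (mr G π) = 0 →
      ∀ i j, mr G π (M i j) = 0 := fun M hM i j => congrFun (congrFun hM i) j
  obtain ⟨J, n, hFJ, hJ, hn⟩ := hnil F0 (by
    intro x hx
    simp only [F0, Finset.mem_union, Finset.mem_biUnion, Finset.mem_univ, true_and] at hx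
    rcases hx with (⟨i, j, hx⟩ | ⟨i, j, hx⟩) | ⟨i, j, hx⟩
    · exact hcs _ (hent _ e1 i j) x hx
    · exact hcs _ (hent _ e2 i j) x hx
    · exact hcs _ (hent _ e3 i j) x hx)
  obtain ⟨F, hF, hF0⟩ := exists_chain J n hJ hn
  have hNC := nc_cf (G := G) hF
  have hin : ∀ x : MonoidAlgebra R G, (∀ r ∈ cs x, r ∈ F0) → x ∈ cf G (F 0) := by
    intro x hx g
    by_cases hg : x.coeff g = 0
    · rw [hg]
      exact AddSubgroup.zero_mem _
    · exact hF0 _ (hFJ _ (hx _ (Finset.mem_image.2 ⟨g, Finsupp.mem_support_iff.2 hg, rfl⟩)))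
  have i1 : In (fun k => cf G (F k)) 0 (u * v - 1) := by
    rw [← hE1]
    intro i j
    refine hin _ fun r hr => ?_
    simp only [F0, Finset.mem_union, Finset.mem_biUnion, Finset.mem_univ, true_and]
    exact Or.inl (Or.inl ⟨i, j, hr⟩)
  have i2 : In (fun k => cf G (F k)) 0 (v * u - 1) := by
    rw [← hE2]
    intro i j
    refine hin _ fun r hr => ?_
    simp only [F0, Finset.mem_union, Finset.mem_biUnion, Finset.mem_univ, true_and]
    exact Or.inl (Or.inr ⟨i, j, hr⟩)
  have i3 : In (fun k => cf G (F k)) 0 E := by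
    intro i j
    refine hin _ fun r hr => ?_
    simp only [F0, Finset.mem_union, Finset.mem_biUnion, Finset.mem_univ, true_and]
    exact Or.inr ⟨i, j, hr⟩
  obtain ⟨w, hw1, hw2⟩ := unit_lift hNC u v i1 i2
  have hiso : Isometric ε Θ (hyp (Fin k) _ + E) := by
    refine ⟨u, w, Z, hw1, hw2, ?_⟩
    rw [hE]
    abel
  exact ⟨m, k, Iso.trans hiso (hensel hNC ε n 0 (by omega) E i3)⟩

/-- **(N)** Locally nilpotent ideals. -/
theorem van_nil (X B Y : Set G) (π : R →+* R') (hπ : ∀ r, π (star r) = star (π r))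
    (hsurj : Function.Surjective π) (hnil : LocNil π) (h : Van R' G X B Y) : Van R G X B Y := by
  intro ε n ψ μ χ hψ hμ hχ hN
  apply sh_lift π hπ hsurj hnil
  rw [map_UF (mr G π) (mr_star π hπ)]
  exact h ε n _ _ _ (suppIn_mr π hψ) (suppIn_mr π hμ) (suppIn_mr π hχ) (nil_mr π hπ hN)

end Main

end Pool.Agent.Lib.MP8a3537.CR
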