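import Pool.Agent.Lib.MP_8a3537_gt.CR.POL

/-!
# Coefficient rings (MP_8a3537_gt, folder CR): split pullbacks (helper73)
-/

set_option autoImplicit false
set_option linter.unusedSectionVars false

namespace Pool.Agent.Lib.MP8a3537.CR

open Matrix Pool.Agent.Lib.MP8a3537.UV

/-- `R` is the pullback of `p1 : R1 → R'` and `p2 : R2 → R'`, and `p1` is split by `σ`. -/
structure Pull {R R1 R2 R' : Type*} [Ring R] [StarRing R] [Ring R1] [StarRing R1] [Ring R2]
    [StarRing R2] [Ring R'] [StarRing R'] (q1 : R →+* R1) (q2 : R →+* R2) (p1 : R1 →+* R')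
    (p2 : R2 →+* R') (σ : R' →+* R1) : Prop where
  s1 : ∀ r, q1 (star r) = star (q1 r)
  s2 : ∀ r, q2 (star r) = star (q2 r)
  t1 : ∀ r, p1 (star r) = star (p1 r)
  t2 : ∀ r, p2 (star r) = star (p2 r)
  tσ : ∀ r, σ (star r) = star (σ r)
  comm : ∀ r, p1 (q1 r) = p2 (q2 r)
  split : ∀ r, p1 (σ r) = r
  glue : ∀ x1 x2, p1 x1 = p2 x2 → ∃ x, q1 x = x1 ∧ q2 x = x2
  inj : ∀ x, q1 x = 0 → q2 x = 0 → x = 0

section IBN

variable {R G : Type} [Ring R] [Group G]

/-- The augmentation. -/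
noncomputable def aug (R G : Type) [Ring R] [Group G] : MonoidAlgebra R G →+* R :=
  MonoidAlgebra.liftNCRingHom (RingHom.id R) (1 : G →* R) fun r g => by
    rw [MonoidHom.one_apply]
    exact Commute.one_right _

theorem card_of_inv [InvariantBasisNumber R] {ι κ : Type} [Fintype ι] [DecidableEq ι] [Fintype κ]
    [DecidableEq κ] (u : Matrix ι κ R) (v : Matrix κ ι R) (h1 : u * v = 1) (h2 : v * u = 1) :
    Fintype.card ι = Fintype.card κ := by
  refine card_eq_of_linearEquiv R (α := ι) (β := κ) ?_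
  refine LinearEquiv.ofLinear (Matrix.vecMulLinear u) (Matrix.vecMulLinear v) ?_ ?_
  · refine LinearMap.ext fun x => ?_
    change (x ᵥ* v) ᵥ* u = x
    rw [Matrix.vecMul_vecMul, h2, Matrix.vecMul_one]
  · refine LinearMap.ext fun x => ?_
    change (x ᵥ* u) ᵥ* v = x
    rw [Matrix.vecMul_vecMul, h1, Matrix.vecMul_one]

theorem card_of_inv' [InvariantBasisNumber R] {ι κ : Type} [Fintype ι] [DecidableEq ι] [Fintype κ]
    [DecidableEq κ] (u : Matrix ι κ (MonoidAlgebra R G)) (v : Matrix κ ι (MonoidAlgebra R G))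
    (h1 : u * v = 1) (h2 : v * u = 1) : Fintype.card ι = Fintype.card κ := by
  refine card_of_inv (u.map (aug R G)) (v.map (aug R G)) ?_ ?_
  · rw [← Matrix.map_mul, h1, Matrix.map_one _ (map_zero _) (map_one _)]
  · rw [← Matrix.map_mul, h2, Matrix.map_one _ (map_zero _) (map_one _)]

end IBN

section Stab

variable {A : Type*} [Ring A] [StarRing A]

theorem Iso.sum_left {ε : ℤˣ} {ι κ l : Type*} [Fintype ι] [DecidableEq ι] [Fintype κ]
    [DecidableEq κ] [Fintype l] [DecidableEq l] {Ψ : Matrix ι ι A} {Φ : Matrix κ κ A}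
    (h : Isometric ε Ψ Φ) (Θ : Matrix l l A) :
    Isometric ε (fromBlocks Θ 0 0 Ψ) (fromBlocks Θ 0 0 Φ) := by
  obtain ⟨u, v, Z, huv, hvu, hΦ⟩ := h
  refine ⟨fromBlocks 1 0 0 u, fromBlocks 1 0 0 v, fromBlocks 0 0 0 Z, ?_, ?_, ?_⟩
  · rw [fromBlocks_multiply]
    simp [huv]
  · rw [fromBlocks_multiply]
    simp [hvu]
  · rw [hΦ, fromBlocks_conjTranspose, fromBlocks_conjTranspose, fromBlocks_multiply,
      fromBlocks_multiply, fromBlocks_smul, fromBlocks_add, sub_eq_add_neg (fromBlocks _ _ _ _),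
      fromBlocks_neg, fromBlocks_add]
    simp [sub_eq_add_neg]

/-- Stabilization. -/
theorem stab {ε : ℤˣ} {ι : Type*} [Fintype ι] [DecidableEq ι] {Ψ : Matrix ι ι A} {m k : ℕ}
    (h : Isometric ε (fromBlocks Ψ 0 0 (hyp (Fin m) A)) (hyp (Fin k) A)) (j : ℕ) :
    Isometric ε (fromBlocks Ψ 0 0 (hyp (Fin (m + j)) A)) (hyp (Fin (k + j)) A) := by
  refine Iso.trans (Iso.sum_left (Iso.symm (hyp_sum ε m j)) Ψ) ?_
  refine Iso.trans (iso_reindex ε (Equiv.sumAssoc ι (Fin m ⊕ Fin m) (Fin j ⊕ Fin j)) _) ?_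
  have h2 : (fromBlocks Ψ 0 0 (fromBlocks (hyp (Fin m) A) 0 0 (hyp (Fin j) A))).submatrix
      (Equiv.sumAssoc ι (Fin m ⊕ Fin m) (Fin j ⊕ Fin j))
      (Equiv.sumAssoc ι (Fin m ⊕ Fin m) (Fin j ⊕ Fin j)) =
      fromBlocks (fromBlocks Ψ 0 0 (hyp (Fin m) A)) 0 0 (hyp (Fin j) A) := by
    ext i k
    rcases i with (i | i) | i <;> rcases k with (k | k) | k <;> rfl
  rw [h2]
  exact Iso.trans (Iso.sum_right h _) (hyp_sum ε k j)

end Stab

section Glue

variable {R R1 R2 R' G : Type} [Ring R] [StarRing R] [Ring R1] [StarRing R1] [Ring R2]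
    [StarRing R2] [Ring R'] [StarRing R'] [Group G] {q1 : R →+* R1} {q2 : R →+* R2}
    {p1 : R1 →+* R'} {p2 : R2 →+* R'} {σ : R' →+* R1} (hP : Pull q1 q2 p1 p2 σ)

include hP

/-- Gluing of matrices. -/
theorem glue_mat {m n : Type} (M1 : Matrix m n (MonoidAlgebra R1 G))
    (M2 : Matrix m n (MonoidAlgebra R2 G)) (h : M1.map (mr G p1) = M2.map (mr G p2)) :
    ∃ M : Matrix m n (MonoidAlgebra R G), M.map (mr G q1) = M1 ∧ M.map (mr G q2) = M2 := by
  classical
  have h1 : ∀ i k g, ∃ x : R, (q1 x = (M1 i k).coeff g ∧ q2 x = (M2 i k).coeff g) := by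
    intro i k g
    apply hP.glue
    have h2 : mr G p1 (M1 i k) = mr G p2 (M2 i k) := congrFun (congrFun h i) k
    rw [← mr_coeff, ← mr_coeff, h2]
  choose f hf1 hf2 using h1
  have hc : ∀ i k, ∃ y : MonoidAlgebra R G, ∀ g, y.coeff g = f i k g := by
    intro i k
    refine ⟨.ofCoeff (Finsupp.onFinset ((M1 i k).coeff.support ∪ (M2 i k).coeff.support) (f i k)
      fun g hg => ?_), fun g => rfl⟩
    by_contra h0
    rw [Finset.mem_union, not_or, Finsupp.notMem_support_iff, Finsupp.notMem_support_iff] at h0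
    exact hg (hP.inj _ (by rw [hf1, h0.1]) (by rw [hf2, h0.2]))
  choose M hM using hc
  refine ⟨M, ?_, ?_⟩
  · ext i k g
    rw [Matrix.map_apply, mr_coeff, hM, hf1]
  · ext i k g
    rw [Matrix.map_apply, mr_coeff, hM, hf2]

theorem glue_zero {m n : Type} (M : Matrix m n (MonoidAlgebra R G)) (h1 : M.map (mr G q1) = 0)
    (h2 : M.map (mr G q2) = 0) : M = 0 := by
  ext i k g
  apply hP.inj
  · have := congrArg (fun x : MonoidAlgebra R1 G => x.coeff g) (congrFun (congrFun h1 i) k)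
    change (mr G q1 (M i k)).coeff g = 0 at this
    rwa [mr_coeff] at this
  · have := congrArg (fun x : MonoidAlgebra R2 G => x.coeff g) (congrFun (congrFun h2 i) k)
    change (mr G q2 (M i k)).coeff g = 0 at this
    rwa [mr_coeff] at this

/-- Gluing of isometries. -/
theorem glue_iso {ε : ℤˣ} {ι κ : Type} [Fintype ι] [DecidableEq ι] [Fintype κ] [DecidableEq κ]
    (Ψ : Matrix ι ι (MonoidAlgebra R G)) (H : ∀ (T : Type) [Ring T],
      Matrix κ κ T) (hH : ∀ (T T' : Type) [Ring T] [Ring T'] (f : T →+* T'), (H T).map f = H T')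
    (i1 : Isometric ε (Ψ.map (mr G q1)) (H (MonoidAlgebra R1 G)))
    (i2 : Isometric ε (Ψ.map (mr G q2)) (H (MonoidAlgebra R2 G))) :
    Isometric ε Ψ (H (MonoidAlgebra R G)) := by
  obtain ⟨u1, v1, Z1, a1, b1, c1⟩ := i1
  obtain ⟨u2, v2, Z2, a2, b2, c2⟩ := i2
  -- over `R'`
  have hcomm : (Ψ.map (mr G q1)).map (mr G p1) = (Ψ.map (mr G q2)).map (mr G p2) := by
    ext i k g
    rw [Matrix.map_apply, Matrix.map_apply, Matrix.map_apply, Matrix.map_apply, mr_coeff, mr_coeff,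
      mr_coeff, mr_coeff, hP.comm]
  set w1 := u1.map (mr G p1) with hw1
  set x1 := v1.map (mr G p1) with hx1
  set Y1 := Z1.map (mr G p1) with hY1
  set w2 := u2.map (mr G p2) with hw2
  set x2 := v2.map (mr G p2) with hx2
  set Y2 := Z2.map (mr G p2) with hY2
  set Ψ' := (Ψ.map (mr G q1)).map (mr G p1) with hΨ'
  have wx1 : w1 * x1 = 1 := by
    rw [hw1, hx1, ← Matrix.map_mul, a1, Matrix.map_one _ (map_zero _) (map_one _)]
  have xw1 : x1 * w1 = 1 := by
    rw [hw1, hx1, ← Matrix.map_mul, b1, Matrix.map_one _ (map_zero _) (map_one _)]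
  have wx2 : w2 * x2 = 1 := by
    rw [hw2, hx2, ← Matrix.map_mul, a2, Matrix.map_one _ (map_zero _) (map_one _)]
  have xw2 : x2 * w2 = 1 := by
    rw [hw2, hx2, ← Matrix.map_mul, b2, Matrix.map_one _ (map_zero _) (map_one _)]
  have e1 : H (MonoidAlgebra R' G) = w1ᴴ * Ψ' * w1 + Y1 - (ε : ℤ) • Y1ᴴ := by
    have e : (H (MonoidAlgebra R1 G)).map (mr G p1) =
        (u1ᴴ * Ψ.map (mr G q1) * u1 + Z1 - (ε : ℤ) • Z1ᴴ).map (mr G p1) := by rw [← c1]
    rwa [hH, Matrix.map_sub _ (fun a b => map_sub _ a b),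
      Matrix.map_add _ (fun a b => map_add _ a b), Matrix.map_mul, Matrix.map_mul,
      map_conj _ (mr_star _ hP.t1), map_zsmul', map_conj _ (mr_star _ hP.t1)] at e
  have e2 : H (MonoidAlgebra R' G) = w2ᴴ * Ψ' * w2 + Y2 - (ε : ℤ) • Y2ᴴ := by
    have e : (H (MonoidAlgebra R2 G)).map (mr G p2) =
        (u2ᴴ * Ψ.map (mr G q2) * u2 + Z2 - (ε : ℤ) • Z2ᴴ).map (mr G p2) := by rw [← c2]
    rwa [hH, Matrix.map_sub _ (fun a b => map_sub _ a b),
      Matrix.map_add _ (fun a b => map_add _ a b), Matrix.map_mul, Matrix.map_mul,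
      map_conj _ (mr_star _ hP.t2), map_zsmul', map_conj _ (mr_star _ hP.t2), ← hcomm] at e
  -- `γ = x1 w2` and its lift
  obtain ⟨γ, hγ⟩ : ∃ γ, γ = x1 * w2 := ⟨_, rfl⟩
  obtain ⟨δ, hδ⟩ : ∃ δ, δ = x2 * w1 := ⟨_, rfl⟩
  have γδ : γ * δ = 1 := by
    rw [hγ, hδ, Matrix.mul_assoc, ← Matrix.mul_assoc w2, wx2, Matrix.one_mul, xw1]
  have δγ : δ * γ = 1 := by
    rw [hγ, hδ, Matrix.mul_assoc, ← Matrix.mul_assoc w1, wx1, Matrix.one_mul, xw2]
  obtain ⟨V, hV⟩ : ∃ V, V = Y2 - γᴴ * Y1 * γ := ⟨_, rfl⟩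
  have e3 : H (MonoidAlgebra R' G) = γᴴ * H (MonoidAlgebra R' G) * γ + V - (ε : ℤ) • Vᴴ := by
    have e4 : w1 * γ = w2 := by rw [hγ, ← Matrix.mul_assoc, wx1, Matrix.one_mul]
    have e5 : γᴴ * (w1ᴴ * Ψ' * w1) * γ = w2ᴴ * Ψ' * w2 := by
      have e6 : γᴴ * w1ᴴ = w2ᴴ := by rw [← conjTranspose_mul, e4]
      rw [← Matrix.mul_assoc, ← Matrix.mul_assoc, e6, Matrix.mul_assoc, e4]
    have e7 : γᴴ * H (MonoidAlgebra R' G) * γ = w2ᴴ * Ψ' * w2 + γᴴ * Y1 * γ -
        (ε : ℤ) • (γᴴ * Y1ᴴ * γ) := by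
      rw [e1]
      simp only [Matrix.mul_add, Matrix.mul_sub, Matrix.add_mul, Matrix.sub_mul, e5,
        Matrix.mul_smul, Matrix.smul_mul]
    rw [e7, hV, e2]
    simp only [conjTranspose_sub, conjTranspose_mul, conjTranspose_conjTranspose, smul_sub,
      Matrix.mul_assoc]
    abel
  set γ' := γ.map (mr G σ) with hγ'
  set δ' := δ.map (mr G σ) with hδ'
  set V' := V.map (mr G σ) with hV'
  have γδ' : γ' * δ' = 1 := by
    rw [hγ', hδ', ← Matrix.map_mul, γδ, Matrix.map_one _ (map_zero _) (map_one _)]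
  have δγ' : δ' * γ' = 1 := by
    rw [hγ', hδ', ← Matrix.map_mul, δγ, Matrix.map_one _ (map_zero _) (map_one _)]
  have e8 : H (MonoidAlgebra R1 G) = γ'ᴴ * H (MonoidAlgebra R1 G) * γ' + V' - (ε : ℤ) • V'ᴴ := by
    have e : (H (MonoidAlgebra R' G)).map (mr G σ) =
        (γᴴ * H (MonoidAlgebra R' G) * γ + V - (ε : ℤ) • Vᴴ).map (mr G σ) := by rw [← e3]
    rwa [Matrix.map_sub _ (fun a b => map_sub _ a b),
      Matrix.map_add _ (fun a b => map_add _ a b), Matrix.map_mul, Matrix.map_mul,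
      map_conj _ (mr_star _ hP.tσ), map_zsmul', map_conj _ (mr_star _ hP.tσ), hH] at e
  have hsp : ∀ {m n : Type} (M : Matrix m n (MonoidAlgebra R' G)),
      (M.map (mr G σ)).map (mr G p1) = M := by
    intro m n M
    ext i k g
    rw [Matrix.map_apply, Matrix.map_apply, mr_coeff, mr_coeff, hP.split]
  -- the glued matrices
  obtain ⟨U, hU1, hU2⟩ := glue_mat hP (u1 * γ') u2 (by
    rw [Matrix.map_mul, hγ', hsp, hγ, ← Matrix.mul_assoc, wx1, Matrix.one_mul])
  obtain ⟨V0, hV1, hV2⟩ := glue_mat hP (δ' * v1) v2 (by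
    rw [Matrix.map_mul, hδ', hsp, hδ, Matrix.mul_assoc, wx1, Matrix.mul_one])
  obtain ⟨Z, hZ1, hZ2⟩ := glue_mat hP (V' + γ'ᴴ * Z1 * γ') Z2 (by
    rw [Matrix.map_add _ (fun a b => map_add _ a b), Matrix.map_mul, Matrix.map_mul,
      map_conj _ (mr_star _ hP.t1), hV', hγ', hsp, hsp, hV]
    abel)
  refine ⟨U, V0, Z, ?_, ?_, ?_⟩
  · rw [← sub_eq_zero]
    refine glue_zero hP _ ?_ ?_
    · rw [Matrix.map_sub _ (fun a b => map_sub _ a b), Matrix.map_mul, hU1, hV1,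
        Matrix.map_one _ (map_zero _) (map_one _), Matrix.mul_assoc, ← Matrix.mul_assoc γ', γδ',
        Matrix.one_mul, a1, sub_self]
    · rw [Matrix.map_sub _ (fun a b => map_sub _ a b), Matrix.map_mul, hU2, hV2,
        Matrix.map_one _ (map_zero _) (map_one _), a2, sub_self]
  · rw [← sub_eq_zero]
    refine glue_zero hP _ ?_ ?_
    · rw [Matrix.map_sub _ (fun a b => map_sub _ a b), Matrix.map_mul, hU1, hV1,
        Matrix.map_one _ (map_zero _) (map_one _), Matrix.mul_assoc, ← Matrix.mul_assoc v1, b1,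
        Matrix.one_mul, δγ', sub_self]
    · rw [Matrix.map_sub _ (fun a b => map_sub _ a b), Matrix.map_mul, hU2, hV2,
        Matrix.map_one _ (map_zero _) (map_one _), b2, sub_self]
  · rw [← sub_eq_zero]
    refine glue_zero hP _ ?_ ?_
    · rw [Matrix.map_sub _ (fun a b => map_sub _ a b), Matrix.map_sub _ (fun a b => map_sub _ a b),
        Matrix.map_add _ (fun a b => map_add _ a b), Matrix.map_mul, Matrix.map_mul,
        map_conj _ (mr_star _ hP.s1), map_zsmul', map_conj _ (mr_star _ hP.s1), hU1, hZ1, hH,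
        sub_eq_zero]
      conv_lhs => rw [e8, c1]
      simp only [conjTranspose_mul, conjTranspose_add, conjTranspose_conjTranspose, Matrix.mul_add,
        Matrix.mul_sub, Matrix.add_mul, Matrix.sub_mul, Matrix.mul_smul, Matrix.smul_mul, smul_add,
        Matrix.mul_assoc]
      abel
    · rw [Matrix.map_sub _ (fun a b => map_sub _ a b), Matrix.map_sub _ (fun a b => map_sub _ a b),
        Matrix.map_add _ (fun a b => map_add _ a b), Matrix.map_mul, Matrix.map_mul,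
        map_conj _ (mr_star _ hP.s2), map_zsmul', map_conj _ (mr_star _ hP.s2), hU2, hZ2, hH,
        ← c2, sub_self]

/-- **(S)** Split pullbacks. -/
theorem van_pull (X B Y : Set G) [InvariantBasisNumber R1] [InvariantBasisNumber R2]
    (h1 : Van R1 G X B Y) (h2 : Van R2 G X B Y) : Van R G X B Y := by
  intro ε n ψ μ χ hψ hμ hχ hN
  obtain ⟨m1, k1, e1⟩ := h1 ε n _ _ _ (suppIn_mr q1 hψ) (suppIn_mr q1 hμ) (suppIn_mr q1 hχ)
    (nil_mr q1 hP.s1 hN)
  obtain ⟨m2, k2, e2⟩ := h2 ε n _ _ _ (suppIn_mr q2 hψ) (suppIn_mr q2 hμ) (suppIn_mr q2 hχ)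
    (nil_mr q2 hP.s2 hN)
  have c1 : n + m1 = k1 := by
    obtain ⟨u, v, -, a, b, -⟩ := e1
    have := card_of_inv' (G := G) u v a b
    simp only [Fintype.card_sum, Fintype.card_fin] at this
    omega
  have c2 : n + m2 = k2 := by
    obtain ⟨u, v, -, a, b, -⟩ := e2
    have := card_of_inv' (G := G) u v a b
    simp only [Fintype.card_sum, Fintype.card_fin] at this
    omega
  subst c1 c2
  have f1 := stab e1 m2
  have f2 := stab e2 m1
  rw [add_comm m2 m1, show n + m2 + m1 = n + m1 + m2 by omega] at f2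
  refine ⟨m1 + m2, n + m1 + m2, ?_⟩
  have hmap : ∀ {T : Type} [Ring T] [StarRing T] (q : R →+* T) (hq : ∀ r, q (star r) = star (q r)),
      (fromBlocks (UF ψ μ χ) 0 0 (hyp (Fin (m1 + m2)) (MonoidAlgebra R G))).map (mr G q) =
      fromBlocks (UF (ψ.map (mr G q)) (μ.map (mr G q)) (χ.map (mr G q))) 0 0
        (hyp (Fin (m1 + m2)) (MonoidAlgebra T G)) := by
    intro T _ _ q hq
    rw [fromBlocks_map, map_UF (mr G q) (mr_star q hq), map_hyp]
    simp
  refine glue_iso hP _ (fun T _ => hyp (Fin (n + m1 + m2)) T) ?_ ?_ ?_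
  · intro T T' _ _ f
    change (fromBlocks 0 1 0 0 : Matrix _ _ T).map f = fromBlocks 0 1 0 0
    rw [fromBlocks_map]
    simp
  · rw [hmap q1 hP.s1]
    exact f1
  · rw [hmap q2 hP.s2]
    exact f2

end Glue

end Pool.Agent.Lib.MP8a3537.CR
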