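import Pool.Agent.Lib.MP_8a3537_gt.CR.PUL

/-!
# Coefficient rings (MP_8a3537_gt, folder CR): retracts, products (helper76)
-/

set_option autoImplicit false
set_option linter.unusedSectionVars false

namespace Pool.Agent.Lib.MP8a3537.CR

open Matrix Pool.Agent.Lib.MP8a3537.UV

/-- **(T)** Retracts. -/
theorem van_retract {R R0 G : Type} [Ring R] [StarRing R] [Ring R0] [StarRing R0] [Group G]
    (X B Y : Set G) (σ : R0 →+* R) (p : R →+* R0) (hσ : ∀ r, σ (star r) = star (σ r))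
    (hp : ∀ r, p (star r) = star (p r)) (h : ∀ r, p (σ r) = r) (hV : Van R G X B Y) :
    Van R0 G X B Y := by
  intro ε n ψ μ χ hψ hμ hχ hN
  have h1 := hV ε n (ψ.map (mr G σ)) (μ.map (mr G σ)) (χ.map (mr G σ)) (suppIn_mr σ hψ)
    (suppIn_mr σ hμ) (suppIn_mr σ hχ) (nil_mr σ hσ hN)
  have h2 := SH.map (mr G p) (mr_star p hp) h1
  rw [map_UF (mr G p) (mr_star p hp)] at h2
  have h3 : ∀ M : Matrix (Fin n) (Fin n) (MonoidAlgebra R0 G),
      (M.map (mr G σ)).map (mr G p) = M := by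
    intro M
    ext i k g
    rw [Matrix.map_apply, Matrix.map_apply, mr_coeff, mr_coeff, h]
  rwa [h3, h3, h3] at h2

section Prod

variable {R1 R2 G : Type} [Ring R1] [StarRing R1] [Ring R2] [StarRing R2] [Group G]

theorem glue_prod {m n : Type} (M1 : Matrix m n (MonoidAlgebra R1 G))
    (M2 : Matrix m n (MonoidAlgebra R2 G)) :
    ∃ M : Matrix m n (MonoidAlgebra (R1 × R2) G),
      M.map (mr G (RingHom.fst R1 R2)) = M1 ∧ M.map (mr G (RingHom.snd R1 R2)) = M2 := by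
  classical
  have hc : ∀ i k, ∃ y : MonoidAlgebra (R1 × R2) G,
      ∀ g, y.coeff g = ((M1 i k).coeff g, (M2 i k).coeff g) := by
    intro i k
    refine ⟨.ofCoeff (Finsupp.onFinset ((M1 i k).coeff.support ∪ (M2 i k).coeff.support)
      (fun g => ((M1 i k).coeff g, (M2 i k).coeff g)) fun g hg => ?_), fun g => rfl⟩
    by_contra h0
    rw [Finset.mem_union, not_or, Finsupp.notMem_support_iff, Finsupp.notMem_support_iff] at h0
    apply hg
    change ((M1 i k).coeff g, (M2 i k).coeff g) = 0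
    rw [h0.1, h0.2]
    rfl
  choose M hM using hc
  refine ⟨Matrix.of M, ?_, ?_⟩
  · ext i k g
    rw [Matrix.map_apply, mr_coeff, Matrix.of_apply, hM]
    rfl
  · ext i k g
    rw [Matrix.map_apply, mr_coeff, Matrix.of_apply, hM]
    rfl

theorem prod_ext {m n : Type} {M N : Matrix m n (MonoidAlgebra (R1 × R2) G)}
    (h1 : M.map (mr G (RingHom.fst R1 R2)) = N.map (mr G (RingHom.fst R1 R2)))
    (h2 : M.map (mr G (RingHom.snd R1 R2)) = N.map (mr G (RingHom.snd R1 R2))) : M = N := by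
  ext i k g
  · have := congrArg (fun x : MonoidAlgebra R1 G => x.coeff g) (congrFun (congrFun h1 i) k)
    change (mr G (RingHom.fst R1 R2) (M i k)).coeff g = (mr G (RingHom.fst R1 R2) (N i k)).coeff g
      at this
    rwa [mr_coeff, mr_coeff] at this
  · have := congrArg (fun x : MonoidAlgebra R2 G => x.coeff g) (congrFun (congrFun h2 i) k)
    change (mr G (RingHom.snd R1 R2) (M i k)).coeff g = (mr G (RingHom.snd R1 R2) (N i k)).coeff g
      at this
    rwa [mr_coeff, mr_coeff] at this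

theorem iso_prod {ε : ℤˣ} {ι κ : Type} [Fintype ι] [DecidableEq ι] [Fintype κ] [DecidableEq κ]
    (Ψ : Matrix ι ι (MonoidAlgebra (R1 × R2) G)) (Φ : Matrix κ κ (MonoidAlgebra (R1 × R2) G))
    (i1 : Isometric ε (Ψ.map (mr G (RingHom.fst R1 R2))) (Φ.map (mr G (RingHom.fst R1 R2))))
    (i2 : Isometric ε (Ψ.map (mr G (RingHom.snd R1 R2))) (Φ.map (mr G (RingHom.snd R1 R2)))) :
    Isometric ε Ψ Φ := by
  have s1 : ∀ r, (RingHom.fst R1 R2) (star r) = star ((RingHom.fst R1 R2) r) := fun _ => rfl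
  have s2 : ∀ r, (RingHom.snd R1 R2) (star r) = star ((RingHom.snd R1 R2) r) := fun _ => rfl
  obtain ⟨u1, v1, Z1, a1, b1, c1⟩ := i1
  obtain ⟨u2, v2, Z2, a2, b2, c2⟩ := i2
  obtain ⟨u, hu1, hu2⟩ := glue_prod u1 u2
  obtain ⟨v, hv1, hv2⟩ := glue_prod v1 v2
  obtain ⟨Z, hZ1, hZ2⟩ := glue_prod Z1 Z2
  refine ⟨u, v, Z, prod_ext ?_ ?_, prod_ext ?_ ?_, prod_ext ?_ ?_⟩
  · rw [Matrix.map_mul, hu1, hv1, a1, Matrix.map_one _ (map_zero _) (map_one _)]
  · rw [Matrix.map_mul, hu2, hv2, a2, Matrix.map_one _ (map_zero _) (map_one _)]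
  · rw [Matrix.map_mul, hu1, hv1, b1, Matrix.map_one _ (map_zero _) (map_one _)]
  · rw [Matrix.map_mul, hu2, hv2, b2, Matrix.map_one _ (map_zero _) (map_one _)]
  · rw [c1, Matrix.map_sub _ (fun a b => map_sub _ a b), Matrix.map_add _ (fun a b => map_add _ a b),
      Matrix.map_mul, Matrix.map_mul, map_conj _ (mr_star _ s1), map_zsmul',
      map_conj _ (mr_star _ s1), hu1, hZ1]
  · rw [c2, Matrix.map_sub _ (fun a b => map_sub _ a b), Matrix.map_add _ (fun a b => map_add _ a b),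
      Matrix.map_mul, Matrix.map_mul, map_conj _ (mr_star _ s2), map_zsmul',
      map_conj _ (mr_star _ s2), hu2, hZ2]

/-- **(P)** Products. -/
theorem van_prod (X B Y : Set G) [InvariantBasisNumber R1] [InvariantBasisNumber R2]
    (h1 : Van R1 G X B Y) (h2 : Van R2 G X B Y) : Van (R1 × R2) G X B Y := by
  have s1 : ∀ r, (RingHom.fst R1 R2) (star r) = star ((RingHom.fst R1 R2) r) := fun _ => rfl
  have s2 : ∀ r, (RingHom.snd R1 R2) (star r) = star ((RingHom.snd R1 R2) r) := fun _ => rfl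
  intro ε n ψ μ χ hψ hμ hχ hN
  obtain ⟨m1, k1, e1⟩ := h1 ε n _ _ _ (suppIn_mr (RingHom.fst R1 R2) hψ)
    (suppIn_mr (RingHom.fst R1 R2) hμ) (suppIn_mr (RingHom.fst R1 R2) hχ)
    (nil_mr (RingHom.fst R1 R2) s1 hN)
  obtain ⟨m2, k2, e2⟩ := h2 ε n _ _ _ (suppIn_mr (RingHom.snd R1 R2) hψ)
    (suppIn_mr (RingHom.snd R1 R2) hμ) (suppIn_mr (RingHom.snd R1 R2) hχ)
    (nil_mr (RingHom.snd R1 R2) s2 hN)
  have c1 : n + m1 = k1 := by
    obtain ⟨u, v, -, a, b, -⟩ := e1
    have := card_of_inv' (G := G) u v a b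
    simp only [Fintype.card_sum, Fintype.card_fin] at this
    omega
  have c2 : n + m2 = k2 := by
    obtain ⟨u, v, -, a, b, -⟩ := e2
    have := card_of_inv' (G := G) u v a b
    simp only [Fintype.card_sum, Fintype.card_fin] at this
    omega
  subst c1 c2
  have f1 := stab e1 m2
  have f2 := stab e2 m1
  rw [add_comm m2 m1, show n + m2 + m1 = n + m1 + m2 by omega] at f2
  refine ⟨m1 + m2, n + m1 + m2, ?_⟩
  have hmap : ∀ {T : Type} [Ring T] [StarRing T] (q : (R1 × R2) →+* T)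
      (hq : ∀ r, q (star r) = star (q r)),
      (fromBlocks (UF ψ μ χ) 0 0 (hyp (Fin (m1 + m2)) (MonoidAlgebra (R1 × R2) G))).map (mr G q) =
      fromBlocks (UF (ψ.map (mr G q)) (μ.map (mr G q)) (χ.map (mr G q))) 0 0
        (hyp (Fin (m1 + m2)) (MonoidAlgebra T G)) := by
    intro T _ _ q hq
    rw [fromBlocks_map, map_UF (mr G q) (mr_star q hq), map_hyp]
    simp
  refine iso_prod _ _ ?_ ?_
  · rw [hmap _ s1, map_hyp]
    exact f1
  · rw [hmap _ s2, map_hyp]
    exact f2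

end Prod

end Pool.Agent.Lib.MP8a3537.CR
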