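import Pool.Agent.Lib.MP_8a3537_gt.CR.Basic
import Pool.Agent.Lib.MP_8a3537_gt.AU.EXF

/-!
# Coefficient rings (MP_8a3537_gt, folder CR): unions of rings, finitely generated subgroups (helper73)
-/

set_option autoImplicit false
set_option linter.unusedSectionVars false

namespace Pool.Agent.Lib.MP8a3537.CR

open Matrix Pool.Agent.Lib.MP8a3537.UV

section Inj

variable {A A' : Type*} [Ring A] [StarRing A] [Ring A'] [StarRing A']

theorem nil_of_map (f : A →+* A') (hf : Function.Injective f) {ι : Type*} [Fintype ι]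
    [DecidableEq ι] {M : Matrix ι ι A} (h : IsNilpotent (M.map f)) : IsNilpotent M := by
  obtain ⟨k, hk⟩ := h
  refine ⟨k, ?_⟩
  have h1 : (M ^ k).map f = (M.map f) ^ k := map_pow f.mapMatrix M k
  rw [hk] at h1
  ext i j
  apply hf
  rw [Matrix.zero_apply, map_zero]
  exact congrFun (congrFun h1 i) j

end Inj

section Union

variable {R R0 G : Type} [Ring R] [StarRing R] [Ring R0] [StarRing R0] [Group G]

/-- All coefficients of a matrix. -/
noncomputable def coefs [DecidableEq R] {n : Type} [Fintype n] (M : Matrix n n (MonoidAlgebra R G)) :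
    Finset R :=
  Finset.univ.biUnion fun i => Finset.univ.biUnion fun k =>
    (M i k).coeff.support.image fun g => (M i k).coeff g

theorem exists_lift (j : R0 →+* R) {n : Type} (M : Matrix n n (MonoidAlgebra R G))
    (h : ∀ i k g, ∃ r, j r = (M i k).coeff g) :
    ∃ M0 : Matrix n n (MonoidAlgebra R0 G), M0.map (mr G j) = M := by
  classical
  have hc : ∀ x : R, ∃ r : R0, ((∃ r, j r = x) → j r = x) ∧ (x = 0 → r = 0) := by
    intro x
    by_cases h0 : x = 0
    · exact ⟨0, fun _ => by rw [map_zero, h0], fun _ => rfl⟩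
    · by_cases h1 : ∃ r, j r = x
      · obtain ⟨r, hr⟩ := h1
        exact ⟨r, fun _ => hr, fun h2 => absurd h2 h0⟩
      · exact ⟨0, fun h2 => absurd h2 h1, fun _ => rfl⟩
  choose c hc1 hc2 using hc
  refine ⟨fun i k => .ofCoeff ((M i k).coeff.mapRange c (hc2 0 rfl)), ?_⟩
  ext i k g
  rw [Matrix.map_apply, mr_coeff]
  change j (c ((M i k).coeff g)) = _
  exact hc1 _ (h i k g)

/-- **(U)** Unions: every finite subset of `R` lies in a subring with involution. -/
theorem van_union (X B Y : Set G)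
    (h : ∀ F : Finset R, ∃ (R0 : Type) (_ : Ring R0) (_ : StarRing R0) (j : R0 →+* R),
      Function.Injective j ∧ (∀ r, j (star r) = star (j r)) ∧ (∀ x ∈ F, ∃ r, j r = x) ∧
      Van R0 G X B Y) : Van R G X B Y := by
  classical
  intro ε n ψ μ χ hψ hμ hχ hN
  obtain ⟨R0, _, _, j, hinj, hst, hF, hV⟩ := h (coefs ψ ∪ coefs μ ∪ coefs χ)
  have hmem : ∀ M : Matrix (Fin n) (Fin n) (MonoidAlgebra R G),
      (∀ x ∈ coefs M, ∃ r, j r = x) → ∀ i k g, ∃ r, j r = (M i k).coeff g := by
    intro M hM i k g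
    by_cases h0 : (M i k).coeff g = 0
    · exact ⟨0, by rw [map_zero, h0]⟩
    · apply hM
      unfold coefs
      rw [Finset.mem_biUnion]
      refine ⟨i, Finset.mem_univ _, ?_⟩
      rw [Finset.mem_biUnion]
      exact ⟨k, Finset.mem_univ _, Finset.mem_image.2 ⟨g, Finsupp.mem_support_iff.2 h0, rfl⟩⟩
  obtain ⟨ψ0, rfl⟩ := exists_lift j ψ (hmem ψ fun x hx => hF x (by simp [hx]))
  obtain ⟨μ0, rfl⟩ := exists_lift j μ (hmem μ fun x hx => hF x (by simp [hx]))
  obtain ⟨χ0, rfl⟩ := exists_lift j χ (hmem χ fun x hx => hF x (by simp [hx]))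
  have hsupp : ∀ {Z : Set G} (M : Matrix (Fin n) (Fin n) (MonoidAlgebra R0 G)),
      SuppIn Z (M.map (mr G j)) → SuppIn Z M := by
    intro Z M hM i k g hg
    apply hM i k g
    rw [Matrix.map_apply, mr_coeff]
    intro h0
    exact hg (hinj (by rw [h0, map_zero]))
  have hinjG : Function.Injective (mr G j) := by
    intro x y hxy
    ext g
    apply hinj
    rw [← mr_coeff, ← mr_coeff, hxy]
  rw [← map_UF (mr G j) (mr_star j hst)]
  refine SH.map (mr G j) (mr_star j hst) (hV ε n ψ0 μ0 χ0 (hsupp _ hψ) (hsupp _ hμ) (hsupp _ hχ) ?_)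
  apply nil_of_map (mr G j) hinjG
  rw [map_nu (mr G j) (mr_star j hst), Matrix.map_add _ (fun a b => map_add (mr G j) a b),
    Matrix.map_add _ (fun a b => map_add (mr G j) a b), map_zsmul', map_zsmul',
    map_conj (mr G j) (mr_star j hst), map_conj (mr G j) (mr_star j hst)]
  exact hN

end Union

section Sub

variable {R G : Type} [Ring R] [StarRing R] [Group G]

theorem emb_coeff' (M : Subgroup G) (s : MonoidAlgebra R M) (g : G) (hg : g ∈ M) :
    (emb R M s).coeff g = s.coeff ⟨g, hg⟩ := RESAux.emb_coeff_mem M s ⟨g, hg⟩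

theorem emb_inj (M : Subgroup G) : Function.Injective (emb R M) := by
  intro x y hxy
  ext g
  rw [← RESAux.emb_coeff_mem M x g, ← RESAux.emb_coeff_mem M y g, hxy]

theorem exists_emb (M : Subgroup G) {n : Type} (N : Matrix n n (MonoidAlgebra R G))
    (h : ∀ i k g, (N i k).coeff g ≠ 0 → g ∈ M) :
    ∃ N0 : Matrix n n (MonoidAlgebra R M), N0.map (emb R M) = N := by
  refine ⟨fun i k => res M 1 (N i k), ?_⟩
  ext i k g
  rw [Matrix.map_apply]
  by_cases hg : g ∈ M
  · rw [emb_coeff' M _ g hg, res_coeff, one_mul]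
  · rw [RESAux.emb_coeff_not_mem M _ g hg]
    by_contra h0
    exact hg (h i k g fun h1 => h0 h1.symm)

/-- **(G)** It is enough to consider the finitely generated subgroups of `G`. -/
theorem van_sub (X B Y : Set G)
    (h : ∀ M : Subgroup G, M.FG → Van R M {g | (g : G) ∈ X} {g | (g : G) ∈ B} {g | (g : G) ∈ Y}) :
    Van R G X B Y := by
  classical
  intro ε n ψ μ χ hψ hμ hχ hN
  let sp : Matrix (Fin n) (Fin n) (MonoidAlgebra R G) → Finset G := fun N =>
    Finset.univ.biUnion fun i => Finset.univ.biUnion fun k => (N i k).coeff.support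
  let M : Subgroup G := Subgroup.closure ((sp ψ ∪ sp μ ∪ sp χ : Finset G) : Set G)
  have hFG : M.FG := ⟨_, rfl⟩
  have hmem : ∀ N : Matrix (Fin n) (Fin n) (MonoidAlgebra R G), sp N ⊆ sp ψ ∪ sp μ ∪ sp χ →
      ∀ i k g, (N i k).coeff g ≠ 0 → g ∈ M := by
    intro N hN i k g hg
    apply Subgroup.subset_closure
    apply hN
    rw [Finset.mem_biUnion]
    refine ⟨i, Finset.mem_univ _, ?_⟩
    rw [Finset.mem_biUnion]
    exact ⟨k, Finset.mem_univ _, Finsupp.mem_support_iff.2 hg⟩
  obtain ⟨ψ0, hψ0⟩ := exists_emb M ψ (hmem ψ fun x hx => by simp [hx])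
  obtain ⟨μ0, hμ0⟩ := exists_emb M μ (hmem μ fun x hx => by simp [hx])
  obtain ⟨χ0, hχ0⟩ := exists_emb M χ (hmem χ fun x hx => by simp [hx])
  have hst : ∀ s : MonoidAlgebra R M, emb R M (star s) = star (emb R M s) := fun s =>
    (AU.EXFAux.star_emb s).symm
  have hsupp : ∀ {Z : Set G} (N : Matrix (Fin n) (Fin n) (MonoidAlgebra R M)),
      SuppIn Z (N.map (emb R M)) → SuppIn {g : M | (g : G) ∈ Z} N := by
    intro Z N hN i k g hg
    apply hN i k g
    rwa [Matrix.map_apply, RESAux.emb_coeff_mem]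
  rw [← hψ0, ← hμ0, ← hχ0, ← map_UF (emb R M) hst]
  rw [← hψ0] at hψ hN
  rw [← hμ0] at hμ hN
  rw [← hχ0] at hχ hN
  refine SH.map (emb R M) hst (h M hFG ε n ψ0 μ0 χ0 (hsupp _ hψ) (hsupp _ hμ) (hsupp _ hχ) ?_)
  apply nil_of_map (emb R M) (emb_inj M)
  rw [map_nu (emb R M) hst, Matrix.map_add _ (fun a b => map_add (emb R M) a b),
    Matrix.map_add _ (fun a b => map_add (emb R M) a b), map_zsmul', map_zsmul',
    map_conj (emb R M) hst, map_conj (emb R M) hst]
  exact hN

end Sub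

end Pool.Agent.Lib.MP8a3537.CR
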