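import Pool.Agent.Lib.MP_8a3537_gt.CR.QPE
import Pool.Agent.Lib.MP_8a3537_gt.CR.NIL
import Pool.Agent.Lib.MP_8a3537_gt.CR.UNI
import Pool.Agent.Lib.MP_8a3537_gt.CR.PUL
import Pool.Agent.Lib.MP_8a3537_gt.CR.COL
import Pool.Agent.Lib.MP_8a3537_gt.CR.RET
import Pool.Agent.Lib.MP_8a3537_gt.CR.MOR
import Pool.Agent.Lib.MP_8a3537_gt.CR.CEN

/-!
# Classes of coefficient rings (MP_8a3537_gt, folder CR, helper73)

`Closed Q`: the class `Q` of rings with involution contains the rings with a central element `s`,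
`s + s^* = 1`, and is closed under locally nilpotent extensions,
directed colimits, split pullbacks, products, retracts, matrix rings and patching at the maximal ideals
over `2` of a ring of central self-adjoint elements. `Cls P`: the smallest closed class which contains the class `P`.
`van_cls`: if the vanishing theorem holds for the rings of `P`, then it holds for the rings of `Cls P`.
-/

set_option autoImplicit false

namespace Pool.Agent.Lib.MP8a3537.CR

open Polynomial

/-- The class `Q` of rings with involution contains (0) the rings with a central element `s` such that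
`s + s^* = 1` (for instance `s = 1/2`), and it is closed under (1) extensions by locally nilpotent ideals,
(2) directed colimits (for instance unions), (3) split pullbacks, (4) products, (5) retracts, (6)
matrix rings, with the involutions `x ↦ d⁻¹ x^* d`, `d^* = ± d`, and conversely, (7) patching. -/
structure Closed (Q : (R : Type) → [Ring R] → [StarRing R] → Prop) : Prop where
  /-- (0) rings with a central element `s`, `s + s^* = 1` -/
  cen : ∀ (R : Type) [Ring R] [StarRing R] (s : R), (∀ a : R, a * s = s * a) → s + star s = 1 → Q R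
  /-- (1) if `π : R → R'` is surjective with a locally nilpotent kernel, and `R'` is in the class, so
  is `R` -/
  nil : ∀ (R R' : Type) [Ring R] [StarRing R] [Ring R'] [StarRing R'] (π : R →+* R'),
    (∀ r, π (star r) = star (π r)) → Function.Surjective π → LocNil π → Q R' → Q R
  /-- (2) if `R` is the colimit of the rings `S i` (directed system, transition maps `f`), and the
  `S j`, `j` arbitrarily large, are in the class, so is `R` -/
  col : ∀ (I : Type) [Preorder I] (S : I → Type) [∀ i, Ring (S i)] [∀ i, StarRing (S i)]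
    (f : ∀ i j, i ≤ j → (S i →+* S j)) (R : Type) [Ring R] [StarRing R] (g : ∀ i, S i →+* R),
    IsCol S f g → (∀ i, ∃ j, i ≤ j ∧ Q (S j)) → Q R
  /-- (3) if `R` is the pullback of `p1 : R1 → R'` and `p2 : R2 → R'`, `p1` is split by a
  homomorphism, and `R1` and `R2` are in the class, so is `R` -/
  pull : ∀ (R R1 R2 R' : Type) [Ring R] [StarRing R] [Ring R1] [StarRing R1] [Ring R2] [StarRing R2]
    [Ring R'] [StarRing R'] (q1 : R →+* R1) (q2 : R →+* R2) (p1 : R1 →+* R') (p2 : R2 →+* R')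
    (σ : R' →+* R1), Pull q1 q2 p1 p2 σ → InvariantBasisNumber R1 → InvariantBasisNumber R2 →
    Q R1 → Q R2 → Q R
  /-- (4) if `R1` and `R2` are in the class, so is `R1 × R2` -/
  prod : ∀ (R1 R2 : Type) [Ring R1] [StarRing R1] [Ring R2] [StarRing R2],
    InvariantBasisNumber R1 → InvariantBasisNumber R2 → Q R1 → Q R2 → Q (R1 × R2)
  /-- (5) if `R0 → R → R0` is the identity, and `R` is in the class, so is `R0` -/
  retr : ∀ (R0 R : Type) [Ring R0] [StarRing R0] [Ring R] [StarRing R] (σ : R0 →+* R) (p : R →+* R0),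
    (∀ r, σ (star r) = star (σ r)) → (∀ r, p (star r) = star (p r)) → (∀ r, p (σ r) = r) →
    Q R → Q R0
  /-- (6) let `R'` be isomorphic to the ring of the `k × k` matrices over `R` with the involution
  `x ↦ d⁻¹ x^* d`, `d^* = ± d`; if `R` is in the class, so is `R'` -/
  mat : ∀ (R R' : Type) [Ring R] [StarRing R] [Ring R'] [StarRing R'] (k : ℕ)
    (Θ : R' ≃+* Matrix (Fin k) (Fin k) R) (d di : Matrix (Fin k) (Fin k) R) (δ : ℤˣ), 0 < k →
    Tw Θ d di δ → InvariantBasisNumber R → Q R → Q R'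
  /-- (6') conversely, if `R'` is in the class, so is `R` -/
  unmat : ∀ (R R' : Type) [Ring R] [StarRing R] [Ring R'] [StarRing R'] (k : ℕ)
    (Θ : R' ≃+* Matrix (Fin k) (Fin k) R) (d di : Matrix (Fin k) (Fin k) R) (δ : ℤˣ), 0 < k →
    Tw Θ d di δ → Q R' → Q R
  /-- (7) let `C → R` be a homomorphism of a commutative ring to the central self-adjoint elements; if
  for every maximal ideal `M` of `C` which contains `2` the ring `R_M[t]`, `t^* = t`, is in the class,
  so is `R` -/
  patch : ∀ (R C : Type) [Ring R] [StarRing R] [CommRing C] (i : C →+* R),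
    (∀ (c : C) (a : R), i c * a = a * i c) → (∀ c : C, star (i c) = i c) →
    (∀ M : Ideal C, M.IsMaximal → (2 : C) ∈ M →
      ∃ (R' : Type) (_ : Ring R') (_ : StarRing R') (φ : R →+* R'),
        (∀ r, φ (star r) = star (φ r)) ∧ (∀ s : C, s ∉ M → IsUnit (φ (i s))) ∧
        (∀ x : R', ∃ s : C, s ∉ M ∧ ∃ y : R, φ (i s) * x = φ y) ∧
        (∀ y : R, φ y = 0 → ∃ s : C, s ∉ M ∧ i s * y = 0) ∧ Q R'[X]) → Q R

/-- The smallest closed class which contains `P`. -/
def Cls (P : (R : Type) → [Ring R] → [StarRing R] → Prop) (R : Type) [Ring R] [StarRing R] : Prop :=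
  ∀ Q : (R : Type) → [Ring R] → [StarRing R] → Prop, Closed Q →
    (∀ (S : Type) [Ring S] [StarRing S], P S → Q S) → Q R

theorem Cls.base {P : (R : Type) → [Ring R] → [StarRing R] → Prop} {R : Type} [Ring R] [StarRing R]
    (h : P R) : Cls P R := fun _ _ hPQ => hPQ R h

/-- `Cls P` is closed. -/
theorem closed_cls (P : (R : Type) → [Ring R] → [StarRing R] → Prop) : Closed (Cls P) where
  cen := fun R _ _ s h1 h2 Q hQ _ => hQ.cen R s h1 h2
  nil := fun R R' _ _ _ _ π h1 h2 h3 h4 Q hQ hPQ => hQ.nil R R' π h1 h2 h3 (h4 Q hQ hPQ)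
  col := fun I _ S _ _ f R _ _ g h1 h2 Q hQ hPQ => hQ.col I S f R g h1 fun i => by
    obtain ⟨j, h3, h4⟩ := h2 i
    exact ⟨j, h3, h4 Q hQ hPQ⟩
  pull := fun R R1 R2 R' _ _ _ _ _ _ _ _ q1 q2 p1 p2 σ h1 h2 h3 h4 h5 Q hQ hPQ =>
    hQ.pull R R1 R2 R' q1 q2 p1 p2 σ h1 h2 h3 (h4 Q hQ hPQ) (h5 Q hQ hPQ)
  prod := fun R1 R2 _ _ _ _ h1 h2 h3 h4 Q hQ hPQ =>
    hQ.prod R1 R2 h1 h2 (h3 Q hQ hPQ) (h4 Q hQ hPQ)
  retr := fun R0 R _ _ _ _ σ p h1 h2 h3 h4 Q hQ hPQ => hQ.retr R0 R σ p h1 h2 h3 (h4 Q hQ hPQ)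
  mat := fun R R' _ _ _ _ k Θ d di δ h1 h2 h3 h4 Q hQ hPQ =>
    hQ.mat R R' k Θ d di δ h1 h2 h3 (h4 Q hQ hPQ)
  unmat := fun R R' _ _ _ _ k Θ d di δ h1 h2 h3 Q hQ hPQ =>
    hQ.unmat R R' k Θ d di δ h1 h2 (h3 Q hQ hPQ)
  patch := fun R C _ _ _ i h1 h2 h Q hQ hPQ => hQ.patch R C i h1 h2 fun M hM h2M => by
    obtain ⟨R', i1, i2, φ, h3, h4, h5, h6, h7⟩ := h M hM h2M
    exact ⟨R', i1, i2, φ, h3, h4, h5, h6, h7 Q hQ hPQ⟩

/-- Unions: every finite subset of `R` lies in the image of a ring of the class. -/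
theorem Closed.union {Q : (R : Type) → [Ring R] → [StarRing R] → Prop} (hQ : Closed Q) (R : Type)
    [Ring R] [StarRing R] (I : Type) [Preorder I] [Nonempty I]
    (hdir : ∀ i j : I, ∃ k, i ≤ k ∧ j ≤ k) (S : I → Subring R)
    (hmono : ∀ i j, i ≤ j → S i ≤ S j)
    (hall : ∀ x : R, ∃ i, x ∈ S i)
    (inst : ∀ i, StarRing (S i)) (hinst : ∀ i (x : S i), ((star x : S i) : R) = star (x : R))
    (h : ∀ i, Q (S i)) : Q R := by
  refine hQ.col I (fun i => S i) (fun i j hij => Subring.inclusion (hmono i j hij)) R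
    (fun i => (S i).subtype) ?_ fun i => ⟨i, le_refl i, h i⟩
  refine ⟨inferInstance, hdir, ?_, ?_, ?_, ?_, ?_, ?_⟩
  · intro i j hij r
    apply Subtype.ext
    rw [hinst]
    change ((star r : S i) : R) = star (r : R)
    rw [hinst]
  · intro i r
    exact hinst i r
  · intro i j k _ _ _ r
    rfl
  · intro i j _ r
    rfl
  · intro x
    obtain ⟨i, hi⟩ := hall x
    exact ⟨i, ⟨x, hi⟩, rfl⟩
  · intro i r hr
    refine ⟨i, le_refl i, ?_⟩
    apply Subtype.ext
    exact hr

/-- The class of the rings for which the vanishing theorem holds is closed. -/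
theorem closed_van (G : Type) [Group G] (X B Y : Set G) :
    Closed (fun (R : Type) [Ring R] [StarRing R] => Van R G X B Y) where
  cen := fun _ _ _ _ h1 h2 => van_cen h1 h2 X B Y
  nil := fun _ _ _ _ _ _ π h1 h2 h3 h4 => van_nil X B Y π h1 h2 h3 h4
  col := fun _ _ _ _ _ _ _ _ _ _ h1 h2 => van_col h1 X B Y h2
  pull := fun _ _ _ _ _ _ _ _ _ _ _ _ _ _ _ _ _ h1 h2 h3 h4 h5 => by
    have := h2
    have := h3
    exact van_pull h1 X B Y h4 h5
  prod := fun _ _ _ _ _ _ h1 h2 h3 h4 => by
    have := h1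
    have := h2
    exact van_prod X B Y h3 h4
  retr := fun _ _ _ _ _ _ σ p h1 h2 h3 h4 => van_retract X B Y σ p h1 h2 h3 h4
  mat := fun _ _ _ _ _ _ _ _ _ _ _ h1 h2 h3 h4 => by
    have := h3
    exact van_mor h1 h2 X B Y h4
  unmat := fun _ _ _ _ _ _ _ _ _ _ _ h1 h2 h3 => van_mor' h1 h2 X B Y h3
  patch := fun _ _ _ _ _ i h1 h2 h => CRQ.patch i h1 h2 X B Y h

/-- **Theorem CR.** If the vanishing theorem holds for the rings of the class `P`, it holds for all rings
of the smallest closed class `Cls P` which contains `P`. -/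
theorem van_cls (G : Type) [Group G] (X B Y : Set G)
    (P : (R : Type) → [Ring R] → [StarRing R] → Prop)
    (h : ∀ (S : Type) [Ring S] [StarRing S], P S → Van S G X B Y)
    {R : Type} [Ring R] [StarRing R] (hR : Cls P R) : Van R G X B Y :=
  hR _ (closed_van G X B Y) h

end Pool.Agent.Lib.MP8a3537.CR
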