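import Mathlib

/-!
# NOEP: Hilbert's basis theorem for the polynomial ring over a noncommutative ring (left ideals)
-/

set_option autoImplicit false

namespace Pool.Agent.Lib.MP8a3537.CR

open Polynomial

namespace NOEPM

variable {R : Type} [Ring R]

/-- the leading coefficients of degree `k` of the left ideal `J` -/
noncomputable def lam (J : Submodule R[X] R[X]) (k : ℕ) : Submodule R R :=
  ((J.restrictScalars R) ⊓ degreeLT R (k + 1)).map (lcoeff R k)

theorem mem_lam {J : Submodule R[X] R[X]} {k : ℕ} {a : R} :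
    a ∈ lam J k ↔ ∃ f ∈ J, f ∈ degreeLT R (k + 1) ∧ f.coeff k = a := by
  unfold lam
  simp only [Submodule.mem_map, Submodule.mem_inf, Submodule.restrictScalars_mem, lcoeff_apply]
  constructor
  · rintro ⟨f, ⟨h1, h2⟩, h3⟩
    exact ⟨f, h1, h2, h3⟩
  · rintro ⟨f, h1, h2, h3⟩
    exact ⟨f, ⟨h1, h2⟩, h3⟩

theorem mem_LT {n : ℕ} {f : R[X]} : f ∈ degreeLT R n ↔ ∀ m, n ≤ m → f.coeff m = 0 := by
  rw [mem_degreeLT, degree_lt_iff_coeff_zero]

theorem X_mul_mem {n : ℕ} {f : R[X]} (hf : f ∈ degreeLT R n) : X * f ∈ degreeLT R (n + 1) := by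
  rw [mem_LT] at hf ⊢
  intro m hm
  obtain ⟨m, rfl⟩ : ∃ k, m = k + 1 := ⟨m - 1, by omega⟩
  rw [coeff_X_mul]
  exact hf m (by omega)

theorem lam_succ (J : Submodule R[X] R[X]) (k : ℕ) : lam J k ≤ lam J (k + 1) := by
  intro a ha
  rw [mem_lam] at ha ⊢
  obtain ⟨f, h1, h2, h3⟩ := ha
  refine ⟨X * f, ?_, X_mul_mem h2, ?_⟩
  · exact J.smul_mem X h1
  · rw [coeff_X_mul, h3]

theorem LT_fg (n : ℕ) : (degreeLT R n).FG := by
  classical
  rw [degreeLT_eq_span_X_pow]
  exact Submodule.fg_span (Finset.finite_toSet _)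

end NOEPM

open NOEPM in
theorem noep (R : Type) [Ring R] [hN : IsNoetherianRing R] : IsNoetherianRing (Polynomial R) := by
  rw [isNoetherianRing_iff_ideal_fg]
  intro J
  let Λ : ℕ →o Submodule R R :=
    { toFun := fun k => lam J k
      monotone' := monotone_nat_of_le_succ (lam_succ J) }
  obtain ⟨K, hK⟩ := monotone_stabilizes_iff_noetherian.mpr hN Λ
  let Q : Submodule R R[X] := (Submodule.restrictScalars R J) ⊓ degreeLT R (K + 1)
  have hQ : Q.FG := by
    have h1 : IsNoetherian R (degreeLT R (K + 1)) := isNoetherian_of_fg_of_noetherian _ (LT_fg _)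
    exact (isNoetherian_submodule.mp h1) Q inf_le_right
  obtain ⟨G, hG⟩ := hQ
  refine ⟨G, le_antisymm ?_ ?_⟩
  · rw [Submodule.span_le]
    intro g hg
    have : g ∈ Q := by rw [← hG]; exact Submodule.subset_span hg
    exact this.1
  · set T : Submodule R[X] R[X] := Submodule.span R[X] (G : Set R[X]) with hT
    have hQT : ∀ s ∈ Q, s ∈ T := by
      intro s hs
      rw [← hG] at hs
      have : Submodule.span R (G : Set R[X]) ≤ T.restrictScalars R :=
        Submodule.span_le.mpr (fun g hg => Submodule.subset_span hg)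
      exact this hs
    have key : ∀ k : ℕ, ∀ s ∈ J, s ∈ degreeLT R (K + 1 + k) → s ∈ T := by
      intro k
      induction k with
      | zero => intro s hs hs'; exact hQT s ⟨hs, hs'⟩
      | succ k ih =>
        intro f hf hf'
        have ha : f.coeff (K + 1 + k) ∈ lam J (K + 1 + k) := mem_lam.2 ⟨f, hf, hf', rfl⟩
        have hKK : lam J (K + 1 + k) = lam J (K + k) :=
          (hK (K + 1 + k) (by omega)).symm.trans (hK (K + k) (by omega))
        rw [hKK, mem_lam] at ha
        obtain ⟨g, hg, hg', hgc⟩ := ha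
        have e1 : K + 1 + k = K + k + 1 := by omega
        have h3 : g ∈ T := ih g hg (by rw [e1]; exact hg')
        have h4 : f - X * g ∈ T := by
          refine ih _ (J.sub_mem hf (J.smul_mem X hg)) ?_
          rw [mem_LT] at hf' hg' ⊢
          intro m hm
          obtain ⟨m, rfl⟩ : ∃ k, m = k + 1 := ⟨m - 1, by omega⟩
          rw [coeff_sub, coeff_X_mul]
          rcases Nat.lt_or_ge m (K + k + 1) with h | h
          · have hm' : m = K + k := by omega
            subst hm'
            rw [hgc, e1, sub_self]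
          · rw [hf' (m + 1) (by omega), hg' m (by omega), sub_self]
        have h6 := T.add_mem h4 (T.smul_mem X h3)
        rwa [smul_eq_mul, sub_add_cancel] at h6
    intro s hs
    refine key s.natDegree.succ s hs ?_
    rw [mem_LT]
    intro m hm
    exact coeff_eq_zero_of_natDegree_lt (by omega)

end Pool.Agent.Lib.MP8a3537.CR
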