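import Pool.Agent.Lib.MP_8a3537_gt.AUL.CHR
import Pool.Agent.Lib.MP_8a3537_gt.AUL.LFT
import Pool.Agent.Lib.MP_8a3537_gt.CR.NOEP

/-!
# Coefficient rings (MP_8a3537_gt, folder CR): Hilbert's syzygy theorem (helper30)

If `R` is noetherian and all finite `R`-modules have free resolutions of length `≤ d`, then all finite
`R[X]`-modules have free resolutions of length `≤ d + 1`. `R` is not assumed to be commutative.
-/

set_option autoImplicit false
set_option linter.unusedSectionVars false

namespace Pool.Agent.Lib.MP8a3537.CRH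

open Matrix Polynomial Pool.Agent.Lib.MP8a3537.AUL Pool.Agent.Lib.MP8a3537.AUL.CHRM

section Coef

variable {R : Type} [Ring R]

/-- The coefficient rows. -/
def cor {I : Type} (x : I → R[X]) (k : ℕ) : I → R := fun i => (x i).coeff k

theorem cor_bdd {I : Type} [Finite I] (x : I → R[X]) : ∃ L : ℕ, ∀ k, L ≤ k → cor x k = 0 := by
  cases nonempty_fintype I
  refine ⟨(Finset.univ.sup fun i => (x i).natDegree) + 1, fun k hk => ?_⟩
  funext i
  refine coeff_eq_zero_of_natDegree_lt ?_
  have : (x i).natDegree ≤ Finset.univ.sup fun i => (x i).natDegree :=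
    Finset.le_sup (f := fun i => (x i).natDegree) (Finset.mem_univ i)
  omega

theorem cor_ext {I : Type} {x y : I → R[X]} (h : ∀ k, cor x k = cor y k) : x = y := by
  funext i
  ext k
  exact congrFun (h k) i

theorem cor_mk {I : Type} (f : ℕ → I → R) (L : ℕ) (hL : ∀ k, L ≤ k → f k = 0) :
    ∃ x : I → R[X], ∀ k, cor x k = f k := by
  refine ⟨fun i => ∑ k ∈ Finset.range L, monomial k (f k i), fun k => ?_⟩
  funext i
  unfold cor
  rw [finsetSum_coeff]
  simp only [coeff_monomial]
  by_cases hk : k < L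
  · rw [Finset.sum_eq_single k]
    · rw [if_pos rfl]
    · intro b _ hb
      rw [if_neg hb]
    · intro h
      exact absurd (Finset.mem_range.mpr hk) h
  · rw [hL k (by omega)]
    refine Finset.sum_eq_zero fun b hb => ?_
    rw [if_neg]
    rintro rfl
    exact hk (Finset.mem_range.mp hb)

theorem cor_add {I : Type} (x y : I → R[X]) (k : ℕ) : cor (x + y) k = cor x k + cor y k := by
  funext i
  exact coeff_add _ _ _

theorem cor_sub {I : Type} (x y : I → R[X]) (k : ℕ) : cor (x - y) k = cor x k - cor y k := by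
  funext i
  exact coeff_sub _ _ _

theorem cor_zero {I : Type} (k : ℕ) : cor (0 : I → R[X]) k = 0 := by
  funext i
  exact coeff_zero _

theorem cor_vecMul {I J : Type} [Fintype I] (y : I → R[X]) (m : Matrix I J R) (k : ℕ) :
    cor (y ᵥ* m.map (C : R →+* R[X])) k = cor y k ᵥ* m := by
  funext j
  show (∑ i, y i * C (m i j)).coeff k = ∑ i, (y i).coeff k * m i j
  rw [finsetSum_coeff]
  refine Finset.sum_congr rfl fun i _ => ?_
  rw [coeff_mul_C]

/-- If all coefficient rows are in the image then the row is in the image. -/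
theorem lift_coef {I J : Type} [Fintype I] [Fintype J] (m : Matrix I J R) (x : J → R[X])
    (h : ∀ k, ∃ y : I → R, cor x k = y ᵥ* m) :
    ∃ y : I → R[X], x = y ᵥ* m.map (C : R →+* R[X]) := by
  classical
  choose y hy using h
  obtain ⟨L, hL⟩ := cor_bdd x
  obtain ⟨y', hy'⟩ := cor_mk (fun k => if cor x k = 0 then 0 else y k) L (fun k hk => by
    rw [if_pos (hL k hk)])
  refine ⟨y', cor_ext fun k => ?_⟩
  rw [cor_vecMul, hy']
  by_cases h0 : cor x k = 0
  · rw [if_pos h0, h0, Matrix.zero_vecMul]
  · rw [if_neg h0]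
    exact hy k

theorem inDeg_cor {I : Type} (deg : I → ℤ) (q : ℤ) (x : I → R[X]) (hx : InDeg deg q x) (k : ℕ) :
    InDeg deg q (cor x k) := by
  intro i hi
  show (x i).coeff k = 0
  rw [hx i hi, coeff_zero]

/-- The matrix `X u - v`. -/
noncomputable def phi {I J : Type} (u v : Matrix I J R) : Matrix I J R[X] :=
  fun i j => X * C (u i j) - C (v i j)

theorem cor_phi_zero {I J : Type} [Fintype I] (u v : Matrix I J R) (z : I → R[X]) :
    cor (z ᵥ* phi u v) 0 = -(cor z 0 ᵥ* v) := by
  funext j
  show (∑ i, z i * (X * C (u i j) - C (v i j))).coeff 0 = -(∑ i, (z i).coeff 0 * v i j)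
  rw [finsetSum_coeff, ← Finset.sum_neg_distrib]
  refine Finset.sum_congr rfl fun i _ => ?_
  rw [mul_sub, coeff_sub, ← mul_assoc, coeff_mul_C, coeff_mul_C, coeff_mul_X_zero, zero_mul,
    zero_sub]

theorem cor_phi_succ {I J : Type} [Fintype I] (u v : Matrix I J R) (z : I → R[X]) (k : ℕ) :
    cor (z ᵥ* phi u v) (k + 1) = cor z k ᵥ* u - cor z (k + 1) ᵥ* v := by
  funext j
  show (∑ i, z i * (X * C (u i j) - C (v i j))).coeff (k + 1)
    = (∑ i, (z i).coeff k * u i j) - ∑ i, (z i).coeff (k + 1) * v i j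
  rw [finsetSum_coeff, ← Finset.sum_sub_distrib]
  refine Finset.sum_congr rfl fun i _ => ?_
  rw [mul_sub, coeff_sub, ← mul_assoc, coeff_mul_C, coeff_mul_C, coeff_mul_X]

end Coef

section Mod

variable {R : Type} [Ring R] {M : Type} [AddCommGroup M] [Module R M] [Module R[X] M]

/-- Multiplication by `X`. -/
noncomputable def mulX (hc : ∀ (r : R) (m : M), (C r : R[X]) • m = r • m) : M →ₗ[R] M where
  toFun m := (X : R[X]) • m
  map_add' x y := smul_add _ _ _
  map_smul' r m := by
    rw [RingHom.id_apply, ← hc, ← hc, smul_smul, smul_smul, X_mul_C]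

/-- `N' = {n ∈ N | X n ∈ N}`. -/
noncomputable def pr (hc : ∀ (r : R) (m : M), (C r : R[X]) • m = r • m) (N : Submodule R M) :
    Submodule R M := N ⊓ N.comap (mulX hc)

theorem mem_pr (hc : ∀ (r : R) (m : M), (C r : R[X]) • m = r • m) (N : Submodule R M) (m : M) :
    m ∈ pr hc N ↔ m ∈ N ∧ (X : R[X]) • m ∈ N := Iff.rfl

/-- The relations `∑ X^k n_k = 0` between elements of `N` are generated by those of `N'`. -/
def PX (N : Submodule R M) : Prop :=
  ∀ (L : ℕ) (n : ℕ → M), (∀ k, n k ∈ N) → (∀ k, L ≤ k → n k = 0) →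
    ∑ k ∈ Finset.range L, (X ^ k : R[X]) • n k = 0 →
    ∃ n' : ℕ → M, (∀ k, n' k ∈ N ∧ (X : R[X]) • n' k ∈ N) ∧ (∀ k, L ≤ k → n' k = 0) ∧
      n 0 = -((X : R[X]) • n' 0) ∧ ∀ k, n (k + 1) = n' k - (X : R[X]) • n' (k + 1)

/-- The characteristic resolution. -/
theorem chp (hc : ∀ (r : R) (m : M), (C r : R[X]) • m = r • m) (N : Submodule R M)
    (hgen : Submodule.span R[X] (N : Set M) = ⊤) (hPX : PX N)
    (F D : AUL.FC R) (r : Res F N) (s : Res D (pr hc N)) (u v : Matrix D.I F.I R)
    (lu : ∀ x, ((r.pi (x ᵥ* u) : N) : M) = ((s.pi x : pr hc N) : M))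
    (lv : ∀ x, ((r.pi (x ᵥ* v) : N) : M) = (X : R[X]) • ((s.pi x : pr hc N) : M))
    (hP : IsChain (D.map (C : R →+* R[X])) (F.map (C : R →+* R[X])) (phi u v)) :
    Nonempty (Res (cone (F.map (C : R →+* R[X])) (D.map (C : R →+* R[X])) (phi u v) hP) M) := by
  classical
  set P : F.I → M := fun i => ((r.pi (un i) : N) : M) with hPdef
  have hpi : ∀ y : F.I → R, ((r.pi y : N) : M) = ∑ i, y i • P i := by
    intro y
    rw [pi_eq r y, AddSubmonoidClass.coe_finsetSum]
    rfl
  have hpiS : ∀ y : F.I → R, ∑ i, (C (y i) : R[X]) • P i = ((r.pi y : N) : M) := by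
    intro y
    rw [hpi y]
    exact Finset.sum_congr rfl fun i _ => hc _ _
  -- the augmentation in terms of the coefficients
  have hsumK : ∀ (y : F.I → R[X]) (L : ℕ), (∀ k, L ≤ k → cor y k = 0) →
      ∑ i, y i • P i = ∑ k ∈ Finset.range L, (X ^ k : R[X]) • ((r.pi (cor y k) : N) : M) := by
    intro y L hL
    have h1 : ∀ i, y i • P i = ∑ k ∈ Finset.range L, (X ^ k : R[X]) • (cor y k i • P i) := by
      intro i
      have h2 : y i = ∑ k ∈ Finset.range L, X ^ k * C ((y i).coeff k) := by
        have h3 : (y i).natDegree < L ∨ y i = 0 := by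
          by_cases h0 : y i = 0
          · exact Or.inr h0
          · left
            by_contra hlt
            have h4 := congrFun (hL (y i).natDegree (by omega)) i
            have h5 : (y i).coeff (y i).natDegree = 0 := h4
            exact h0 (leadingCoeff_eq_zero.mp h5)
        rcases h3 with h3 | h3
        · conv_lhs => rw [(y i).as_sum_range' L h3]
          refine Finset.sum_congr rfl fun k _ => ?_
          rw [X_pow_mul_C, C_mul_X_pow_eq_monomial]
        · rw [h3]
          simp
      conv_lhs => rw [h2, Finset.sum_smul]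
      refine Finset.sum_congr rfl fun k _ => ?_
      rw [mul_smul, hc]
      rfl
    simp only [h1]
    rw [Finset.sum_comm]
    refine Finset.sum_congr rfl fun k _ => ?_
    rw [← Finset.smul_sum, hpi]
  -- the values on the rows of the differential
  have hrow : ∀ i, ∑ j, (C (F.e i j) : R[X]) • P j = 0 := by
    intro i
    rw [hpiS (fun j => F.e i j)]
    have h : (fun j => F.e i j) = un i ᵥ* F.e := by
      funext j
      change F.e i j = ∑ l, (if i = l then (1 : R) else 0) * F.e l j
      simp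
    rw [h, r.zero]
    rfl
  have hphi : ∀ i, ∑ j, phi u v i j • P j = 0 := by
    intro i
    have h1 : ∀ j, phi u v i j • P j = (X : R[X]) • (C (u i j) : R[X]) • P j
        - (C (v i j) : R[X]) • P j := by
      intro j
      rw [smul_smul, ← sub_smul]
      rfl
    have hu : (fun j => u i j) = un i ᵥ* u := by
      funext j
      change u i j = ∑ l, (if i = l then (1 : R) else 0) * u l j
      simp
    have hv : (fun j => v i j) = un i ᵥ* v := by
      funext j
      change v i j = ∑ l, (if i = l then (1 : R) else 0) * v l j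
      simp
    have h2 : ∑ j, (C (u i j) : R[X]) • P j = ((s.pi (un i) : pr hc N) : M) := by
      rw [hpiS (fun j => u i j), hu, lu]
    have h3 : ∑ j, (C (v i j) : R[X]) • P j = (X : R[X]) • ((s.pi (un i) : pr hc N) : M) := by
      rw [hpiS (fun j => v i j), hv, lv]
    simp only [h1]
    rw [Finset.sum_sub_distrib, ← Finset.smul_sum, h2, h3, sub_self]
  -- plain forms
  set eC : Matrix F.I F.I R[X] := F.e.map (C : R →+* R[X]) with heC
  set eD : Matrix D.I D.I R[X] := D.e.map (C : R →+* R[X]) with heD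
  set Φ : Matrix D.I F.I R[X] := phi u v with hΦ
  have hPdeg : ∀ (i : D.I) (j : F.I), Φ i j ≠ 0 → F.deg j = D.deg i := hP.deg
  have hPcomm : eD * Φ = Φ * eC := hP.comm
  have hCex : ∀ q < 0, ∀ x : F.I → R[X], InDeg F.deg q x → x ᵥ* eC = 0 →
      ∃ y : F.I → R[X], x = y ᵥ* eC := by
    intro q hq x hx h0
    refine lift_coef F.e x fun k => r.isRes.2 q hq _ (inDeg_cor _ _ _ hx k) ?_
    rw [← cor_vecMul, ← heC, h0, cor_zero]
  have hDex : ∀ q < 0, ∀ x : D.I → R[X], InDeg D.deg q x → x ᵥ* eD = 0 →
      ∃ y : D.I → R[X], x = y ᵥ* eD := by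
    intro q hq x hx h0
    refine lift_coef D.e x fun k => s.isRes.2 q hq _ (inDeg_cor _ _ _ hx k) ?_
    rw [← cor_vecMul, ← heD, h0, cor_zero]
  have hDe : ∀ i j, eD i j ≠ 0 → D.deg j = D.deg i + 1 := (D.map (C : R →+* R[X])).he
  have hDle : ∀ i, D.deg i ≤ 0 := s.isRes.1
  -- the augmentation
  let aug : (F.I ⊕ D.I → R[X]) →ₗ[R[X]] M :=
    { toFun := fun x => ∑ i, x (Sum.inl i) • P i
      map_add' := fun x y => by
        simp only [Pi.add_apply, add_smul, Finset.sum_add_distrib]
      map_smul' := fun a x => by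
        simp only [Pi.smul_apply, smul_eq_mul, mul_smul, RingHom.id_apply, Finset.smul_sum] }
  have haug : ∀ x, aug x = ∑ i, x (Sum.inl i) • P i := fun x => rfl
  -- the differential in components
  set E : Matrix (F.I ⊕ D.I) (F.I ⊕ D.I) R[X] := fromBlocks eC 0 Φ (-eD) with hE
  have hmul : ∀ x : F.I ⊕ D.I → R[X], x ᵥ* E =
      Sum.elim ((x ∘ Sum.inl) ᵥ* eC + (x ∘ Sum.inr) ᵥ* Φ) (-((x ∘ Sum.inr) ᵥ* eD)) := by
    intro x
    rw [hE, Matrix.vecMul_fromBlocks, Matrix.vecMul_zero, Matrix.vecMul_neg, zero_add]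
  have hcone : ∀ (q : ℤ) (x : F.I ⊕ D.I → R[X]),
      InDeg (Sum.elim F.deg (fun i => D.deg i - 1)) q x →
      InDeg F.deg q (x ∘ Sum.inl) ∧ InDeg D.deg (q + 1) (x ∘ Sum.inr) := by
    intro q x hx
    constructor
    · intro i hi
      exact hx (Sum.inl i) hi
    · intro i hi
      refine hx (Sum.inr i) ?_
      change D.deg i - 1 ≠ q
      omega
  -- coefficients and the augmentation
  have hcoef0 : ∀ (z : D.I → R[X]), ((r.pi (cor (z ᵥ* Φ) 0) : N) : M) =
      -((X : R[X]) • ((s.pi (cor z 0) : pr hc N) : M)) := by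
    intro z
    rw [hΦ, cor_phi_zero, map_neg, NegMemClass.coe_neg, lv]
  have hcoef : ∀ (z : D.I → R[X]) (k : ℕ), ((r.pi (cor (z ᵥ* Φ) (k + 1)) : N) : M) =
      ((s.pi (cor z k) : pr hc N) : M) - (X : R[X]) • ((s.pi (cor z (k + 1)) : pr hc N) : M) := by
    intro z k
    rw [hΦ, cor_phi_succ, map_sub, AddSubgroupClass.coe_sub, lu, lv]
  -- exactness below degree 0
  have F1 : ∀ q < 0, ∀ x : F.I ⊕ D.I → R[X], InDeg (Sum.elim F.deg (fun i => D.deg i - 1)) q x →
      x ᵥ* E = 0 → ∃ y : F.I ⊕ D.I → R[X], x = y ᵥ* E := by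
    intro q hq x hx hxe
    obtain ⟨hx1, hx2⟩ := hcone q x hx
    rw [hmul x] at hxe
    have e1 : (x ∘ Sum.inl) ᵥ* eC + (x ∘ Sum.inr) ᵥ* Φ = 0 := by
      funext i
      exact congrFun hxe (Sum.inl i)
    have e2 : (x ∘ Sum.inr) ᵥ* eD = 0 := by
      funext i
      have := congrFun hxe (Sum.inr i)
      exact neg_eq_zero.mp this
    have hz : ∃ z : D.I → R[X], x ∘ Sum.inr = z ᵥ* eD := by
      by_cases hq1 : q + 1 < 0
      · exact hDex (q + 1) hq1 _ hx2 e2
      · have hq0 : q + 1 = 0 := by omega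
        rw [hq0] at hx2
        -- the images vanish
        have hA : ∀ k, ((s.pi (cor (x ∘ Sum.inr) k) : pr hc N) : M) =
            (X : R[X]) • ((s.pi (cor (x ∘ Sum.inr) (k + 1)) : pr hc N) : M) := by
          intro k
          have hk := cor_add ((x ∘ Sum.inl) ᵥ* eC) ((x ∘ Sum.inr) ᵥ* Φ) (k + 1)
          rw [e1, cor_zero, heC, cor_vecMul (x ∘ Sum.inl) F.e (k + 1)] at hk
          have hk3 := congrArg (fun w => ((r.pi w : N) : M)) hk
          simp only [map_add, map_zero, r.zero, zero_add] at hk3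
          rw [hcoef] at hk3
          exact sub_eq_zero.mp hk3.symm
        obtain ⟨K, hK⟩ := cor_bdd (x ∘ Sum.inr)
        have hzero : ∀ (n : ℕ), ∀ k, K ≤ k + n →
            ((s.pi (cor (x ∘ Sum.inr) k) : pr hc N) : M) = 0 := by
          intro n
          induction n with
          | zero =>
            intro k hk
            rw [hK k hk, map_zero]
            rfl
          | succ n ih =>
            intro k hk
            rw [hA, ih (k + 1) (by omega), smul_zero]
        have hall : ∀ k, s.pi (cor (x ∘ Sum.inr) k) = 0 := by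
          intro k
          exact Subtype.ext (hzero K k (by omega))
        exact lift_coef D.e _ fun k =>
          s.ker _ (inDeg_cor D.deg 0 _ hx2 k) (hall k)
    obtain ⟨z, hz⟩ := hz
    -- reduce `z` to degree `q`
    have hzq : x ∘ Sum.inr = part D.deg q z ᵥ* eD := by
      have := CHRM.part_vecMul D.deg eD hDe q z
      rw [← hz, part_of_inDeg _ _ _ hx2] at this
      exact this
    set z' : D.I → R[X] := part D.deg q z with hz'
    have hz'd : InDeg D.deg q z' := inDeg_part _ _ _
    have e3 : (x ∘ Sum.inl + z' ᵥ* Φ) ᵥ* eC = 0 := by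
      rw [Matrix.add_vecMul, Matrix.vecMul_vecMul, ← hPcomm, ← Matrix.vecMul_vecMul, ← hzq, e1]
    obtain ⟨y, hy⟩ := hCex q hq (x ∘ Sum.inl + z' ᵥ* Φ)
      (inDeg_add _ _ _ _ hx1 (inDeg_vecMul D.deg F.deg Φ hPdeg q z' hz'd)) e3
    refine ⟨Sum.elim y (-z'), ?_⟩
    rw [hmul]
    funext i
    rcases i with i | i
    · have h := congrFun hy i
      change x (Sum.inl i) + (z' ᵥ* Φ) i = (y ᵥ* eC) i at h
      change x (Sum.inl i) = (y ᵥ* eC) i + ((-z') ᵥ* Φ) i
      rw [Matrix.neg_vecMul, Pi.neg_apply, ← h]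
      abel
    · have h := congrFun hzq i
      change x (Sum.inr i) = (z' ᵥ* eD) i at h
      change x (Sum.inr i) = -(((-z') ᵥ* eD) i)
      rw [Matrix.neg_vecMul, Pi.neg_apply, neg_neg, h]
  have F2 : ∀ (q : ℤ) (x : F.I ⊕ D.I → R[X]), q ≠ 0 →
      InDeg (Sum.elim F.deg (fun i => D.deg i - 1)) q x → aug x = 0 := by
    intro q x hq hx
    rw [haug]
    refine Finset.sum_eq_zero fun i _ => ?_
    by_cases h : F.deg i = 0
    · have : x (Sum.inl i) = 0 := (hcone q x hx).1 i (by omega)
      rw [this, zero_smul]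
    · have : P i = 0 := by
        rw [hPdef]
        change ((r.pi (un i) : N) : M) = 0
        rw [pi_un r i h]
        rfl
      rw [this, smul_zero]
  have F3 : Function.Surjective aug := by
    rw [← LinearMap.range_eq_top, eq_top_iff, ← hgen]
    apply Submodule.span_le.mpr
    intro n hn
    obtain ⟨y, hy⟩ := r.surj ⟨n, hn⟩
    refine ⟨Sum.elim (fun i => C (y i)) 0, ?_⟩
    rw [haug]
    change ∑ i, (C (y i) : R[X]) • P i = n
    rw [hpiS, hy]
  have F4 : ∀ y : F.I ⊕ D.I → R[X], aug (y ᵥ* E) = 0 := by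
    intro y
    rw [haug, hmul]
    change ∑ i, (((y ∘ Sum.inl) ᵥ* eC) i + ((y ∘ Sum.inr) ᵥ* Φ) i) • P i = 0
    simp only [add_smul]
    rw [Finset.sum_add_distrib, smul_vecMul', smul_vecMul']
    have a1 : ∑ i : F.I, (y ∘ Sum.inl) i • ∑ j, eC i j • P j = 0 := by
      refine Finset.sum_eq_zero fun i _ => ?_
      rw [show ∑ j, eC i j • P j = 0 from hrow i, smul_zero]
    have a2 : ∑ i, (y ∘ Sum.inr) i • ∑ j, Φ i j • P j = 0 := by
      refine Finset.sum_eq_zero fun i _ => ?_
      rw [hphi i, smul_zero]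
    rw [a1, a2, add_zero]
  have F5 : ∀ x : F.I ⊕ D.I → R[X], InDeg (Sum.elim F.deg (fun i => D.deg i - 1)) 0 x →
      aug x = 0 → ∃ y : F.I ⊕ D.I → R[X], x = y ᵥ* E := by
    intro x hx hx0
    obtain ⟨hx1, hx2⟩ := hcone 0 x hx
    have hxr : x ∘ Sum.inr = 0 := by
      funext i
      exact hx2 i (by have := hDle i; omega)
    obtain ⟨L, hL⟩ := cor_bdd (x ∘ Sum.inl)
    obtain ⟨n', hn', hn'L, hn0, hn1⟩ := hPX L
      (fun k => ((r.pi (cor (x ∘ Sum.inl) k) : N) : M)) (fun k => (r.pi _).2) (fun k hk => by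
        show ((r.pi (cor (x ∘ Sum.inl) k) : N) : M) = 0
        rw [hL k hk, map_zero]
        rfl) (by
        rw [← hsumK (x ∘ Sum.inl) L hL]
        exact hx0)
    -- preimages
    have hzk : ∀ k, ∃ z : D.I → R, InDeg D.deg 0 z ∧ ((s.pi z : pr hc N) : M) = n' k ∧
        (n' k = 0 → z = 0) := by
      intro k
      by_cases h0 : n' k = 0
      · refine ⟨0, fun _ _ => rfl, ?_, fun _ => rfl⟩
        rw [map_zero, h0]
        rfl
      · obtain ⟨z, hz⟩ := s.surj ⟨n' k, hn' k⟩
        refine ⟨part D.deg 0 z, inDeg_part _ _ _, ?_, fun h => absurd h h0⟩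
        rw [CHRM.pi_part, hz]
    choose zk hz1 hz2 hz3 using hzk
    obtain ⟨z, hz⟩ := cor_mk zk L (fun k hk => hz3 k (hn'L k hk))
    have hzd : InDeg D.deg 0 z := by
      intro i hi
      ext k
      rw [coeff_zero]
      have h := congrFun (hz k) i
      change (z i).coeff k = zk k i at h
      rw [h]
      exact hz1 k i hi
    have hker : ∀ k, ∃ y : F.I → R, cor (x ∘ Sum.inl - z ᵥ* Φ) k = y ᵥ* F.e := by
      intro k
      apply r.ker
      · exact inDeg_cor F.deg 0 _ (inDeg_sub _ _ _ _ hx1
          (inDeg_vecMul D.deg F.deg Φ hPdeg 0 z hzd)) k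
      · apply Subtype.ext
        cases k with
        | zero =>
          rw [cor_sub, map_sub, AddSubgroupClass.coe_sub, hcoef0, hz, hz2]
          rw [show ((r.pi (cor (x ∘ Sum.inl) 0) : N) : M) = _ from hn0]
          simp
        | succ k =>
          rw [cor_sub, map_sub, AddSubgroupClass.coe_sub, hcoef, hz, hz, hz2, hz2]
          rw [show ((r.pi (cor (x ∘ Sum.inl) (k + 1)) : N) : M) = _ from hn1 k]
          simp
    obtain ⟨y, hy⟩ := lift_coef F.e _ hker
    refine ⟨Sum.elim y z, ?_⟩
    rw [hmul]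
    funext i
    rcases i with i | i
    · have h := congrFun hy i
      change x (Sum.inl i) - (z ᵥ* Φ) i = (y ᵥ* eC) i at h
      change x (Sum.inl i) = (y ᵥ* eC) i + (z ᵥ* Φ) i
      rw [← h]
      abel
    · have h := congrFun hxr i
      change x (Sum.inr i) = 0 at h
      change x (Sum.inr i) = -((z ᵥ* eD) i)
      rw [h]
      symm
      rw [neg_eq_zero]
      change ∑ l, z l * eD l i = 0
      refine Finset.sum_eq_zero fun l _ => ?_
      by_cases hl : D.deg l = 0
      · have : eD l i = 0 := by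
          by_contra hne
          have h1 := hDe l i hne
          have h2 := hDle i
          omega
        rw [this, mul_zero]
      · rw [hzd l hl, zero_mul]
  refine ⟨⟨aug, ⟨?_, F1⟩, F2, F3, F4, F5⟩⟩
  rintro (i | i)
  · exact r.isRes.1 i
  · have := hDle i
    change D.deg i - 1 ≤ 0
    omega

/-- The coefficients of the entries of the row `f` vanish above `w`. -/
def Low {I : Type} (w : ℕ) (f : I → R[X]) : Prop := ∀ i j, w < j → (f i).coeff j = 0

/-- Existence of `N` with the property `PX`. -/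
theorem exn (hc : ∀ (r : R) (m : M), (C r : R[X]) • m = r • m) [IsNoetherianRing R[X]]
    [Module.Finite R[X] M] :
    ∃ N : Submodule R M, N.FG ∧ Submodule.span R[X] (N : Set M) = ⊤ ∧ PX N := by
  classical
  obtain ⟨m, p, hp⟩ := Module.Finite.exists_fin (R := R[X]) (M := M)
  -- the relations
  let g : (Fin m → R[X]) →ₗ[R[X]] M :=
    { toFun := fun f => ∑ i, f i • p i
      map_add' := fun f f' => by
        simp only [Pi.add_apply, add_smul, Finset.sum_add_distrib]
      map_smul' := fun a f => by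
        simp only [Pi.smul_apply, smul_eq_mul, mul_smul, RingHom.id_apply, Finset.smul_sum] }
  have hg : ∀ f, g f = ∑ i, f i • p i := fun f => rfl
  obtain ⟨κ, hκ⟩ := (IsNoetherian.noetherian (LinearMap.ker g) : (LinearMap.ker g).FG)
  -- a bound for the degrees of the relations
  obtain ⟨w, hw⟩ : ∃ w : ℕ, ∀ x ∈ κ, Low w x := by
    refine ⟨κ.sup fun x => Finset.univ.sup fun i => (x i).natDegree, fun x hx i j hj => ?_⟩
    refine coeff_eq_zero_of_natDegree_lt (lt_of_le_of_lt ?_ hj)
    refine le_trans ?_ (Finset.le_sup (f := fun x : Fin m → R[X] =>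
      Finset.univ.sup fun i => (x i).natDegree) hx)
    exact Finset.le_sup (f := fun i => (x i).natDegree) (Finset.mem_univ i)
  -- `N`
  let N : Submodule R M := Submodule.span R
    (Set.range fun q : Fin m × Fin (w + 1) => (X ^ (q.2 : ℕ) : R[X]) • p q.1)
  have hN1 : ∀ n ∈ N, ∃ f : Fin m → R[X], Low w f ∧ n = g f := by
    intro n hn
    induction hn using Submodule.span_induction with
    | mem x hx =>
      obtain ⟨⟨i, j⟩, rfl⟩ := hx
      refine ⟨Pi.single i (X ^ (j : ℕ)), fun i' j' hj' => ?_, ?_⟩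
      · by_cases h : i' = i
        · subst h
          rw [Pi.single_eq_same, coeff_X_pow, if_neg]
          have := j.2
          omega
        · rw [Pi.single_eq_of_ne h, coeff_zero]
      · rw [hg, Finset.sum_eq_single i]
        · rw [Pi.single_eq_same]
        · intro b _ hb
          rw [Pi.single_eq_of_ne hb, zero_smul]
        · intro h
          exact absurd (Finset.mem_univ i) h
    | zero => exact ⟨0, fun i j _ => coeff_zero _, by rw [map_zero]⟩
    | add x y _ _ hx hy =>
      obtain ⟨f, hf, rfl⟩ := hx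
      obtain ⟨f', hf', rfl⟩ := hy
      refine ⟨f + f', fun i j hj => ?_, by rw [map_add]⟩
      rw [Pi.add_apply, coeff_add, hf i j hj, hf' i j hj, add_zero]
    | smul a x _ hx =>
      obtain ⟨f, hf, rfl⟩ := hx
      refine ⟨(C a : R[X]) • f, fun i j hj => ?_, by rw [map_smul, hc]⟩
      rw [Pi.smul_apply, smul_eq_mul, coeff_C_mul, hf i j hj, mul_zero]
  have hN2 : ∀ f : Fin m → R[X], Low w f → g f ∈ N := by
    intro f hf
    rw [hg]
    refine Submodule.sum_mem _ fun i _ => ?_
    have h1 : f i = ∑ j ∈ Finset.range (w + 1), C ((f i).coeff j) * X ^ j :=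
      (f i).as_sum_range_C_mul_X_pow' (by
        rw [Nat.lt_succ_iff, natDegree_le_iff_coeff_eq_zero]
        exact fun j hj => hf i j hj)
    rw [h1, Finset.sum_smul]
    refine Submodule.sum_mem _ fun j hj => ?_
    rw [mul_smul, hc]
    refine Submodule.smul_mem _ _ (Submodule.subset_span ⟨(i, ⟨j, ?_⟩), rfl⟩)
    exact Finset.mem_range.mp hj
  refine ⟨N, Submodule.fg_span (Set.finite_range _), ?_, ?_⟩
  · rw [eq_top_iff, ← hp]
    refine Submodule.span_mono ?_
    rintro _ ⟨i, rfl⟩
    refine Submodule.subset_span ⟨(i, 0), ?_⟩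
    simp
  -- the relations above degree `w + k`
  have hker : ∀ F ∈ LinearMap.ker g, ∀ k : ℕ, ∃ h ∈ LinearMap.ker g, ∀ i j, w + k ≤ j →
      (F i).coeff j = (X ^ k * h i).coeff j := by
    intro F hF
    rw [← hκ] at hF
    induction hF using Submodule.span_induction with
    | mem x hx =>
      intro k
      cases k with
      | zero =>
        refine ⟨x, ?_, fun i j _ => by rw [pow_zero, one_mul]⟩
        rw [← hκ]
        exact Submodule.subset_span hx
      | succ k =>
        refine ⟨0, Submodule.zero_mem _, fun i j hj => ?_⟩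
        rw [Pi.zero_apply, mul_zero, coeff_zero]
        exact hw x hx i j (by omega)
    | zero => exact fun k => ⟨0, Submodule.zero_mem _, fun i j _ => by
        rw [Pi.zero_apply, mul_zero]⟩
    | add x y _ _ hx hy =>
      intro k
      obtain ⟨h, hh, e⟩ := hx k
      obtain ⟨h', hh', e'⟩ := hy k
      refine ⟨h + h', Submodule.add_mem _ hh hh', fun i j hj => ?_⟩
      rw [Pi.add_apply, Pi.add_apply, mul_add, coeff_add, coeff_add, e i j hj, e' i j hj]
    | smul a x _ hx =>
      -- closed under multiplication by `a`, by induction on `a`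
      have hX : ∀ (n : ℕ) (c : R) (k : ℕ), ∃ h ∈ LinearMap.ker g, ∀ i j, w + k ≤ j →
          ((monomial n c * x i : R[X])).coeff j = (X ^ k * h i).coeff j := by
        intro n
        induction n with
        | zero =>
          intro c k
          obtain ⟨h, hh, e⟩ := hx k
          refine ⟨(C c : R[X]) • h, Submodule.smul_mem _ _ hh, fun i j hj => ?_⟩
          rw [monomial_zero_left, coeff_C_mul, e i j hj, Pi.smul_apply, smul_eq_mul, ← mul_assoc,
            X_pow_mul_C, mul_assoc, coeff_C_mul]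
        | succ n ih =>
          intro c k
          have hmon : ∀ i, monomial (n + 1) c * x i = X * (monomial n c * x i) := by
            intro i
            rw [← mul_assoc, X_mul_monomial]
          cases k with
          | zero =>
            obtain ⟨h, hh, e⟩ := ih c 0
            refine ⟨(monomial (n + 1) c : R[X]) • x, ?_, fun i j _ => by
              rw [pow_zero, one_mul, Pi.smul_apply, smul_eq_mul]⟩
            refine Submodule.smul_mem _ _ ?_
            rw [← hκ]
            assumption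
          | succ k =>
            obtain ⟨h, hh, e⟩ := ih c k
            refine ⟨h, hh, fun i j hj => ?_⟩
            obtain ⟨j', rfl⟩ : ∃ j', j = j' + 1 := ⟨j - 1, by omega⟩
            rw [hmon, coeff_X_mul, e i j' (by omega), pow_succ', mul_assoc, coeff_X_mul]
      induction a using Polynomial.induction_on' with
      | add a b ha hb =>
        intro k
        obtain ⟨h, hh, e⟩ := ha k
        obtain ⟨h', hh', e'⟩ := hb k
        refine ⟨h + h', Submodule.add_mem _ hh hh', fun i j hj => ?_⟩
        rw [add_smul, Pi.add_apply, Pi.add_apply, mul_add, coeff_add, coeff_add, e i j hj,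
          e' i j hj]
      | monomial n c =>
        intro k
        obtain ⟨h, hh, e⟩ := hX n c k
        refine ⟨h, hh, fun i j hj => ?_⟩
        rw [Pi.smul_apply, smul_eq_mul]
        exact e i j hj
  -- the property `PX`
  intro L n hn hL hsum
  have hf : ∀ k, ∃ f : Fin m → R[X], Low w f ∧ n k = g f ∧ (L ≤ k → f = 0) := by
    intro k
    by_cases hk : L ≤ k
    · exact ⟨0, fun i j _ => coeff_zero _, by rw [hL k hk, map_zero], fun _ => rfl⟩
    · obtain ⟨f, hf, e⟩ := hN1 (n k) (hn k)
      exact ⟨f, hf, e, fun h => absurd h hk⟩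
  choose f hf1 hf2 hf3 using hf
  -- the tails
  let G : ℕ → Fin m → R[X] := fun k => ∑ j ∈ Finset.range L, (X ^ j : R[X]) • f (k + j)
  have hG : ∀ k, G k = f k + (X : R[X]) • G (k + 1) := by
    intro k
    have h1 : (X : R[X]) • G (k + 1) = ∑ j ∈ Finset.range L, (X ^ (j + 1) : R[X]) • f (k + (j + 1)) := by
      show (X : R[X]) • ∑ j ∈ Finset.range L, (X ^ j : R[X]) • f (k + 1 + j) = _
      rw [Finset.smul_sum]
      refine Finset.sum_congr rfl fun j _ => ?_
      rw [smul_smul, ← pow_succ', show k + 1 + j = k + (j + 1) by omega]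
    have h2 := Finset.sum_range_succ' (fun j => (X ^ j : R[X]) • f (k + j)) L
    rw [Finset.sum_range_succ] at h2
    have h3 : f (k + L) = 0 := hf3 _ (by omega)
    simp only [h3, smul_zero, add_zero, pow_zero, one_smul] at h2
    rw [h1, add_comm]
    exact h2
  have hG0 : ∀ k, L ≤ k → G k = 0 := by
    intro k hk
    refine Finset.sum_eq_zero fun j _ => ?_
    rw [hf3 (k + j) (by omega), smul_zero]
  have hGker : G 0 ∈ LinearMap.ker g := by
    rw [LinearMap.mem_ker, map_sum, ← hsum]
    refine Finset.sum_congr rfl fun j _ => ?_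
    rw [map_smul, zero_add, hf2]
  have hhigh : ∀ k i j, w + k ≤ j → (G 0 i).coeff j = (X ^ k * G k i).coeff j := by
    intro k
    induction k with
    | zero =>
      intro i j _
      rw [pow_zero, one_mul]
    | succ k ih =>
      intro i j hj
      rw [ih i j (by omega), hG k, Pi.add_apply, mul_add, coeff_add]
      have h1 : (X ^ k * f k i).coeff j = 0 := by
        obtain ⟨j', rfl⟩ : ∃ j', j = j' + k := ⟨j - k, by omega⟩
        rw [coeff_X_pow_mul, hf1 k i j' (by omega)]
      rw [h1, zero_add, Pi.smul_apply, smul_eq_mul, ← mul_assoc, ← pow_succ]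
  have hGN : ∀ k, g (G k) ∈ N := by
    intro k
    obtain ⟨h, hh, e⟩ := hker (G 0) hGker k
    have h1 : g (G k) = g (G k - h) := by
      rw [map_sub, LinearMap.mem_ker.mp hh, sub_zero]
    rw [h1]
    refine hN2 _ fun i j hj => ?_
    have h2 := hhigh k i (j + k) (by omega)
    rw [e i (j + k) (by omega), coeff_X_pow_mul, coeff_X_pow_mul] at h2
    rw [Pi.sub_apply, coeff_sub, h2, sub_self]
  have hstep : ∀ k, g (G k) = n k + (X : R[X]) • g (G (k + 1)) := by
    intro k
    rw [hG k, map_add, map_smul, ← hf2]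
  refine ⟨fun k => g (G (k + 1)), fun k => ⟨hGN _, ?_⟩, fun k hk => ?_, ?_, fun k => ?_⟩
  · have h1 : (X : R[X]) • g (G (k + 1)) = g (G k) - n k := by
      rw [hstep k]
      abel
    rw [h1]
    exact Submodule.sub_mem _ (hGN k) (hn k)
  · show g (G (k + 1)) = 0
    rw [hG0 (k + 1) (by omega), map_zero]
  · have h1 := hstep 0
    rw [LinearMap.mem_ker.mp hGker] at h1
    exact eq_neg_of_add_eq_zero_left h1.symm
  · have h1 := hstep (k + 1)
    show n (k + 1) = g (G (k + 1)) - (X : R[X]) • g (G (k + 1 + 1))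
    rw [h1]
    abel

end Mod

/-- **Hilbert's syzygy theorem.** -/
theorem hilp (R : Type) [Ring R] [IsNoetherianRing R] [IsNoetherianRing R[X]] (d : ℕ)
    (hR : FinRes R d) : FinRes R[X] (d + 1) := by
  intro M _ _ hfin
  let _ : Module R M := Module.compHom M (C : R →+* R[X])
  have hc : ∀ (r : R) (m : M), (C r : R[X]) • m = r • m := fun r m => rfl
  have := hfin
  obtain ⟨N, hN, hgen, hPX⟩ := exn (M := M) hc
  have hN' : (pr hc N).FG := by
    have : IsNoetherian R N := isNoetherian_of_fg_of_noetherian N hN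
    have h1 : ((pr hc N).submoduleOf N).FG := IsNoetherian.noetherian _
    have h2 := h1.map N.subtype
    have h3 : ((pr hc N).submoduleOf N).map N.subtype = pr hc N := by
      rw [Submodule.submoduleOf, Submodule.map_comap_subtype]
      exact inf_eq_right.mpr inf_le_left
    rw [h3] at h2
    exact h2
  have f1 : Module.Finite R N := Module.Finite.iff_fg.mpr hN
  have f2 : Module.Finite R (pr hc N) := Module.Finite.iff_fg.mpr hN'
  obtain ⟨F, ⟨r⟩, hF⟩ := hR N f1
  obtain ⟨D, ⟨s⟩, hD⟩ := hR (pr hc N) f2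
  -- the lifts
  obtain ⟨u, hu, lu⟩ := specLFT R D F (pr hc N) N s r (Submodule.inclusion inf_le_left)
  let fX : pr hc N →ₗ[R] N := ((mulX hc).domRestrict (pr hc N)).codRestrict N
    (fun n => n.2.2)
  obtain ⟨v, hv, lv⟩ := specLFT R D F (pr hc N) N s r fX
  have hP : IsChain (D.map (C : R →+* R[X])) (F.map (C : R →+* R[X])) (phi u v) := by
    refine ⟨fun i j h => ?_, ?_⟩
    · show F.deg j = D.deg i
      by_cases h1 : u i j = 0
      · by_cases h2 : v i j = 0
        · exfalso
          apply h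
          show X * C (u i j) - C (v i j) = 0
          rw [h1, h2, map_zero, mul_zero, sub_zero]
        · exact hv.deg i j h2
      · exact hu.deg i j h1
    · ext i j : 1
      show ∑ k, C (D.e i k) * (X * C (u k j) - C (v k j))
        = ∑ k, (X * C (u i k) - C (v i k)) * C (F.e k j)
      have h1 : ∑ k, C (D.e i k) * (X * C (u k j) - C (v k j))
          = X * C ((D.e * u) i j) - C ((D.e * v) i j) := by
        rw [Matrix.mul_apply, Matrix.mul_apply, map_sum, map_sum, Finset.mul_sum,
          ← Finset.sum_sub_distrib]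
        refine Finset.sum_congr rfl fun k _ => ?_
        rw [mul_sub, C_mul, C_mul, ← mul_assoc, ← X_mul_C, mul_assoc]
      have h2 : ∑ k, (X * C (u i k) - C (v i k)) * C (F.e k j)
          = X * C ((u * F.e) i j) - C ((v * F.e) i j) := by
        rw [Matrix.mul_apply, Matrix.mul_apply, map_sum, map_sum, Finset.mul_sum,
          ← Finset.sum_sub_distrib]
        refine Finset.sum_congr rfl fun k _ => ?_
        rw [sub_mul, C_mul, C_mul, mul_assoc]
      rw [h1, h2, hu.comm, hv.comm]
  obtain ⟨res⟩ := chp hc N hgen hPX F D r s u v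
    (fun x => by
      rw [lu x]
      rfl)
    (fun x => by
      rw [lv x]
      rfl) hP
  refine ⟨_, ⟨res⟩, ?_⟩
  rintro (i | i)
  · have := hF i
    show -((d + 1 : ℕ) : ℤ) ≤ F.deg i
    push_cast
    omega
  · have := hD i
    show -((d + 1 : ℕ) : ℤ) ≤ D.deg i - 1
    push_cast
    omega

/-- `R[X]` is noetherian and has finite free resolutions of length `≤ d + 1`. -/
theorem finres_pol (R : Type) [Ring R] (hN : IsNoetherianRing R) (d : ℕ) (hR : FinRes R d) :
    IsNoetherianRing R[X] ∧ FinRes R[X] (d + 1) := by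
  have h1 : IsNoetherianRing R[X] := CR.noep R
  exact ⟨h1, hilp R d hR⟩

end Pool.Agent.Lib.MP8a3537.CRH
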