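import Pool.Agent.Lib.MP_8a3537_gt.CR.POL

/-!
# Coefficient rings (MP_8a3537_gt, folder CR): localization at two (helper73)
-/

set_option autoImplicit false
set_option linter.unusedSectionVars false

namespace Pool.Agent.Lib.MP8a3537.CR

open Matrix Pool.Agent.Lib.MP8a3537.UV

/-- `j : R → R'` is the localization at the set `S` of central self-adjoint elements of `R`, and
the elements of `S` are invertible modulo `2`. -/
structure Loc {R R' : Type*} [Ring R] [StarRing R] [Ring R'] [StarRing R'] (S : Submonoid (zp R))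
    (j : R →+* R') : Prop where
  st : ∀ r, j (star r) = star (j r)
  unit : ∀ s ∈ S, IsUnit (j s.1)
  surj : ∀ x : R', ∃ s ∈ S, ∃ r : R, j s.1 * x = j r
  ker : ∀ r : R, j r = 0 → ∃ s ∈ S, s.1 * r = 0
  two : ∀ s ∈ S, ∃ s' c : zp R, s * s' = 1 + 2 * c

section Ev

variable {R : Type*} [Ring R] [StarRing R] (S : Submonoid (zp R))

/-- `P` holds for all multiples of some element of `S`. -/
def Evt (P : zp R → Prop) : Prop := ∃ s ∈ S, ∀ s' ∈ S, P (s * s')

variable {S}

theorem Evt.mono {P Q : zp R → Prop} (h : Evt S P) (hPQ : ∀ s ∈ S, P s → Q s) : Evt S Q := by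
  obtain ⟨s, hs, h⟩ := h
  exact ⟨s, hs, fun s' hs' => hPQ _ (S.mul_mem hs hs') (h s' hs')⟩

theorem Evt.and {P Q : zp R → Prop} (h : Evt S P) (h' : Evt S Q) : Evt S fun s => P s ∧ Q s := by
  obtain ⟨s, hs, h⟩ := h
  obtain ⟨t, ht, h'⟩ := h'
  refine ⟨s * t, S.mul_mem hs ht, fun r hr => ⟨?_, ?_⟩⟩
  · have := h (t * r) (S.mul_mem ht hr)
    rwa [← mul_assoc] at this
  · have := h' (s * r) (S.mul_mem hs hr)
    rwa [← mul_assoc, mul_comm t s] at this

theorem Evt.of_all {P : zp R → Prop} (h : ∀ s ∈ S, P s) : Evt S P :=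
  ⟨1, S.one_mem, fun s hs => by rw [one_mul]; exact h s hs⟩

theorem Evt.finset {α : Type*} (t : Finset α) {P : α → zp R → Prop}
    (h : ∀ a ∈ t, Evt S (P a)) : Evt S fun s => ∀ a ∈ t, P a s := by
  classical
  induction t using Finset.induction_on with
  | empty => exact Evt.of_all fun s _ a ha => absurd ha (Finset.notMem_empty a)
  | insert b t hb ih =>
    refine Evt.mono (Evt.and (h b (Finset.mem_insert_self b t))
      (ih fun a ha => h a (Finset.mem_insert_of_mem ha))) ?_
    rintro s - ⟨h1, h2⟩ a ha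
    rcases Finset.mem_insert.1 ha with rfl | ha
    · exact h1
    · exact h2 a ha

theorem Evt.all {α : Type*} [Fintype α] {P : α → zp R → Prop} (h : ∀ a, Evt S (P a)) :
    Evt S fun s => ∀ a, P a s :=
  Evt.mono (Evt.finset Finset.univ fun a _ => h a) fun _ _ h a => h a (Finset.mem_univ a)

theorem Evt.exists {P : zp R → Prop} (h : Evt S P) : ∃ s ∈ S, P s := by
  obtain ⟨s, hs, h⟩ := h
  exact ⟨s * 1, S.mul_mem hs S.one_mem, h 1 S.one_mem⟩

end Ev

section Lift

open Polynomial

variable {R R' G : Type} [Ring R] [StarRing R] [Ring R'] [StarRing R'] [Group G]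
  {S : Submonoid (zp R)} {j : R →+* R'} (hj : Loc S j)

include hj

/-- The image of `s`. -/
theorem zp_mem (s : zp R) (hs : s ∈ S) : j s.1 ∈ zp R' := by
  refine ⟨fun a => ?_, ?_⟩
  · obtain ⟨t, ht, r, hr⟩ := hj.surj a
    have h1 : j t.1 * (a * j s.1) = j t.1 * (j s.1 * a) := by
      have e1 : t.1 * s.1 = s.1 * t.1 := s.2.1 t.1
      rw [← mul_assoc, hr, ← map_mul, s.2.1, map_mul, ← hr, ← mul_assoc, ← mul_assoc, ← map_mul,
        ← map_mul, e1]
    exact (hj.unit t ht).mul_left_cancel h1
  · rw [← hj.st, s.2.2]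

/-- `j s` as an element of `zp R'`, for `s` in `S` (and `0` otherwise). -/
noncomputable def jz (s : zp R) (hs : s ∈ S) : zp R' := ⟨j s.1, zp_mem hj s hs⟩

/-- The common denominators: one coefficient. -/
theorem lift_coeff (x : R') (i : ℕ) (hi : i ≠ 0) :
    Evt S fun s => ∃ r : R, j r = j s.1 ^ i * x := by
  obtain ⟨s, hs, r, hr⟩ := hj.surj x
  refine ⟨s, hs, fun s' _ => ?_⟩
  obtain ⟨k, rfl⟩ := Nat.exists_eq_succ_of_ne_zero hi
  refine ⟨(s * s').1 ^ k * (s'.1 * r), ?_⟩
  have e1 : (s * s').1 = s'.1 * s.1 := s.2.1 s'.1 |>.symm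
  rw [map_mul, map_mul, map_pow, ← hr, pow_succ, mul_assoc]
  congr 1
  rw [e1, map_mul, mul_assoc]

/-- Polynomials without constant term. -/
theorem lift_poly (p : R'[X]) (hp : p.coeff 0 = 0) :
    Evt S fun s => ∃ q : R[X], (∀ n, j (q.coeff n) = j s.1 ^ n * p.coeff n) ∧ q.coeff 0 = 0 := by
  have h := Evt.finset (S := S) p.support
    (P := fun i s => ∃ r : R, j r = j s.1 ^ i * p.coeff i) fun i hi => by
      refine lift_coeff hj _ i fun h0 => ?_
      rw [h0, mem_support_iff] at hi
      exact hi hp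
  refine Evt.mono h ?_
  intro s _ hs
  classical
  choose! f hf using hs
  refine ⟨∑ i ∈ p.support, monomial i (f i), fun n => ?_, ?_⟩
  · rw [finsetSum_coeff]
    simp only [coeff_monomial]
    rw [Finset.sum_ite_eq']
    split_ifs with h
    · exact hf n h
    · rw [notMem_support_iff.1 h, mul_zero, map_zero]
  · rw [finsetSum_coeff]
    simp only [coeff_monomial]
    rw [Finset.sum_ite_eq', if_neg]
    intro h0
    exact mem_support_iff.1 h0 hp

/-- Elements of the group ring without constant term. -/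
theorem lift_gr (x : MonoidAlgebra R'[X] G) (hx : ∀ g, (x.coeff g).coeff 0 = 0) :
    Evt S fun s => ∃ y : MonoidAlgebra R[X] G,
      (∀ g n, j ((y.coeff g).coeff n) = j s.1 ^ n * (x.coeff g).coeff n) ∧
      ∀ g, (y.coeff g).coeff 0 = 0 := by
  classical
  have h := Evt.finset (S := S) x.coeff.support
    (P := fun g s => ∃ q : R[X], (∀ n, j (q.coeff n) = j s.1 ^ n * (x.coeff g).coeff n) ∧
      q.coeff 0 = 0) fun g _ => lift_poly hj _ (hx g)
  refine Evt.mono h ?_
  intro s _ hs
  choose! f hf using hs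
  have hc : ∀ g, (∑ a ∈ x.coeff.support, MonoidAlgebra.single a (f a)).coeff g =
      if g ∈ x.coeff.support then f g else 0 := by
    intro g
    have h1 : ∀ t : Finset G, (∑ a ∈ t, MonoidAlgebra.single a (f a)).coeff g =
        if g ∈ t then f g else 0 := by
      intro t
      induction t using Finset.induction_on with
      | empty => simp
      | insert a t ha ih =>
        rw [Finset.sum_insert ha, MonoidAlgebra.coeff_add, Finsupp.add_apply, ih,
          MonoidAlgebra.coeff_single_apply]
        by_cases hga : a = g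
        · subst hga
          rw [if_pos rfl, if_neg ha, if_pos (Finset.mem_insert_self _ _), add_zero]
        · rw [if_neg hga, zero_add]
          by_cases hgt : g ∈ t
          · rw [if_pos hgt, if_pos (Finset.mem_insert_of_mem hgt)]
          · rw [if_neg hgt, if_neg]
            intro h2
            rcases Finset.mem_insert.1 h2 with h2 | h2
            · exact hga h2.symm
            · exact hgt h2
    exact h1 _
  refine ⟨∑ a ∈ x.coeff.support, MonoidAlgebra.single a (f a), fun g n => ?_, fun g => ?_⟩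
  · rw [hc]
    split_ifs with h
    · exact (hf g h).1 n
    · rw [Finsupp.notMem_support_iff.1 h, coeff_zero, coeff_zero, mul_zero, map_zero]
  · rw [hc]
    split_ifs with h
    · exact (hf g h).2
    · exact coeff_zero 0

end Lift

end Pool.Agent.Lib.MP8a3537.CR
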