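import Pool.Agent.Lib.MP_8a3537_gt.CR.LOC

/-!
# Coefficient rings (MP_8a3537_gt, folder CR): localization at two, the theorem (helper73)
-/

set_option autoImplicit false
set_option linter.unusedSectionVars false

namespace Pool.Agent.Lib.MP8a3537.CR

open Matrix Pool.Agent.Lib.MP8a3537.UV

section Hom

open Polynomial

variable {R R' G : Type} [Ring R] [StarRing R] [Ring R'] [StarRing R'] [Group G]

/-- The variable `t`. -/
noncomputable def tt (R : Type) [Ring R] [StarRing R] : zp R[X] :=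
  ⟨X, fun a => (X_mul (p := a)).symm, by
    ext n
    rw [pstar_coeff, coeff_X]
    split_ifs <;> simp⟩

/-- The constants. -/
noncomputable def zc (z : zp R) : zp R[X] :=
  ⟨C z.1, fun a => by
    ext n
    rw [coeff_mul_C, coeff_C_mul, z.2.1], by rw [pstar_C, z.2.2]⟩

theorem mr_comp {R'' : Type} [Ring R''] [StarRing R''] (φ : R →+* R') (φ' : R' →+* R'')
    (φ'' : R →+* R'') (h : ∀ r, φ' (φ r) = φ'' r) {m n : Type} (M : Matrix m n (MonoidAlgebra R G)) :
    (M.map (mr G φ)).map (mr G φ') = M.map (mr G φ'') := by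
  ext1 i j
  rw [Matrix.map_apply, Matrix.map_apply, Matrix.map_apply]
  ext g
  rw [mr_coeff, mr_coeff, mr_coeff, h]

theorem mr_id (φ : R →+* R) (h : ∀ r, φ r = r) {m n : Type} (M : Matrix m n (MonoidAlgebra R G)) :
    M.map (mr G φ) = M := by
  ext1 i j
  rw [Matrix.map_apply]
  ext g
  rw [mr_coeff, h]

theorem suppIn_zi {X : Set G} (z : zp R) {m n : Type} {M : Matrix m n (MonoidAlgebra R G)}
    (h : SuppIn X M) : SuppIn X (zi G z • M) := by
  intro i k g hg
  apply h i k g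
  intro h0
  apply hg
  rw [Matrix.smul_apply, zp_smul]
  change (MonoidAlgebra.single 1 z.1 * M i k).coeff g = 0
  rw [MonoidAlgebra.coeff_single_mul_apply, inv_one, one_mul, h0, mul_zero]

theorem nil_smul {A : Type} [Ring A] [StarRing A] {n : Type} [Fintype n] [DecidableEq n] (z : zp A)
    {M : Matrix n n A} (h : IsNilpotent M) : IsNilpotent (z • M) := by
  obtain ⟨q, hq⟩ := h
  have h1 : ∀ k : ℕ, (z • M) ^ k = z ^ k • M ^ k := by
    intro k
    induction k with
    | zero => rw [pow_zero, pow_zero, pow_zero, one_smul]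
    | succ k ih =>
      rw [pow_succ, ih, Matrix.smul_mul, Matrix.mul_smul]
      ext1 i j
      rw [Matrix.smul_apply, Matrix.smul_apply, Matrix.smul_apply, zp_smul, zp_smul, zp_smul,
        ← mul_assoc, pow_succ z, pow_succ M]
      rfl
  exact ⟨q, by rw [h1, hq, smul_zero]⟩

theorem nu_smul {n : Type} [Fintype n] [DecidableEq n] (ε : ℤˣ) (z : zp (MonoidAlgebra R G))
    (ψ μ χ : Matrix n n (MonoidAlgebra R G)) :
    nu ε (z • ψ + (ε : ℤ) • (z • ψ)ᴴ) (z • μ) (z • χ + (ε : ℤ) • (z • χ)ᴴ) =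
      z • nu ε (ψ + (ε : ℤ) • ψᴴ) μ (χ + (ε : ℤ) • χᴴ) := by
  unfold nu
  rw [fromBlocks_smul]
  simp only [zp_conj, smul_add, smul_comm z (ε : ℤ)]

end Hom

section Lift

open Polynomial

variable {R R' G : Type} [Ring R] [StarRing R] [Ring R'] [StarRing R'] [Group G]
  {S : Submonoid (zp R)} {j : R →+* R'} (hj : Loc S j)

include hj

/-- Lifts of matrices with a given constant term. -/
theorem lift_mat {ι κ : Type} [Fintype ι] [Fintype κ] (M' : Matrix ι κ (MonoidAlgebra R'[X] G))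
    (M0 : Matrix ι κ (MonoidAlgebra R G))
    (h0 : M'.map (mr G (ev (0 : zp R'))) = M0.map (mr G j)) :
    Evt S fun s => ∃ M : Matrix ι κ (MonoidAlgebra R[X] G),
      (∀ hs : s ∈ S, M.map (mr G (mapRingHom j)) = M'.map (mr G (sc (jz hj s hs)))) ∧
      M.map (mr G (ev (0 : zp R))) = M0 := by
  have h1 : ∀ i k, Evt S fun s => ∃ y : MonoidAlgebra R[X] G,
      (∀ g n, j ((y.coeff g).coeff n) = j s.1 ^ n * ((M' i k).coeff g).coeff n) ∧
      ∀ g, (y.coeff g).coeff 0 = (M0 i k).coeff g := by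
    intro i k
    have hc : ∀ g, ((M' i k).coeff g).coeff 0 = j ((M0 i k).coeff g) := by
      intro g
      have h2 := congrArg (fun x : MonoidAlgebra R' G => x.coeff g) (congrFun (congrFun h0 i) k)
      change (mr G (ev (0 : zp R')) (M' i k)).coeff g = (mr G j (M0 i k)).coeff g at h2
      rwa [mr_coeff, mr_coeff, ev_zero] at h2
    have h3 := lift_gr hj (M' i k - mr G (C.comp j) (M0 i k)) (by
      intro g
      rw [MonoidAlgebra.coeff_sub, Finsupp.sub_apply, mr_coeff, coeff_sub, hc]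
      change j ((M0 i k).coeff g) - (C (j ((M0 i k).coeff g))).coeff 0 = 0
      rw [coeff_C_zero, sub_self])
    refine Evt.mono h3 ?_
    rintro s - ⟨y, hy, hy0⟩
    refine ⟨y + mr G C (M0 i k), fun g n => ?_, fun g => ?_⟩
    · have h4 := hy g n
      rw [MonoidAlgebra.coeff_sub, Finsupp.sub_apply, mr_coeff, coeff_sub] at h4
      rw [MonoidAlgebra.coeff_add, Finsupp.add_apply, mr_coeff, coeff_add, map_add, h4]
      change j s.1 ^ n * (((M' i k).coeff g).coeff n - (C (j ((M0 i k).coeff g))).coeff n) +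
        j ((C ((M0 i k).coeff g)).coeff n) = _
      rw [coeff_C, coeff_C]
      rcases Nat.eq_zero_or_pos n with rfl | hn
      · rw [if_pos rfl, if_pos rfl, pow_zero, one_mul, one_mul, sub_add_cancel]
      · rw [if_neg hn.ne', if_neg hn.ne', sub_zero, map_zero, add_zero]
    · rw [MonoidAlgebra.coeff_add, Finsupp.add_apply, mr_coeff, coeff_add, hy0, zero_add,
        coeff_C_zero]
  have h2 := Evt.all (S := S) fun i => Evt.all (S := S) fun k => h1 i k
  refine Evt.mono h2 ?_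
  intro s _ hs
  choose M hM hM0 using hs
  refine ⟨M, fun hs' => ?_, ?_⟩
  · ext1 i k
    rw [Matrix.map_apply, Matrix.map_apply]
    ext g n
    rw [mr_coeff, mr_coeff, sc_coeff]
    change ((M i k).coeff g |>.map j).coeff n = _
    rw [coeff_map, hM]
    rfl
  · ext1 i k
    rw [Matrix.map_apply]
    ext g
    rw [mr_coeff, ev_zero, hM0]

/-- Matrices which become zero. -/
theorem kill_mat {ι κ : Type} [Fintype ι] [Fintype κ] (E : Matrix ι κ (MonoidAlgebra R[X] G))
    (h : E.map (mr G (mapRingHom j)) = 0) (h0 : E.map (mr G (ev (0 : zp R))) = 0) :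
    Evt S fun s => E.map (mr G (sc s)) = 0 := by
  have h1 : ∀ i k, Evt S fun s => ∀ g ∈ (E i k).coeff.support, ∀ n ∈ ((E i k).coeff g).support,
      s.1 ^ n * ((E i k).coeff g).coeff n = 0 := by
    intro i k
    refine Evt.finset _ fun g _ => Evt.finset _ fun n _ => ?_
    have h2 : j (((E i k).coeff g).coeff n) = 0 := by
      have h3 := congrArg (fun x : MonoidAlgebra R'[X] G => (x.coeff g).coeff n)
        (congrFun (congrFun h i) k)
      change ((mr G (mapRingHom j) (E i k)).coeff g).coeff n = _ at h3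
      rw [mr_coeff] at h3
      change ((E i k).coeff g |>.map j).coeff n = _ at h3
      rw [coeff_map] at h3
      rw [h3]
      simp
    rcases Nat.eq_zero_or_pos n with rfl | hn
    · refine Evt.of_all fun s _ => ?_
      have h3 := congrArg (fun x : MonoidAlgebra R G => x.coeff g) (congrFun (congrFun h0 i) k)
      change (mr G (ev (0 : zp R)) (E i k)).coeff g = _ at h3
      rw [mr_coeff, ev_zero] at h3
      rw [h3]
      simp
    · obtain ⟨t, ht, ht'⟩ := hj.ker _ h2
      refine ⟨t, ht, fun s' _ => ?_⟩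
      obtain ⟨k', rfl⟩ := Nat.exists_eq_succ_of_ne_zero hn.ne'
      have e1 : (t * s').1 = s'.1 * t.1 := (t.2.1 s'.1).symm
      rw [pow_succ, mul_assoc, e1, mul_assoc s'.1, ht', mul_zero, mul_zero]
  have h2 := Evt.all (S := S) fun i => Evt.all (S := S) fun k => h1 i k
  refine Evt.mono h2 ?_
  intro s _ hs
  ext1 i k
  rw [Matrix.map_apply]
  ext g n
  rw [mr_coeff, sc_coeff, Matrix.zero_apply, MonoidAlgebra.coeff_zero, Finsupp.zero_apply,
    coeff_zero]
  by_cases hg : g ∈ (E i k).coeff.support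
  · by_cases hn : n ∈ ((E i k).coeff g).support
    · exact hs i k g hg n hn
    · rw [notMem_support_iff.1 hn, mul_zero]
  · rw [Finsupp.notMem_support_iff.1 hg, coeff_zero, mul_zero]

end Lift

section Main

variable {R R' G : Type} [Ring R] [StarRing R] [Ring R'] [StarRing R'] [Group G]

/-- **(O)** Localization at two: if the forms over `R'[t]`, `R' = S⁻¹ R`, are stably hyperbolic, then
the forms over `R` are stably hyperbolic. -/
theorem van_loc (X B Y : Set G) (S : Submonoid (zp R)) (j : R →+* R') (hj : Loc S j)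
    (h : Van (Polynomial R') G X B Y) : Van R G X B Y := by
  intro ε n ψ μ χ hψ hμ hχ hN
  -- the rings
  let jj : R →+* (Polynomial R') := Polynomial.C.comp j
  have hjj : ∀ r, jj (star r) = star (jj r) := by
    intro r
    change Polynomial.C (j (star r)) = star (Polynomial.C (j r))
    rw [hj.st, pstar_C]
  have hev' : ∀ p : (Polynomial R'), ev (0 : zp R') (star p) = star (ev (0 : zp R') p) := ev_star 0
  have hC' : ∀ r : R', (Polynomial.C : R' →+* (Polynomial R')) (star r) = star (Polynomial.C r) := fun r => (pstar_C r).symm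
  -- the trivialization over `R'[t]`
  obtain ⟨m, k, u, v, Z, huv, hvu, hΦ⟩ := h ε n (zi G (tt R') • ψ.map (mr G jj))
    (zi G (tt R') • μ.map (mr G jj)) (zi G (tt R') • χ.map (mr G jj))
    (suppIn_zi _ (suppIn_mr jj hψ)) (suppIn_zi _ (suppIn_mr jj hμ)) (suppIn_zi _ (suppIn_mr jj hχ))
    (by
      rw [nu_smul]
      exact nil_smul _ (nil_mr jj hjj hN))
  change hyp (Fin k) _ = uᴴ * fromBlocks (zUF (tt R') (ψ.map (mr G jj)) (μ.map (mr G jj))
    (χ.map (mr G jj))) 0 0 (hyp (Fin m) _) * u + Z - (ε : ℤ) • Zᴴ at hΦ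
  set Ψt := fromBlocks (zUF (tt R') (ψ.map (mr G jj)) (μ.map (mr G jj)) (χ.map (mr G jj))) 0 0
    (hyp (Fin m) (MonoidAlgebra (Polynomial R') G)) with hΨt
  -- constant terms
  let c0 : MonoidAlgebra (Polynomial R') G →+* MonoidAlgebra (Polynomial R') G :=
    (mr G (Polynomial.C : R' →+* (Polynomial R'))).comp (mr G (ev (0 : zp R')))
  have hc0 : ∀ x, c0 (star x) = star (c0 x) := by
    intro x
    change mr G Polynomial.C (mr G (ev 0) (star x)) = star (mr G Polynomial.C (mr G (ev 0) x))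
    rw [mr_star _ hev', mr_star _ hC']
  have hc0e : ∀ {p q : Type} (M : Matrix p q (MonoidAlgebra (Polynomial R') G)),
      (M.map c0).map (mr G (ev (0 : zp R'))) = M.map (mr G (ev (0 : zp R'))) := by
    intro p q M
    ext1 i l
    rw [Matrix.map_apply, Matrix.map_apply, Matrix.map_apply]
    ext g
    change (mr G (ev 0) (mr G Polynomial.C (mr G (ev 0) (M i l)))).coeff g = _
    rw [mr_coeff, mr_coeff, ev_C]
  set Θ0 : Matrix ((Fin n ⊕ Fin n) ⊕ (Fin m ⊕ Fin m)) ((Fin n ⊕ Fin n) ⊕ (Fin m ⊕ Fin m))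
    (MonoidAlgebra (Polynomial R') G) := fromBlocks (hyp (Fin n) (MonoidAlgebra (Polynomial R') G)) 0 0
    (hyp (Fin m) (MonoidAlgebra (Polynomial R') G)) with hΘ0
  have hΨ0 : Ψt.map c0 = Θ0 := by
    rw [hΘ0, hΨt, fromBlocks_map, map_hyp]
    have e1 : (zUF (tt R') (ψ.map (mr G jj)) (μ.map (mr G jj)) (χ.map (mr G jj))).map c0 =
        hyp (Fin n) _ := by
      have e2 : (zUF (tt R') (ψ.map (mr G jj)) (μ.map (mr G jj)) (χ.map (mr G jj))).map
          (mr G (ev (0 : zp R'))) = hyp (Fin n) _ := by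
        rw [zUF_map (ev (0 : zp R')) hev' (tt R') 0 (ev_X 0), zUF_zero]
      have e3 : ((zUF (tt R') (ψ.map (mr G jj)) (μ.map (mr G jj)) (χ.map (mr G jj))).map
          (mr G (ev (0 : zp R')))).map (mr G (Polynomial.C : R' →+* (Polynomial R'))) =
          (hyp (Fin n) _).map (mr G (Polynomial.C : R' →+* (Polynomial R'))) := by rw [e2]
      rw [map_hyp] at e3
      rw [← e3]
      rfl
    rw [e1]
    simp
  set u0 := u.map c0 with hu0
  set v0 := v.map c0 with hv0
  set Z0 := Z.map c0 with hZ0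
  have h00 : u0 * v0 = 1 := by
    rw [hu0, hv0, ← Matrix.map_mul, huv, Matrix.map_one _ (map_zero _) (map_one _)]
  have h01 : v0 * u0 = 1 := by
    rw [hu0, hv0, ← Matrix.map_mul, hvu, Matrix.map_one _ (map_zero _) (map_one _)]
  have hΦ0 : hyp (Fin k) (MonoidAlgebra (Polynomial R') G) = u0ᴴ * Θ0 * u0 + Z0 -
      (ε : ℤ) • Z0ᴴ := by
    have e1 : (hyp (Fin k) (MonoidAlgebra (Polynomial R') G)).map c0 =
      (uᴴ * Ψt * u + Z - (ε : ℤ) • Zᴴ).map c0 := by rw [← hΦ]
    rwa [map_hyp, Matrix.map_sub _ (fun a b => map_sub c0 a b),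
      Matrix.map_add _ (fun a b => map_add c0 a b), Matrix.map_mul, Matrix.map_mul,
      map_conj c0 hc0, map_zsmul', map_conj c0 hc0, hΨ0] at e1
  -- the normalized trivialization
  obtain ⟨u1, hu1⟩ : ∃ u1, u1 = u * v0 := ⟨_, rfl⟩
  obtain ⟨v1, hv1⟩ : ∃ v1, v1 = u0 * v := ⟨_, rfl⟩
  obtain ⟨W, hW⟩ : ∃ W, W = v0ᴴ * (Z - Z0) * v0 := ⟨_, rfl⟩
  have i1 : u1 * v1 = 1 := by
    rw [hu1, hv1, Matrix.mul_assoc, ← Matrix.mul_assoc v0, h01, Matrix.one_mul, huv]
  have i2 : v1 * u1 = 1 := by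
    rw [hu1, hv1, Matrix.mul_assoc, ← Matrix.mul_assoc v, hvu, Matrix.one_mul, h00]
  have i3 : u1ᴴ * Ψt * u1 + W - (ε : ℤ) • Wᴴ = Θ0 := by
    have e4 : v0ᴴ * u0ᴴ = 1 := by rw [← conjTranspose_mul, h00, conjTranspose_one]
    have e1 : uᴴ * Ψt * u = u0ᴴ * Θ0 * u0 + Z0 - (ε : ℤ) • Z0ᴴ - Z + (ε : ℤ) • Zᴴ := by
      rw [← hΦ0, hΦ]
      abel
    have e2 : u1ᴴ * Ψt * u1 = v0ᴴ * (uᴴ * Ψt * u) * v0 := by
      rw [hu1, conjTranspose_mul]
      simp only [Matrix.mul_assoc]
    have e3 : v0ᴴ * (u0ᴴ * (Θ0 * (u0 * v0))) = Θ0 := by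
      rw [h00, Matrix.mul_one, ← Matrix.mul_assoc, e4, Matrix.one_mul]
    rw [e2, e1, hW]
    simp only [Matrix.mul_add, Matrix.mul_sub, Matrix.add_mul, Matrix.sub_mul,
      conjTranspose_mul, conjTranspose_sub, conjTranspose_conjTranspose, Matrix.mul_smul,
      Matrix.smul_mul, smul_sub, Matrix.mul_assoc]
    rw [e3]
    abel
  have z1 : u1.map (mr G (ev (0 : zp R'))) = (1 : Matrix _ _ (MonoidAlgebra R G)).map (mr G j) := by
    rw [hu1, Matrix.map_mul, hv0, hc0e, ← Matrix.map_mul, huv,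
      Matrix.map_one _ (map_zero _) (map_one _), Matrix.map_one _ (map_zero _) (map_one _)]
  have z2 : v1.map (mr G (ev (0 : zp R'))) = (1 : Matrix _ _ (MonoidAlgebra R G)).map (mr G j) := by
    rw [hv1, Matrix.map_mul, hu0, hc0e, ← Matrix.map_mul, huv,
      Matrix.map_one _ (map_zero _) (map_one _), Matrix.map_one _ (map_zero _) (map_one _)]
  have z3 : W.map (mr G (ev (0 : zp R'))) = (0 : Matrix _ _ (MonoidAlgebra R G)).map (mr G j) := by
    rw [hW, Matrix.map_mul, Matrix.map_mul, Matrix.map_sub _ (fun a b => map_sub _ a b), hZ0, hc0e,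
      sub_self, Matrix.mul_zero, Matrix.zero_mul]
    ext1 i l
    rw [Matrix.map_apply, Matrix.zero_apply, Matrix.zero_apply, map_zero]
  -- lifts over `R[t]`
  obtain ⟨s, hs, ⟨⟨⟨U, hU, hU0⟩, ⟨V, hV, hV0⟩⟩, ⟨W', hW', hW0⟩⟩⟩ :=
    (((lift_mat hj u1 1 z1).and (lift_mat hj v1 1 z2)).and (lift_mat hj W 0 z3)).exists
  have hU := hU hs
  have hV := hV hs
  have hW' := hW' hs
  have hmj : ∀ p : (Polynomial R), Polynomial.mapRingHom j (star p) = star (Polynomial.mapRingHom j p) := by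
    intro p
    ext q
    change ((star p).map j).coeff q = (star (p.map j)).coeff q
    rw [Polynomial.coeff_map, pstar_coeff, pstar_coeff, Polynomial.coeff_map, hj.st]
  have hsc : ∀ p : (Polynomial R'), sc (jz hj s hs) (star p) = star (sc (jz hj s hs) p) := sc_star _
  have hCR : ∀ r : R, (Polynomial.C : R →+* (Polynomial R)) (star r) = star (Polynomial.C r) := fun r => (pstar_C r).symm
  set Ψs := fromBlocks (zUF (zc s * tt R) (ψ.map (mr G (Polynomial.C : R →+* (Polynomial R))))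
    (μ.map (mr G (Polynomial.C : R →+* (Polynomial R)))) (χ.map (mr G (Polynomial.C : R →+* (Polynomial R))))) 0 0
    (hyp (Fin m) (MonoidAlgebra (Polynomial R) G)) with hΨs
  obtain ⟨E1, hE1⟩ : ∃ E1, E1 = U * V - 1 := ⟨_, rfl⟩
  obtain ⟨E2, hE2⟩ : ∃ E2, E2 = V * U - 1 := ⟨_, rfl⟩
  obtain ⟨E3, hE3⟩ : ∃ E3, E3 = Uᴴ * Ψs * U + W' - (ε : ℤ) • W'ᴴ -
    fromBlocks (hyp (Fin n) (MonoidAlgebra (Polynomial R) G)) 0 0 (hyp (Fin m) (MonoidAlgebra (Polynomial R) G)) :=
    ⟨_, rfl⟩
  have hjC : ∀ {p q : Type} (M : Matrix p q (MonoidAlgebra R G)),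
      (M.map (mr G (Polynomial.C : R →+* (Polynomial R)))).map (mr G (Polynomial.mapRingHom j)) = M.map (mr G jj) := fun M =>
    mr_comp _ _ _ (fun r => Polynomial.map_C j) M
  have hscC : ∀ {p q : Type} (M : Matrix p q (MonoidAlgebra R G)),
      (M.map (mr G jj)).map (mr G (sc (jz hj s hs))) = M.map (mr G jj) := fun M =>
    mr_comp _ _ _ (fun r => sc_C _ (j r)) M
  have hΨmap : Ψs.map (mr G (Polynomial.mapRingHom j)) = Ψt.map (mr G (sc (jz hj s hs))) := by
    have e1 : (Polynomial.mapRingHom j) (zc s * tt R).1 = (zc (jz hj s hs) * tt R').1 := by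
      change (Polynomial.C s.1 * Polynomial.X : (Polynomial R)).map j = Polynomial.C (j s.1) * Polynomial.X
      rw [Polynomial.map_mul, Polynomial.map_C, Polynomial.map_X]
    have e2 : (sc (jz hj s hs)) (tt R').1 = (zc (jz hj s hs) * tt R').1 := sc_X _
    rw [hΨs, hΨt, fromBlocks_map, fromBlocks_map, map_hyp, map_hyp, zUF_map _ hmj _ _ e1,
      zUF_map _ hsc _ _ e2, hjC, hjC, hjC, hscC, hscC, hscC]
    simp
  have hE3a : E3.map (mr G (Polynomial.mapRingHom j)) = 0 := by
    have e1 : (u1ᴴ * Ψt * u1 + W - (ε : ℤ) • Wᴴ).map (mr G (sc (jz hj s hs))) =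
      Θ0.map (mr G (sc (jz hj s hs))) := by rw [i3]
    rw [Matrix.map_sub _ (fun a b => map_sub _ a b), Matrix.map_add _ (fun a b => map_add _ a b),
      Matrix.map_mul, Matrix.map_mul, map_conj _ (mr_star _ hsc), map_zsmul',
      map_conj _ (mr_star _ hsc)] at e1
    rw [hE3, Matrix.map_sub _ (fun a b => map_sub _ a b),
      Matrix.map_sub _ (fun a b => map_sub _ a b), Matrix.map_add _ (fun a b => map_add _ a b),
      Matrix.map_mul, Matrix.map_mul, map_conj _ (mr_star _ hmj), map_zsmul',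
      map_conj _ (mr_star _ hmj), hU, hW', hΨmap, e1, hΘ0, fromBlocks_map, fromBlocks_map, map_hyp,
      map_hyp, map_hyp, map_hyp]
    simp
  have hE1a : E1.map (mr G (Polynomial.mapRingHom j)) = 0 := by
    rw [hE1, Matrix.map_sub _ (fun a b => map_sub _ a b), Matrix.map_mul, hU, hV, ← Matrix.map_mul,
      i1, Matrix.map_one _ (map_zero _) (map_one _), Matrix.map_one _ (map_zero _) (map_one _),
      sub_self]
  have hE2a : E2.map (mr G (Polynomial.mapRingHom j)) = 0 := by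
    rw [hE2, Matrix.map_sub _ (fun a b => map_sub _ a b), Matrix.map_mul, hU, hV, ← Matrix.map_mul,
      i2, Matrix.map_one _ (map_zero _) (map_one _), Matrix.map_one _ (map_zero _) (map_one _),
      sub_self]
  have hevR : ∀ (r : zp R) (p : Polynomial R), ev r (star p) = star (ev r p) := ev_star
  have hCid : ∀ (r : zp R) {p q : Type} (M : Matrix p q (MonoidAlgebra R G)),
      (M.map (mr G (Polynomial.C : R →+* (Polynomial R)))).map (mr G (ev r)) = M := by
    intro r p q M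
    rw [mr_comp Polynomial.C (ev r) (RingHom.id R) (fun a => ev_C r a), mr_id _ fun _ => rfl]
  have hE1b : E1.map (mr G (ev (0 : zp R))) = 0 := by
    rw [hE1, Matrix.map_sub _ (fun a b => map_sub _ a b), Matrix.map_mul, hU0, hV0, Matrix.mul_one,
      Matrix.map_one _ (map_zero _) (map_one _), sub_self]
  have hE2b : E2.map (mr G (ev (0 : zp R))) = 0 := by
    rw [hE2, Matrix.map_sub _ (fun a b => map_sub _ a b), Matrix.map_mul, hU0, hV0, Matrix.mul_one,
      Matrix.map_one _ (map_zero _) (map_one _), sub_self]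
  have hΨs0 : Ψs.map (mr G (ev (0 : zp R))) = fromBlocks (hyp (Fin n) (MonoidAlgebra R G)) 0 0
      (hyp (Fin m) (MonoidAlgebra R G)) := by
    have e1 : (ev (0 : zp R)) (zc s * tt R).1 = (0 : zp R).1 := by
      change ev 0 (Polynomial.C s.1 * Polynomial.X) = (0 : R)
      rw [map_mul, ev_X]
      exact mul_zero _
    rw [hΨs, fromBlocks_map, map_hyp, zUF_map _ (hevR 0) _ _ e1, zUF_zero]
    simp
  have hE3b : E3.map (mr G (ev (0 : zp R))) = 0 := by
    rw [hE3, Matrix.map_sub _ (fun a b => map_sub _ a b),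
      Matrix.map_sub _ (fun a b => map_sub _ a b), Matrix.map_add _ (fun a b => map_add _ a b),
      Matrix.map_mul, Matrix.map_mul, map_conj _ (mr_star _ (hevR 0)), map_zsmul',
      map_conj _ (mr_star _ (hevR 0)), hU0, hW0, hΨs0, fromBlocks_map, map_hyp, map_hyp]
    simp
  -- kill the errors
  obtain ⟨s1, hs1, ⟨⟨k1, k2⟩, k3⟩⟩ :=
    (((kill_mat hj E1 hE1a hE1b).and (kill_mat hj E2 hE2a hE2b)).and
      (kill_mat hj E3 hE3a hE3b)).exists
  -- the element `r` with `s s1 r = 1 + 4 c`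
  obtain ⟨s', c, hc⟩ := hj.two (s * s1) (S.mul_mem hs hs1)
  have hr : (s * s1) * (s' * (1 + 2 * c)) = 1 + 4 * (c + c ^ 2) := by
    rw [← mul_assoc, hc]
    ring
  obtain ⟨r, hrdef⟩ : ∃ r : zp R, r = s' * (1 + 2 * c) := ⟨_, rfl⟩
  rw [← hrdef] at hr
  -- evaluate at `r`
  let φ : Polynomial R →+* R := (ev r).comp (sc s1)
  have hφ : ∀ p, φ (star p) = star (φ p) := by
    intro p
    change ev r (sc s1 (star p)) = star (ev r (sc s1 p))
    rw [sc_star, ev_star]
  have hφM : ∀ {p q : Type} (M : Matrix p q (MonoidAlgebra (Polynomial R) G)),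
      M.map (mr G (sc s1)) = 0 → M.map (mr G φ) = 0 := by
    intro p q M hM
    have e1 := mr_comp (G := G) (sc s1) (ev r) φ (fun _ => rfl) M
    rw [← e1, hM]
    ext1 i l
    rw [Matrix.map_apply, Matrix.zero_apply, Matrix.zero_apply, map_zero]
  have l1 := hφM E1 k1
  have l2 := hφM E2 k2
  have l3 := hφM E3 k3
  rw [hE1, Matrix.map_sub _ (fun a b => map_sub _ a b), Matrix.map_mul,
    Matrix.map_one _ (map_zero _) (map_one _), sub_eq_zero] at l1
  rw [hE2, Matrix.map_sub _ (fun a b => map_sub _ a b), Matrix.map_mul,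
    Matrix.map_one _ (map_zero _) (map_one _), sub_eq_zero] at l2
  have hΨφ : Ψs.map (mr G φ) = fromBlocks (zUF (1 + 4 * (c + c ^ 2)) ψ μ χ) 0 0
      (hyp (Fin m) (MonoidAlgebra R G)) := by
    have e1 : φ (zc s * tt R).1 = (1 + 4 * (c + c ^ 2) : zp R).1 := by
      rw [← hr]
      change ev r (sc s1 (Polynomial.C s.1 * Polynomial.X)) = s.1 * s1.1 * r.1
      rw [map_mul, sc_C, sc_X, map_mul, map_mul, ev_C, ev_C, ev_X, mul_assoc]
    have e2 : ∀ {p q : Type} (M : Matrix p q (MonoidAlgebra R G)),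
        (M.map (mr G (Polynomial.C : R →+* (Polynomial R)))).map (mr G φ) = M := by
      intro p q M
      rw [mr_comp Polynomial.C φ (RingHom.id R) (fun a => by
        change ev r (sc s1 (Polynomial.C a)) = a
        rw [sc_C, ev_C]), mr_id _ fun _ => rfl]
    rw [hΨs, fromBlocks_map, map_hyp, zUF_map _ hφ _ _ e1, e2, e2, e2]
    simp
  have hiso : Isometric ε (fromBlocks (zUF (1 + 4 * (c + c ^ 2)) ψ μ χ) 0 0
      (hyp (Fin m) (MonoidAlgebra R G))) (fromBlocks (hyp (Fin n) (MonoidAlgebra R G)) 0 0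
      (hyp (Fin m) (MonoidAlgebra R G))) := by
    refine ⟨U.map (mr G φ), V.map (mr G φ), W'.map (mr G φ), l1, l2, ?_⟩
    rw [hE3, Matrix.map_sub _ (fun a b => map_sub _ a b),
      Matrix.map_sub _ (fun a b => map_sub _ a b), Matrix.map_add _ (fun a b => map_add _ a b),
      Matrix.map_mul, Matrix.map_mul, map_conj _ (mr_star _ hφ), map_zsmul',
      map_conj _ (mr_star _ hφ), hΨφ, fromBlocks_map, map_hyp, map_hyp, sub_eq_zero] at l3
    rw [l3]
    simp
  have hsh : StablyHyperbolic ε (zUF (1 + 4 * (c + c ^ 2)) ψ μ χ) :=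
    ⟨m, n + m, Iso.trans hiso (hyp_sum ε n m)⟩
  exact sh_of_iso (Iso.symm (zUF_scale ε ψ μ χ hN (c + c ^ 2))) hsh

end Main

end Pool.Agent.Lib.MP8a3537.CR
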