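import Pool.Agent.Lib.MP_8a3537_gt.UV.EMV
import Pool.Agent.Lib.MP_8a3537_gt.CR.POL

/-!
# Patching (MP_8a3537_gt, folder CR, helper30): polynomials with involution, localizations

`A[X]` has the involution `∑ a_n X^n ↦ ∑ a_n^* X^n` (`CR.polyStar`). `Loc S φ`: `φ : A → B` is a localization at the
monoid `S` of central self-adjoint elements.
-/

set_option autoImplicit false

namespace Pool.Agent.Lib.MP8a3537.CRQ

open Matrix Polynomial Pool.Agent.Lib.MP8a3537.UV

section Poly

variable {A : Type} [Ring A] [StarRing A]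

theorem star_coeff (p : A[X]) (n : ℕ) : (star p).coeff n = star (p.coeff n) :=
  CR.pstar_coeff p n

theorem star_C (a : A) : star (C a : A[X]) = C (star a) := by
  ext n
  rw [star_coeff, coeff_C, coeff_C]
  split_ifs <;> simp

theorem star_X : star (X : A[X]) = X := by
  ext n
  rw [star_coeff, coeff_X]
  split_ifs <;> simp

theorem star_monomial (n : ℕ) (a : A) : star (monomial n a : A[X]) = monomial n (star a) := by
  ext k
  rw [star_coeff, coeff_monomial, coeff_monomial]
  split_ifs <;> simp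

variable {B : Type} [Ring B] [StarRing B]

/-- `f` is compatible with the involutions. -/
def SH {A B : Type} [Ring A] [StarRing A] [Ring B] [StarRing B] (f : A →+* B) : Prop :=
  ∀ a, f (star a) = star (f a)

theorem SH.comp {D : Type} [Ring D] [StarRing D] {g : B →+* D} {f : A →+* B} (hg : SH g)
    (hf : SH f) : SH (g.comp f) := fun a => by
  rw [RingHom.comp_apply, hf, hg, RingHom.comp_apply]

theorem sh_C : SH (C : A →+* A[X]) := fun a => (star_C a).symm

theorem sh_map {f : A →+* B} (hf : SH f) : SH (mapRingHom f) := fun p => by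
  ext n
  rw [coe_mapRingHom, coeff_map, star_coeff, star_coeff, coeff_map, hf]

theorem sh_eval {f : A →+* B} (hf : SH f) (x : B) (hx : star x = x) (hc : ∀ a, Commute (f a) x) :
    SH (eval₂RingHom' f x hc) := fun p => by
  show eval₂ f x (star p) = star (eval₂ f x p)
  induction p using Polynomial.induction_on' with
  | add p q hp hq => rw [star_add, eval₂_add, eval₂_add, star_add, hp, hq]
  | monomial n a =>
    rw [star_monomial, eval₂_monomial, eval₂_monomial, hf, star_mul, star_pow, hx]
    have := hc (star a)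
    rw [hf] at this
    exact (this.pow_right n)

theorem sh_ma {G : Type} [Group G] {f : A →+* B} (hf : SH f) :
    SH (MonoidAlgebra.mapRingHom G f) := fun x => by
  ext g
  rw [MonoidAlgebra.coeff_mapRingHom, UV.star_coeff, UV.star_coeff, MonoidAlgebra.coeff_mapRingHom,
    hf]

/-- `f` maps isometric forms to isometric forms. -/
theorem iso_map (ε : ℤˣ) {f : A →+* B} (hf : SH f) {ι κ : Type} [Fintype ι] [DecidableEq ι]
    [Fintype κ] [DecidableEq κ] {Ψ : Matrix ι ι A} {Φ : Matrix κ κ A} (h : Isometric ε Ψ Φ) :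
    Isometric ε (Ψ.map f) (Φ.map f) := by
  obtain ⟨u, v, Z, huv, hvu, hZ⟩ := h
  refine ⟨u.map f, v.map f, Z.map f, ?_, ?_, ?_⟩
  · rw [← Matrix.map_mul, huv, Matrix.map_one _ (map_zero f) (map_one f)]
  · rw [← Matrix.map_mul, hvu, Matrix.map_one _ (map_zero f) (map_one f)]
  · rw [hZ, ← Matrix.conjTranspose_map (A := u) f hf, ← Matrix.map_mul, ← Matrix.map_mul]
    ext i j
    simp only [Matrix.map_apply, Matrix.sub_apply, Matrix.add_apply, Matrix.smul_apply,
      Matrix.conjTranspose_apply, map_sub, map_add, map_zsmul, hf _]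

omit [StarRing A] [StarRing B] in
theorem hyp_map {n : Type} [Fintype n] [DecidableEq n] (f : A →+* B) :
    (hyp n A).map f = hyp n B := by
  unfold hyp
  rw [Matrix.fromBlocks_map, Matrix.map_one _ (map_zero f) (map_one f)]
  simp

end Poly

/-! ### Localizations -/

section Loc

/-- `φ : A → B` is a `*`-homomorphism and a localization at the monoid `S` of central self-adjoint
elements (whose images are central). -/
structure Loc {A B : Type} [Ring A] [StarRing A] [Ring B] [StarRing B] (S : Submonoid A)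
    (φ : A →+* B) : Prop where
  cen : ∀ s ∈ S, ∀ a : A, s * a = a * s
  sa : ∀ s ∈ S, star s = s
  hom : SH φ
  cenB : ∀ s ∈ S, ∀ b : B, φ s * b = b * φ s
  den : ∀ x : B, ∃ s ∈ S, ∃ y : A, φ s * x = φ y
  tor : ∀ y : A, φ y = 0 → ∃ s ∈ S, s * y = 0

variable {A B : Type} [Ring A] [StarRing A] [Ring B] [StarRing B] {S : Submonoid A}
  {φ : A →+* B}

omit [StarRing A] [StarRing B] in
theorem den_add (cen : ∀ s ∈ S, ∀ a : A, s * a = a * s) (_ : ∀ s ∈ S, ∀ b : B, φ s * b = b * φ s)
    {x y : B} (hx : ∃ s ∈ S, ∃ a : A, φ s * x = φ a) (hy : ∃ s ∈ S, ∃ a : A, φ s * y = φ a) :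
    ∃ s ∈ S, ∃ a : A, φ s * (x + y) = φ a := by
  obtain ⟨s, hs, a, ha⟩ := hx
  obtain ⟨t, ht, b, hb⟩ := hy
  refine ⟨s * t, S.mul_mem hs ht, t * a + s * b, ?_⟩
  have h1 : φ (s * t) * x = φ (t * a) := by
    rw [cen s hs t, map_mul, map_mul, mul_assoc, ha]
  have h2 : φ (s * t) * y = φ (s * b) := by
    rw [map_mul, map_mul, mul_assoc, hb]
  rw [mul_add, h1, h2, map_add]

/-- A common denominator. -/
theorem common {M : Type} [Monoid M] (S : Submonoid M) {I : Type} [Finite I] (Q : M → I → Prop)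
    (h1 : ∀ s ∈ S, ∀ t ∈ S, ∀ i, Q s i → Q (s * t) i)
    (h2 : ∀ s ∈ S, ∀ t ∈ S, ∀ i, Q t i → Q (s * t) i)
    (h : ∀ i, ∃ s ∈ S, Q s i) : ∃ s ∈ S, ∀ i, Q s i := by
  classical
  cases nonempty_fintype I
  suffices H : ∀ F : Finset I, ∃ s ∈ S, ∀ i ∈ F, Q s i by
    obtain ⟨s, hs, h3⟩ := H Finset.univ
    exact ⟨s, hs, fun i => h3 i (Finset.mem_univ i)⟩
  intro F
  induction F using Finset.induction_on with
  | empty => exact ⟨1, S.one_mem, fun i hi => absurd hi (Finset.notMem_empty i)⟩
  | insert a F ha ih =>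
    obtain ⟨s, hs, h3⟩ := ih
    obtain ⟨t, ht, h4⟩ := h a
    refine ⟨s * t, S.mul_mem hs ht, fun i hi => ?_⟩
    rcases Finset.mem_insert.mp hi with rfl | hi
    · exact h2 s hs t ht _ h4
    · exact h1 s hs t ht _ (h3 i hi)

/-- The localization `R → R'` induces a localization `R[G] → R'[G]`. -/
theorem Loc.ma (h : Loc S φ) (G : Type) [Group G] :
    Loc (S.map (MonoidAlgebra.singleOneRingHom (R := A) (M := G) : A →* MonoidAlgebra A G))
      (MonoidAlgebra.mapRingHom G φ) := by
  have key : ∀ (s : A), (MonoidAlgebra.singleOneRingHom (R := A) (M := G) : A →* MonoidAlgebra A G) s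
      = MonoidAlgebra.single 1 s := fun s => rfl
  have cen : ∀ s ∈ S.map (MonoidAlgebra.singleOneRingHom (R := A) (M := G) :
      A →* MonoidAlgebra A G), ∀ a : MonoidAlgebra A G, s * a = a * s := by
    rintro _ ⟨s, hs, rfl⟩ a
    rw [key]
    ext g
    rw [MonoidAlgebra.coeff_single_one_mul, MonoidAlgebra.coeff_mul_single_one, h.cen s hs]
  have cenB : ∀ s ∈ S.map (MonoidAlgebra.singleOneRingHom (R := A) (M := G) :
      A →* MonoidAlgebra A G), ∀ b : MonoidAlgebra B G,
        MonoidAlgebra.mapRingHom G φ s * b = b * MonoidAlgebra.mapRingHom G φ s := by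
    rintro _ ⟨s, hs, rfl⟩ b
    rw [key, MonoidAlgebra.mapRingHom_single]
    ext g
    rw [MonoidAlgebra.coeff_single_one_mul, MonoidAlgebra.coeff_mul_single_one, h.cenB s hs]
  refine ⟨cen, ?_, sh_ma h.hom, cenB, ?_, ?_⟩
  · rintro _ ⟨s, hs, rfl⟩
    rw [key, UV.star_single, inv_one, h.sa s hs]
  · intro x
    induction x using MonoidAlgebra.induction_linear with
    | zero => exact ⟨1, Submonoid.one_mem _, 0, by rw [mul_zero, map_zero]⟩
    | add x y hx hy => exact den_add cen cenB hx hy
    | single g r =>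
      obtain ⟨s, hs, y, hy⟩ := h.den r
      refine ⟨_, ⟨s, hs, rfl⟩, MonoidAlgebra.single g y, ?_⟩
      rw [key, MonoidAlgebra.mapRingHom_single, MonoidAlgebra.mapRingHom_single,
        MonoidAlgebra.single_mul_single, one_mul, hy]
  · intro y hy
    obtain ⟨s, hs, h1⟩ := common S (I := y.coeff.support) (fun s i => s * y.coeff i = 0)
      (fun s hs t ht i hi => by rw [h.cen s hs t, mul_assoc, hi, mul_zero])
      (fun s hs t ht i hi => by rw [mul_assoc, hi, mul_zero])
      (fun i => h.tor _ (by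
        have := congrArg (fun z : MonoidAlgebra B G => z.coeff i) hy
        simpa [MonoidAlgebra.coeff_mapRingHom] using this))
    refine ⟨_, ⟨s, hs, rfl⟩, ?_⟩
    rw [key]
    ext g
    rw [MonoidAlgebra.coeff_single_one_mul]
    by_cases hg : g ∈ y.coeff.support
    · simpa using h1 ⟨g, hg⟩
    · rw [Finsupp.notMem_support_iff.mp hg]
      simp

/-- The localization `A → B` induces a localization `A[X] → B[X]`. -/
theorem Loc.pol (h : Loc S φ) :
    Loc (S.map (C : A →+* A[X]).toMonoidHom) (mapRingHom φ) := by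
  have cen : ∀ s ∈ S.map (C : A →+* A[X]).toMonoidHom, ∀ a : A[X], s * a = a * s := by
    rintro _ ⟨s, hs, rfl⟩ a
    show C s * a = a * C s
    ext n
    rw [coeff_C_mul, coeff_mul_C, h.cen s hs]
  have cenB : ∀ s ∈ S.map (C : A →+* A[X]).toMonoidHom, ∀ b : B[X],
      mapRingHom φ s * b = b * mapRingHom φ s := by
    rintro _ ⟨s, hs, rfl⟩ b
    show mapRingHom φ (C s) * b = b * mapRingHom φ (C s)
    rw [coe_mapRingHom, map_C]
    ext n
    rw [coeff_C_mul, coeff_mul_C, h.cenB s hs]
  refine ⟨cen, ?_, sh_map h.hom, cenB, ?_, ?_⟩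
  · rintro _ ⟨s, hs, rfl⟩
    show star (C s) = C s
    rw [star_C, h.sa s hs]
  · intro x
    induction x using Polynomial.induction_on' with
    | add x y hx hy => exact den_add cen cenB hx hy
    | monomial n r =>
      obtain ⟨s, hs, y, hy⟩ := h.den r
      refine ⟨_, ⟨s, hs, rfl⟩, monomial n y, ?_⟩
      show mapRingHom φ (C s) * monomial n r = mapRingHom φ (monomial n y)
      rw [coe_mapRingHom, map_C, map_monomial, C_mul_monomial, hy]
  · intro y hy
    obtain ⟨s, hs, h1⟩ := common S (I := y.support) (fun s i => s * y.coeff i = 0)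
      (fun s hs t ht i hi => by rw [h.cen s hs t, mul_assoc, hi, mul_zero])
      (fun s hs t ht i hi => by rw [mul_assoc, hi, mul_zero])
      (fun i => h.tor _ (by
        have := congrArg (fun z : B[X] => z.coeff i) hy
        simpa [coeff_map] using this))
    refine ⟨_, ⟨s, hs, rfl⟩, ?_⟩
    show C s * y = 0
    ext n
    rw [coeff_C_mul]
    by_cases hg : n ∈ y.support
    · simpa using h1 ⟨n, hg⟩
    · rw [Polynomial.notMem_support_iff.mp hg]
      simp

end Loc

end Pool.Agent.Lib.MP8a3537.CRQ
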