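import Pool.Agent.Lib.MP_8a3537_gt.CR.QPA

/-!
# Patching (MP_8a3537_gt, folder CR, helper30): descent of an isometry along `Y ↦ s Y`
-/

set_option autoImplicit false

namespace Pool.Agent.Lib.MP8a3537.CRQ

open Matrix Polynomial Pool.Agent.Lib.MP8a3537.UV

section Sub

variable {A : Type} [Ring A]

/-- The substitution `X ↦ s X` (`s` central). -/
noncomputable def sub (s : A) (hs : ∀ a, s * a = a * s) : A[X] →+* A[X] :=
  eval₂RingHom' C (C s * X) (fun a => by
    show C a * (C s * X) = C s * X * C a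
    rw [← mul_assoc, ← C_mul, mul_assoc (C s), X_mul_C, ← mul_assoc, ← C_mul, hs])

theorem sub_coeff (s : A) (hs : ∀ a, s * a = a * s) (p : A[X]) (n : ℕ) :
    (sub s hs p).coeff n = p.coeff n * s ^ n := by
  show (eval₂ C (C s * X) p).coeff n = p.coeff n * s ^ n
  induction p using Polynomial.induction_on' with
  | add p q hp hq => rw [eval₂_add, coeff_add, coeff_add, add_mul, hp, hq]
  | monomial k a =>
    have h1 : (C s * X : A[X]) ^ k = C (s ^ k) * X ^ k := by
      rw [(Commute.mul_pow (show Commute (C s) (X : A[X]) from (X_mul_C s).symm) k), C_pow]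
    rw [eval₂_monomial, h1, ← mul_assoc, ← C_mul, coeff_C_mul_X_pow, coeff_monomial]
    by_cases hk : n = k
    · subst hk; simp
    · rw [if_neg hk, if_neg (Ne.symm hk), zero_mul]

theorem sub_C (s : A) (hs : ∀ a, s * a = a * s) (a : A) : sub s hs (C a) = C a := by
  ext n
  rw [sub_coeff, coeff_C]
  by_cases hn : n = 0
  · subst hn; simp
  · rw [if_neg hn, zero_mul]

theorem sub_X (s : A) (hs : ∀ a, s * a = a * s) : sub s hs X = C s * X := by
  show eval₂ C (C s * X) X = C s * X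
  rw [eval₂_X]

theorem sub_sub (s t : A) (hs : ∀ a, s * a = a * s) (ht : ∀ a, t * a = a * t)
    (hst : ∀ a, s * t * a = a * (s * t)) (p : A[X]) :
    sub t ht (sub s hs p) = sub (s * t) hst p := by
  ext n
  rw [sub_coeff, sub_coeff, sub_coeff, mul_assoc, (show Commute s t from hs t).mul_pow]

theorem sh_sub [StarRing A] (s : A) (hs : ∀ a, s * a = a * s) (hsa : star s = s) :
    SH (sub s hs) := by
  refine sh_eval sh_C _ ?_ _
  rw [star_mul, star_X, star_C, hsa, X_mul_C]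

theorem map_sub_comm {B : Type} [Ring B] (φ : A →+* B) (s : A) (hs : ∀ a, s * a = a * s)
    (hs' : ∀ b, φ s * b = b * φ s) (p : A[X]) :
    mapRingHom φ (sub s hs p) = sub (φ s) hs' (mapRingHom φ p) := by
  ext n
  rw [coe_mapRingHom, coeff_map, sub_coeff, sub_coeff, coeff_map, map_mul, map_pow]

end Sub

section Lift

variable {A B : Type} [Ring A] [StarRing A] [Ring B] [StarRing B] {S : Submonoid A}
  {φ : A →+* B}

/-- `z` lifts `Z(s X)`, `Z(0) = 0`. -/
def Q (φ : A →+* B) (s : A) (Z : B[X]) : Prop :=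
  ∃ z : A[X], z.coeff 0 = 0 ∧ ∀ n, n ≠ 0 → φ (z.coeff n) = Z.coeff n * φ s ^ n

theorem Q_mul (h : Loc S φ) {s t : A} (_ : s ∈ S) (ht : t ∈ S) {Z : B[X]} (hQ : Q φ s Z) :
    Q φ (s * t) Z := by
  obtain ⟨z, h0, hz⟩ := hQ
  refine ⟨sub t (h.cen t ht) z, ?_, fun n hn => ?_⟩
  · rw [sub_coeff, h0, zero_mul]
  · rw [sub_coeff, map_mul, hz n hn, map_pow, mul_assoc, map_mul,
      (show Commute (φ s) (φ t) from (h.cenB t ht (φ s)).symm).mul_pow]

theorem Q_mul' (h : Loc S φ) {s t : A} (hs : s ∈ S) (ht : t ∈ S) {Z : B[X]} (hQ : Q φ t Z) :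
    Q φ (s * t) Z := by
  rw [h.cen s hs t]
  exact Q_mul h ht hs hQ

theorem exists_Q (h : Loc S φ) (Z : B[X]) : ∃ s ∈ S, Q φ s Z := by
  induction Z using Polynomial.induction_on' with
  | add Z W hZ hW =>
    obtain ⟨s, hs, h1⟩ := hZ
    obtain ⟨t, ht, h2⟩ := hW
    obtain ⟨z, z0, hz⟩ := Q_mul h hs ht h1
    obtain ⟨w, w0, hw⟩ := Q_mul' h hs ht h2
    refine ⟨s * t, S.mul_mem hs ht, z + w, by rw [coeff_add, z0, w0, add_zero], fun n hn => ?_⟩
    rw [coeff_add, map_add, hz n hn, hw n hn, coeff_add, add_mul]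
  | monomial k a =>
    by_cases hk : k = 0
    · subst hk
      refine ⟨1, S.one_mem, 0, coeff_zero 0, fun n hn => ?_⟩
      rw [coeff_monomial, if_neg (Ne.symm hn), coeff_zero, map_zero, zero_mul]
    · obtain ⟨s, hs, y, hy⟩ := h.den a
      refine ⟨s, hs, monomial k (y * s ^ (k - 1)), ?_, fun n hn => ?_⟩
      · rw [coeff_monomial, if_neg hk]
      · rw [coeff_monomial, coeff_monomial]
        by_cases hkn : k = n
        · subst hkn
          rw [if_pos rfl, if_pos rfl, map_mul, ← hy, map_pow, h.cenB s hs, mul_assoc,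
            ← pow_succ', Nat.sub_add_cancel (Nat.one_le_iff_ne_zero.mpr hk)]
        · rw [if_neg hkn, if_neg hkn, map_zero, zero_mul]

/-- Matrices with `M(0) = 0` lift after a substitution `X ↦ s X`. -/
theorem exists_lift (h : Loc S φ) {ι κ : Type} [Finite ι] [Finite κ] (M : Matrix ι κ B[X])
    (hM : ∀ i j, (M i j).coeff 0 = 0) :
    ∃ s ∈ S, ∀ t ∈ S, ∃ m : Matrix ι κ A[X], (∀ i j, (m i j).coeff 0 = 0) ∧
      ∀ i j n, φ ((m i j).coeff n) = (M i j).coeff n * φ (s * t) ^ n := by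
  obtain ⟨s, hs, h1⟩ := common S (I := ι × κ) (fun s p => Q φ s (M p.1 p.2))
    (fun s hs t ht p hp => Q_mul h hs ht hp) (fun s hs t ht p hp => Q_mul' h hs ht hp)
    (fun p => exists_Q h _)
  refine ⟨s, hs, fun t ht => ?_⟩
  have h2 : ∀ i j, Q φ (s * t) (M i j) := fun i j => Q_mul h hs ht (h1 (i, j))
  choose m m0 hm using h2
  refine ⟨Matrix.of m, m0, fun i j n => ?_⟩
  by_cases hn : n = 0
  · subst hn
    show φ ((m i j).coeff 0) = _
    rw [m0, map_zero, hM, zero_mul]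
  · exact hm i j n hn

/-- Matrices `E` over `A[X]` with `E(0) = 0` and `φ E = 0` vanish after a substitution `X ↦ s X`. -/
theorem exists_kill (h : Loc S φ) {ι κ : Type} [Finite ι] [Finite κ] (E : Matrix ι κ A[X])
    (h0 : ∀ i j, (E i j).coeff 0 = 0) (hE : ∀ i j n, φ ((E i j).coeff n) = 0) :
    ∃ s ∈ S, ∀ t ∈ S, ∀ i j n, (E i j).coeff n * (s * t) ^ n = 0 := by
  have h1 : ∀ i j, ∃ s ∈ S, ∀ n, s * (E i j).coeff n = 0 := by
    intro i j
    obtain ⟨s, hs, h2⟩ := common S (I := (E i j).support) (fun s n => s * (E i j).coeff n = 0)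
      (fun s hs t ht n hn => by rw [h.cen s hs t, mul_assoc, hn, mul_zero])
      (fun s hs t ht n hn => by rw [mul_assoc, hn, mul_zero])
      (fun n => h.tor _ (hE i j n))
    refine ⟨s, hs, fun n => ?_⟩
    by_cases hn : n ∈ (E i j).support
    · exact h2 ⟨n, hn⟩
    · rw [Polynomial.notMem_support_iff.mp hn, mul_zero]
  obtain ⟨s, hs, h2⟩ := common S (I := ι × κ) (fun s p => ∀ n, s * (E p.1 p.2).coeff n = 0)
    (fun s hs t ht p hp n => by rw [h.cen s hs t, mul_assoc, hp n, mul_zero])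
    (fun s hs t ht p hp n => by rw [mul_assoc, hp n, mul_zero])
    (fun p => h1 p.1 p.2)
  refine ⟨s, hs, fun t ht i j n => ?_⟩
  cases n with
  | zero => rw [h0, zero_mul]
  | succ n =>
    have h3 : (E i j).coeff (n + 1) * (s * t) = 0 := by
      rw [← mul_assoc, ← h.cen s hs, h2 (i, j) (n + 1), zero_mul]
    rw [pow_succ', ← mul_assoc, h3, zero_mul]

theorem map_conj {f : A →+* B} (hf : SH f) {ι κ : Type} (M : Matrix ι κ A) :
    (M.map f)ᴴ = Mᴴ.map f := (Matrix.conjTranspose_map f hf).symm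

theorem map_form (ε : ℤˣ) {f : A →+* B} (hf : SH f) {ι : Type} [Fintype ι] [DecidableEq ι]
    (P Z : Matrix ι ι A) : (P + Z - (ε : ℤ) • Zᴴ).map f =
      P.map f + Z.map f - (ε : ℤ) • (Z.map f)ᴴ := by
  ext i j
  simp only [Matrix.map_apply, Matrix.sub_apply, Matrix.add_apply, Matrix.smul_apply,
    Matrix.conjTranspose_apply, map_sub, map_add, map_zsmul, hf _]

end Lift

end Pool.Agent.Lib.MP8a3537.CRQ
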