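import Pool.Agent.Lib.MP_8a3537_gt.CR.QPB

/-!
# Patching (MP_8a3537_gt, folder CR, helper30): the descent theorem
-/

set_option autoImplicit false
set_option linter.unusedSectionVars false

namespace Pool.Agent.Lib.MP8a3537.CRQ

open Matrix Polynomial Pool.Agent.Lib.MP8a3537.UV

section Descend

variable {A B : Type} [Ring A] [StarRing A] [Ring B] [StarRing B] {S : Submonoid A}
  {φ : A →+* B}

theorem lift (h : Loc S φ) {ι κ : Type} [Finite ι] [Finite κ] (M : Matrix ι κ B[X])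
    (hM : M.map constantCoeff = 0) :
    ∃ s ∈ S, ∀ (r : A) (hr : r ∈ S), (∃ t ∈ S, r = s * t) → ∃ m : Matrix ι κ A[X],
      m.map constantCoeff = 0 ∧ m.map (mapRingHom φ) = M.map (sub (φ r) (h.cenB r hr)) := by
  obtain ⟨s, hs, h1⟩ := exists_lift h M (fun i j => by
    have := congrFun (congrFun hM i) j
    simpa using this)
  refine ⟨s, hs, ?_⟩
  rintro r hr ⟨t, ht, rfl⟩
  obtain ⟨m, m0, hm⟩ := h1 t ht
  refine ⟨m, ?_, ?_⟩
  · ext i j
    simpa using m0 i j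
  · ext i j n
    simp only [Matrix.map_apply]
    rw [coe_mapRingHom, coeff_map, hm i j n, sub_coeff]

theorem kill (h : Loc S φ) {ι κ : Type} [Finite ι] [Finite κ] (E : Matrix ι κ A[X])
    (h0 : E.map constantCoeff = 0) (hE : E.map (mapRingHom φ) = 0) :
    ∃ s ∈ S, ∀ (r : A) (hr : r ∈ S), (∃ t ∈ S, r = s * t) →
      E.map (sub r (h.cen r hr)) = 0 := by
  obtain ⟨s, hs, h1⟩ := exists_kill h E (fun i j => by
    have := congrFun (congrFun h0 i) j
    simpa using this) (fun i j n => by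
    have := congrArg (fun p : B[X] => p.coeff n) (congrFun (congrFun hE i) j)
    simpa using this)
  refine ⟨s, hs, ?_⟩
  rintro r hr ⟨t, ht, rfl⟩
  ext i j n
  simp only [Matrix.map_apply]
  rw [sub_coeff, h1 t ht i j n]
  simp

theorem map_map_sub (s t : A) (hs : ∀ a, s * a = a * s) (ht : ∀ a, t * a = a * t)
    (hst : ∀ a, s * t * a = a * (s * t)) {ι κ : Type} (M : Matrix ι κ A[X]) :
    (M.map (sub s hs)).map (sub t ht) = M.map (sub (s * t) hst) := by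
  ext i j n
  simp only [Matrix.map_apply]
  rw [sub_sub s t hs ht hst]

theorem map_C_sub (s : A) (hs : ∀ a, s * a = a * s) {ι κ : Type} (M : Matrix ι κ A) :
    (M.map (C : A →+* A[X])).map (sub s hs) = M.map (C : A →+* A[X]) := by
  ext i j n
  simp only [Matrix.map_apply]
  rw [sub_C]

theorem map_one' (f : A →+* B) {ι : Type} [DecidableEq ι] :
    (1 : Matrix ι ι A).map f = 1 := Matrix.map_one _ (map_zero f) (map_one f)

theorem map_add' (f : A →+* B) {ι κ : Type} (M N : Matrix ι κ A) :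
    (M + N).map f = M.map f + N.map f := by
  ext i j
  simp

theorem map_sub' (f : A →+* B) {ι κ : Type} (M N : Matrix ι κ A) :
    (M - N).map f = M.map f - N.map f := by
  ext i j
  simp

/-- **Descent.** An isometry `θ` over `B[X]` of the form `Ψ` with the constant form `Ψ(0)`, `θ(0) = 1`,
lifts to `A[X]` after a substitution `X ↦ s X`. -/
theorem descend (h : Loc S φ) (ε : ℤˣ) {ι : Type} [Fintype ι] [DecidableEq ι]
    (Ψ : Matrix ι ι A[X]) (Ψ0 : Matrix ι ι A) (h0 : Ψ.map constantCoeff = Ψ0)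
    (θ θ' W : Matrix ι ι B[X]) (h1 : θ * θ' = 1) (h2 : θ' * θ = 1)
    (hθ : θ.map constantCoeff = 1) (hθ' : θ'.map constantCoeff = 1)
    (hW : W.map constantCoeff = 0)
    (hiso : θᴴ * Ψ.map (mapRingHom φ) * θ
      = (Ψ0.map φ).map (C : B →+* B[X]) + W - (ε : ℤ) • Wᴴ) :
    ∃ (s : A) (hs : s ∈ S) (Θ Θ' Ω : Matrix ι ι A[X]), Θ * Θ' = 1 ∧ Θ' * Θ = 1 ∧
      Θᴴ * Ψ.map (sub s (h.cen s hs)) * Θ
        = Ψ0.map (C : A →+* A[X]) + Ω - (ε : ℤ) • Ωᴴ := by
  obtain ⟨s1, hs1, H1⟩ := lift h (θ - 1) (by rw [map_sub', hθ, map_one', sub_self])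
  obtain ⟨s2, hs2, H2⟩ := lift h (θ' - 1) (by rw [map_sub', hθ', map_one', sub_self])
  obtain ⟨s3, hs3, H3⟩ := lift h W hW
  obtain ⟨s, hs, hr1, hr2, hr3⟩ : ∃ s, ∃ _ : s ∈ S, (∃ t ∈ S, s = s1 * t) ∧
      (∃ t ∈ S, s = s2 * t) ∧ (∃ t ∈ S, s = s3 * t) := by
    refine ⟨s1 * (s2 * s3), S.mul_mem hs1 (S.mul_mem hs2 hs3),
      ⟨s2 * s3, S.mul_mem hs2 hs3, rfl⟩, ⟨s1 * s3, S.mul_mem hs1 hs3, ?_⟩,
      ⟨s1 * s2, S.mul_mem hs1 hs2, ?_⟩⟩
    · rw [← mul_assoc, ← mul_assoc, h.cen s1 hs1 s2]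
    · rw [← mul_assoc, h.cen s3 hs3]
  obtain ⟨a, a0, ha⟩ := H1 s hs hr1
  obtain ⟨b, b0, hb⟩ := H2 s hs hr2
  obtain ⟨w, w0, hw⟩ := H3 s hs hr3
  set μ := mapRingHom φ with hμ
  have hμS : SH μ := sh_map h.hom
  set τ := sub s (h.cen s hs) with hτ
  have hτS : SH τ := sh_sub s _ (h.sa s hs)
  set σ := sub (φ s) (h.cenB s hs) with hσ
  have hσS : SH σ := sh_sub (φ s) _ (by rw [← h.hom, h.sa s hs])
  have ha1 : (1 + a).map μ = θ.map σ := by
    rw [map_add', ha, map_sub', map_one', map_one', add_sub_cancel]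
  have hb1 : (1 + b).map μ = θ'.map σ := by
    rw [map_add', hb, map_sub', map_one', map_one', add_sub_cancel]
  have hc0 : SH (constantCoeff : A[X] →+* A) := fun p => by
    rw [constantCoeff_apply, constantCoeff_apply, star_coeff]
  have ha0 : (1 + a).map constantCoeff = 1 := by rw [map_add', a0, map_one', add_zero]
  have hb0 : (1 + b).map constantCoeff = 1 := by rw [map_add', b0, map_one', add_zero]
  have hτc : (Ψ.map τ).map constantCoeff = Ψ0 := by
    rw [← h0]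
    ext i j
    simp only [Matrix.map_apply, constantCoeff_apply]
    rw [hτ, sub_coeff, pow_zero, mul_one]
  have hτμ : (Ψ.map τ).map μ = (Ψ.map μ).map σ := by
    ext i j n
    simp only [Matrix.map_apply]
    rw [hμ, hτ, map_sub_comm φ s _ (h.cenB s hs)]
  have hΨ0μ : (Ψ0.map (C : A →+* A[X])).map μ = (Ψ0.map φ).map (C : B →+* B[X]) := by
    ext i j n
    simp [hμ]
  have hΨ0c : (Ψ0.map (C : A →+* A[X])).map constantCoeff = Ψ0 := by
    ext i j
    simp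
  -- the three error terms
  obtain ⟨t1, ht1, K1⟩ := kill h ((1 + a) * (1 + b) - 1)
    (by rw [map_sub', Matrix.map_mul, ha0, hb0, map_one', one_mul, sub_self])
    (by rw [← hμ, map_sub', Matrix.map_mul, ha1, hb1, ← Matrix.map_mul, h1, map_one', map_one',
      sub_self])
  obtain ⟨t2, ht2, K2⟩ := kill h ((1 + b) * (1 + a) - 1)
    (by rw [map_sub', Matrix.map_mul, ha0, hb0, map_one', one_mul, sub_self])
    (by rw [← hμ, map_sub', Matrix.map_mul, ha1, hb1, ← Matrix.map_mul, h2, map_one', map_one',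
      sub_self])
  obtain ⟨t3, ht3, K3⟩ := kill h
    ((1 + a)ᴴ * Ψ.map τ * (1 + a) - (Ψ0.map (C : A →+* A[X]) + w - (ε : ℤ) • wᴴ))
    (by
      rw [map_sub', Matrix.map_mul, Matrix.map_mul, ← map_conj hc0, ha0, hτc, map_form ε hc0,
        hΨ0c, w0]
      simp)
    (by
      rw [← hμ, map_sub', Matrix.map_mul, Matrix.map_mul, ← map_conj hμS, ha1, hτμ,
        map_form ε hμS, hΨ0μ, hw, map_conj hσS, ← Matrix.map_mul, ← Matrix.map_mul, hiso,
        map_form ε hσS, map_C_sub, sub_self])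
  obtain ⟨t, ht, hq1, hq2, hq3⟩ : ∃ s, ∃ _ : s ∈ S, (∃ t ∈ S, s = t1 * t) ∧
      (∃ t ∈ S, s = t2 * t) ∧ (∃ t ∈ S, s = t3 * t) := by
    refine ⟨t1 * (t2 * t3), S.mul_mem ht1 (S.mul_mem ht2 ht3),
      ⟨t2 * t3, S.mul_mem ht2 ht3, rfl⟩, ⟨t1 * t3, S.mul_mem ht1 ht3, ?_⟩,
      ⟨t1 * t2, S.mul_mem ht1 ht2, ?_⟩⟩
    · rw [← mul_assoc, ← mul_assoc, h.cen t1 ht1 t2]
    · rw [← mul_assoc, h.cen t3 ht3]
  have L1 := K1 t ht hq1
  have L2 := K2 t ht hq2
  have L3 := K3 t ht hq3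
  set ρ := sub t (h.cen t ht) with hρ
  have hρS : SH ρ := sh_sub t _ (h.sa t ht)
  rw [map_sub', Matrix.map_mul, map_one', sub_eq_zero] at L1 L2
  rw [map_sub', Matrix.map_mul, Matrix.map_mul, ← map_conj hρS, map_form ε hρS, sub_eq_zero,
    hρ, map_C_sub, hτ, map_map_sub s t _ _ (h.cen _ (S.mul_mem hs ht))] at L3
  exact ⟨s * t, S.mul_mem hs ht, (1 + a).map ρ, (1 + b).map ρ, w.map ρ, L1, L2, L3⟩

end Descend

end Pool.Agent.Lib.MP8a3537.CRQ
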