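import Pool.Agent.Lib.MP_8a3537_gt.CR.QPC

/-!
# Patching (MP_8a3537_gt, folder CR, helper30): pencils of forms

`Λ + X ξ` over `A[X]`. If it is stably isometric to a constant form over `B[X]`, `B` a localization of
`A` at `S`, then there is `s ∈ S` such that `Λ + (r + s r') ξ` is stably isometric to `Λ + r ξ` for all
central self-adjoint `r`, `r'`.
-/

set_option autoImplicit false
set_option linter.unusedSectionVars false

namespace Pool.Agent.Lib.MP8a3537.CRQ

open Matrix Polynomial Pool.Agent.Lib.MP8a3537.UV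

section Pencil

variable {A B : Type} [Ring A] [StarRing A] [Ring B] [StarRing B] {S : Submonoid A}
  {φ : A →+* B}

/-- The pencil `(Λ + x ξ) ⊕ h_m`. -/
def Pen {N : Type} [Fintype N] [DecidableEq N] (Λ ξ : Matrix N N A) (m : ℕ) (x : A) :
    Matrix (N ⊕ (Fin m ⊕ Fin m)) (N ⊕ (Fin m ⊕ Fin m)) A :=
  fromBlocks (Λ + x • ξ) 0 0 (hyp (Fin m) A)

theorem pen_map {N : Type} [Fintype N] [DecidableEq N] (Λ ξ : Matrix N N A) (m : ℕ) (x : A)
    (f : A →+* B) : (Pen Λ ξ m x).map f = Pen (Λ.map f) (ξ.map f) m (f x) := by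
  unfold Pen
  rw [Matrix.fromBlocks_map, hyp_map]
  congr 1
  · ext i j
    simp
  · ext i j
    simp
  · ext i j
    simp

/-- The evaluation at a central element. -/
noncomputable def evA (x : A) (hx : ∀ a, x * a = a * x) : A[X] →+* A :=
  eval₂RingHom' (RingHom.id A) x (fun a => (hx a).symm)

theorem evA_C (x : A) (hx : ∀ a, x * a = a * x) (a : A) : evA x hx (C a) = a := by
  show eval₂ (RingHom.id A) x (C a) = a
  rw [eval₂_C]
  rfl

theorem evA_X (x : A) (hx : ∀ a, x * a = a * x) : evA x hx X = x := by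
  show eval₂ (RingHom.id A) x X = x
  rw [eval₂_X]

theorem sh_evA (x : A) (hx : ∀ a, x * a = a * x) (hs : star x = x) : SH (evA x hx) :=
  sh_eval (fun _ => rfl) x hs _

/-- The homomorphism `A[X] → A[X][Y]`, `X ↦ X + Y`. -/
noncomputable def shf (A : Type) [Ring A] : A[X] →+* A[X][X] :=
  eval₂RingHom' ((C : A[X] →+* A[X][X]).comp (C : A →+* A[X])) (C X + X) (fun a => by
    show C (C a) * (C X + X) = (C X + X) * C (C a)
    rw [mul_add, add_mul, ← C_mul, ← C_mul, X_mul_C, X_mul_C])

theorem shf_C (a : A) : shf A (C a) = C (C a) := by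
  show eval₂ ((C : A[X] →+* A[X][X]).comp (C : A →+* A[X])) (C X + X) (C a) = C (C a)
  rw [eval₂_C]
  rfl

theorem shf_X : shf A X = C X + X := by
  show eval₂ ((C : A[X] →+* A[X][X]).comp (C : A →+* A[X])) (C X + X) X = C X + X
  rw [eval₂_X]

theorem sh_shf : SH (shf A) := by
  refine sh_eval (SH.comp sh_C sh_C) _ ?_ _
  rw [star_add, star_C, star_X, star_X]

theorem const_shf (p : A[X]) : constantCoeff (shf A p) = p := by
  have : (constantCoeff : A[X][X] →+* A[X]).comp (shf A) = RingHom.id A[X] := by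
    refine Polynomial.ringHom_ext' ?_ ?_
    · ext a : 1
      simp only [RingHom.comp_apply, shf_C, RingHom.id_apply, constantCoeff_apply, coeff_C_zero]
    · simp only [RingHom.comp_apply, shf_X, RingHom.id_apply, constantCoeff_apply, coeff_add,
        coeff_C_zero, coeff_X_zero, add_zero]
  exact congrArg (fun f : A[X] →+* A[X] => f p) this

theorem map_shf (p : A[X]) : mapRingHom (mapRingHom φ) (shf A p) = shf B (mapRingHom φ p) := by
  have : (mapRingHom (mapRingHom φ)).comp (shf A) = (shf B).comp (mapRingHom φ) := by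
    refine Polynomial.ringHom_ext' ?_ ?_
    · ext a : 1
      simp only [RingHom.comp_apply, shf_C, coe_mapRingHom, map_C]
    · simp only [RingHom.comp_apply, shf_X, coe_mapRingHom, map_X, Polynomial.map_add, map_C]
  exact congrArg (fun f : A[X] →+* B[X][X] => f p) this

/-- **Descent for pencils.** -/
theorem pencil (h : Loc S φ) (ε : ℤˣ) {N κ : Type} [Fintype N] [DecidableEq N] [Fintype κ]
    [DecidableEq κ] (Λ ξ : Matrix N N A) (m : ℕ) (Φ : Matrix κ κ B)
    (hiso : Isometric ε (Pen ((Λ.map φ).map C) ((ξ.map φ).map C) m (X : B[X]))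
      (Φ.map (C : B →+* B[X]))) :
    ∃ s ∈ S, ∀ r r' : A, (∀ a, r * a = a * r) → (∀ a, r' * a = a * r') → star r = r →
      star r' = r' → Isometric ε (Pen Λ ξ m (r + s * r')) (Pen Λ ξ m r) := by
  obtain ⟨u, v, Z, huv, hvu, hZ⟩ := hiso
  set P := Pen ((Λ.map φ).map C) ((ξ.map φ).map C) m (X : B[X]) with hP
  have hP' : P = (Pen (Λ.map C) (ξ.map C) m (X : A[X])).map (mapRingHom φ) := by
    rw [pen_map, hP]
    congr 1
    · ext i j : 2
      simp
    · ext i j : 2
      simp
    · simp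
  have hσS : SH (shf B) := sh_shf
  have hCS : SH (C : B[X] →+* B[X][X]) := sh_C
  have hcB : SH (constantCoeff : B[X][X] →+* B[X]) := fun p => by
    rw [constantCoeff_apply, constantCoeff_apply, star_coeff]
  have hcσ : ∀ {a b : Type} (M : Matrix a b B[X]), (M.map (shf B)).map constantCoeff = M := by
    intro a b M
    ext i j : 2
    simp only [Matrix.map_apply]
    rw [const_shf]
  have hcC : ∀ {a b : Type} (M : Matrix a b B[X]),
      (M.map (C : B[X] →+* B[X][X])).map constantCoeff = M := by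
    intro a b M
    ext i j : 2
    simp only [Matrix.map_apply, constantCoeff_apply, coeff_C_zero]
  -- the identity over `B[X][Y]`
  have e1 : (Φ.map (C : B →+* B[X])).map (shf B) = (u.map (shf B))ᴴ * P.map (shf B) * u.map (shf B)
      + Z.map (shf B) - (ε : ℤ) • (Z.map (shf B))ᴴ := by
    rw [hZ, map_form ε hσS, Matrix.map_mul, Matrix.map_mul, ← map_conj hσS]
  have e2 : (Φ.map (C : B →+* B[X])).map (C : B[X] →+* B[X][X])
      = (u.map C)ᴴ * P.map C * u.map C + Z.map C - (ε : ℤ) • (Z.map (C : B[X] →+* B[X][X]))ᴴ := by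
    rw [hZ, map_form ε hCS, Matrix.map_mul, Matrix.map_mul, ← map_conj hCS]
  have e3 : (Φ.map (C : B →+* B[X])).map (shf B)
      = (Φ.map (C : B →+* B[X])).map (C : B[X] →+* B[X][X]) := by
    ext i j : 2
    simp only [Matrix.map_apply]
    rw [shf_C]
  have vu1 : v.map (C : B[X] →+* B[X][X]) * u.map C = 1 := by
    rw [← Matrix.map_mul, hvu, map_one']
  have uv1 : u.map (C : B[X] →+* B[X][X]) * v.map C = 1 := by
    rw [← Matrix.map_mul, huv, map_one']
  have vu2 : v.map (shf B) * u.map (shf B) = 1 := by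
    rw [← Matrix.map_mul, hvu, map_one']
  have uv2 : u.map (shf B) * v.map (shf B) = 1 := by
    rw [← Matrix.map_mul, huv, map_one']
  have e4 : (u.map (shf B))ᴴ * P.map (shf B) * u.map (shf B)
      = (u.map C)ᴴ * P.map C * u.map C + (Z.map C - Z.map (shf B))
        - (ε : ℤ) • (Z.map (C : B[X] →+* B[X][X]) - Z.map (shf B))ᴴ := by
    have e5 := e1.symm.trans (e3.trans e2)
    rw [Matrix.conjTranspose_sub, smul_sub]
    have e6 : (u.map (shf B))ᴴ * P.map (shf B) * u.map (shf B)
        = ((u.map (shf B))ᴴ * P.map (shf B) * u.map (shf B)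
      + Z.map (shf B) - (ε : ℤ) • (Z.map (shf B))ᴴ) - Z.map (shf B)
        + (ε : ℤ) • (Z.map (shf B))ᴴ := by abel
    rw [e6, e5]
    abel
  obtain ⟨sP, hsP, Θ, Θ', Ω, h1, h2, h3⟩ := descend h.pol ε
    ((Pen (Λ.map C) (ξ.map C) m (X : A[X])).map (shf A))
    (Pen (Λ.map C) (ξ.map C) m (X : A[X])) (by
      ext i j : 2
      simp only [Matrix.map_apply]
      rw [const_shf])
    (u.map (shf B) * v.map C) (u.map C * v.map (shf B))
    ((v.map C)ᴴ * (Z.map C - Z.map (shf B)) * v.map C)
    (by rw [Matrix.mul_assoc, ← Matrix.mul_assoc (v.map C), vu1, Matrix.one_mul, uv2])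
    (by rw [Matrix.mul_assoc, ← Matrix.mul_assoc (v.map (shf B)), vu2, Matrix.one_mul, uv1])
    (by rw [Matrix.map_mul, hcσ, hcC, huv])
    (by rw [Matrix.map_mul, hcσ, hcC, huv])
    (by rw [Matrix.map_mul, Matrix.map_mul, map_sub', hcσ, hcC, sub_self, Matrix.mul_zero,
      Matrix.zero_mul])
    (by
      have e7 : ((Pen (Λ.map C) (ξ.map C) m (X : A[X])).map (shf A)).map
          (mapRingHom (mapRingHom φ)) = P.map (shf B) := by
        rw [hP']
        ext i j : 2
        simp only [Matrix.map_apply]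
        rw [map_shf]
      rw [e7, ← hP', Matrix.conjTranspose_mul]
      have e8 : (v.map C)ᴴ * (u.map (shf B))ᴴ * P.map (shf B) * (u.map (shf B) * v.map C)
          = (v.map C)ᴴ * ((u.map (shf B))ᴴ * P.map (shf B) * u.map (shf B)) * v.map C := by
        simp only [Matrix.mul_assoc]
      have e9 : (v.map C)ᴴ * ((u.map C)ᴴ * P.map C * u.map C) * v.map C
          = P.map (C : B[X] →+* B[X][X]) := by
        have e10 : (v.map C)ᴴ * ((u.map C)ᴴ * P.map C * u.map C) * v.map C
          = (u.map C * v.map C)ᴴ * P.map (C : B[X] →+* B[X][X]) * (u.map C * v.map C) := by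
          rw [Matrix.conjTranspose_mul]
          simp only [Matrix.mul_assoc]
        rw [e10, uv1, Matrix.conjTranspose_one, Matrix.one_mul, Matrix.mul_one]
      rw [e8, e4, Matrix.mul_sub, Matrix.mul_add, Matrix.sub_mul, Matrix.add_mul, e9]
      simp only [Matrix.conjTranspose_mul, Matrix.conjTranspose_conjTranspose, Matrix.mul_smul,
        Matrix.smul_mul, Matrix.mul_assoc])
  obtain ⟨s, hs, rfl⟩ := hsP
  refine ⟨s, hs, fun r r' hr hr' hrs hrs' => ?_⟩
  have hCr' : ∀ a : A[X], (C r' : A[X]) * a = a * C r' := by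
    intro a
    ext n
    rw [coeff_C_mul, coeff_mul_C, hr']
  set f1 := evA (C r' : A[X]) hCr' with hf1
  have f1S : SH f1 := sh_evA _ _ (by rw [star_C, hrs'])
  set f2 := evA r hr with hf2
  have f2S : SH f2 := sh_evA _ _ hrs
  have fS : SH (f2.comp f1) := SH.comp f2S f1S
  have hx : ∀ a, (r + s * r') * a = a * (r + s * r') := by
    intro a
    rw [add_mul, mul_add, hr, mul_assoc, hr', ← mul_assoc, h.cen s hs, mul_assoc]
  have g1 : ∀ p : A[X], f2 (f1 (sub (C s) (h.pol.cen _ ⟨s, hs, rfl⟩) (shf A p)))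
      = evA (r + s * r') hx p := by
    intro p
    have : ((f2.comp f1).comp (sub (C s) (h.pol.cen _ ⟨s, hs, rfl⟩))).comp (shf A)
        = evA (r + s * r') hx := by
      refine Polynomial.ringHom_ext' ?_ ?_
      · ext a : 1
        simp only [RingHom.comp_apply]
        rw [shf_C, sub_C, hf1, evA_C, hf2, evA_C, evA_C]
      · simp only [RingHom.comp_apply]
        rw [shf_X, map_add, sub_C, sub_X, map_add, map_mul, hf1, evA_C, evA_C, evA_X, map_add,
          map_mul, hf2, evA_X, evA_C, evA_C, evA_X]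
    exact congrArg (fun f : A[X] →+* A => f p) this
  have g2 : ∀ (x : A) (hx : ∀ a, x * a = a * x),
      (Pen (Λ.map C) (ξ.map C) m (X : A[X])).map (evA x hx) = Pen Λ ξ m x := by
    intro x hx
    rw [pen_map, evA_X]
    congr 1
    · ext i j
      simp only [Matrix.map_apply]
      rw [evA_C]
    · ext i j
      simp only [Matrix.map_apply]
      rw [evA_C]
  have h4 : Isometric ε (((Pen (Λ.map C) (ξ.map C) m (X : A[X])).map (shf A)).map
      (sub (C s) (h.pol.cen _ ⟨s, hs, rfl⟩)))
      ((Pen (Λ.map C) (ξ.map C) m (X : A[X])).map (C : A[X] →+* A[X][X])) := by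
    refine ⟨Θ, Θ', -Ω, h1, h2, ?_⟩
    have h5 : Θᴴ * (((Pen (Λ.map C) (ξ.map C) m (X : A[X])).map (shf A)).map
      (sub (C s) (h.pol.cen _ ⟨s, hs, rfl⟩))) * Θ = _ := h3
    rw [h5]
    simp only [Matrix.conjTranspose_neg, smul_neg]
    abel
  have h6 := iso_map ε fS h4
  have h7 : (((Pen (Λ.map C) (ξ.map C) m (X : A[X])).map (shf A)).map
      (sub (C s) (h.pol.cen _ ⟨s, hs, rfl⟩))).map (f2.comp f1) = Pen Λ ξ m (r + s * r') := by
    rw [← g2 (r + s * r') hx]
    ext i j
    simp only [Matrix.map_apply, RingHom.comp_apply]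
    rw [g1]
  have h8 : ((Pen (Λ.map C) (ξ.map C) m (X : A[X])).map (C : A[X] →+* A[X][X])).map (f2.comp f1)
      = Pen Λ ξ m r := by
    rw [← g2 r hr]
    ext i j
    simp only [Matrix.map_apply, RingHom.comp_apply]
    rw [hf1, evA_C]
  rw [h7, h8] at h6
  exact h6

end Pencil

end Pool.Agent.Lib.MP8a3537.CRQ
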