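import Pool.Agent.Lib.MP_8a3537_gt.CR.SCL

/-!
# Patching (MP_8a3537_gt, folder CR, helper30): `h + (s + 4c) ξ` and `h + s ξ` are isometric

The proof of `CR.scale` (helper73) for a general central self-adjoint element `s` in the place of `1`.
-/

set_option autoImplicit false
set_option linter.unusedSectionVars false

namespace Pool.Agent.Lib.MP8a3537.CRQ

open Matrix Pool.Agent.Lib.MP8a3537.UV Pool.Agent.Lib.MP8a3537.CR

section Poly

open Polynomial

variable {Z : Type*} [CommRing Z]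

/-- There is a polynomial `w`, divisible by `X`, with `(w + w²) (1 + (s + 4c) X) = - c X` modulo
`X ^ m`. -/
theorem exists_wg (s c : Z) (m : ℕ) : ∃ w : Z[X], X ∣ w ∧
    X ^ m ∣ (w + w ^ 2) * (1 + (C s + 4 * C c) * X) + C c * X := by
  obtain ⟨d, q, hd⟩ : ∃ d q : Z[X], (1 + (C s + 4 * C c) * X) * d = 1 + X ^ m * q := by
    refine ⟨∑ i ∈ Finset.range m, (-((C s + 4 * C c) * X)) ^ i, -(-(C s + 4 * C c)) ^ m, ?_⟩
    have h := mul_neg_geom_sum (-((C s + 4 * C c) * X) : Z[X]) m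
    rw [sub_neg_eq_add] at h
    rw [h, ← neg_mul, mul_pow]
    ring
  let y : Z[X] := C c * X * d
  obtain ⟨r, hr⟩ := cat_dvd y m
  refine ⟨-(y * cat y m), ⟨-(C c * d * cat y m), by simp only [y]; ring⟩, ?_⟩
  have h1 : cat y m = 1 + y * cat y m ^ 2 - y ^ (m + 1) * r := by
    rw [← hr]
    change cat y m = 1 + y * cat y m ^ 2 - (1 + y * cat y m ^ 2 - cat y m)
    ring
  have h2 : -(y * cat y m) + (-(y * cat y m)) ^ 2 = -y + y * (y ^ (m + 1) * r) := by
    have h3 : -(y * cat y m) + (-(y * cat y m)) ^ 2 = y * (y * cat y m ^ 2 - cat y m) := by ring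
    rw [h3]
    have h4 : y * cat y m ^ 2 - cat y m = -1 + y ^ (m + 1) * r := by
      linear_combination -h1
    rw [h4]
    ring
  rw [h2]
  have h5 : (-y + y * (y ^ (m + 1) * r)) * (1 + (C s + 4 * C c) * X) + C c * X =
      X ^ m * (-(C c * X) * q + y ^ 2 * (C c * d) ^ m * r * (1 + (C s + 4 * C c) * X)) := by
    have h6 : y ^ (m + 1) = y * (X ^ m * (C c * d) ^ m) := by
      rw [pow_succ, mul_comm, ← mul_pow]
      congr 2
      simp only [y]
      ring
    rw [h6]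
    have h7 : -y * (1 + (C s + 4 * C c) * X) = -(C c * X) * (1 + X ^ m * q) := by
      rw [← hd]
      simp only [y]
      ring
    linear_combination h7
  rw [h5]
  exact dvd_mul_right _ _

end Poly

section Scale

variable {A : Type*} [Ring A] [StarRing A] {κ : Type*} [Fintype κ] [DecidableEq κ]

/-- **Scaling**: the forms `h + (s + 4c) ξ` and `h + s ξ` are isometric. -/
theorem scaleG (ε : ℤˣ) (h ξ N : Matrix κ κ A)
    (hJ : (h + (ε : ℤ) • hᴴ) * N = ξ + (ε : ℤ) • ξᴴ) (hN : IsNilpotent N) (s c : zp A) :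
    Isometric ε (h + (s + 4 * c) • ξ) (h + s • ξ) := by
  obtain ⟨m, hm⟩ := hN
  obtain ⟨w, hw1, hw2⟩ := exists_wg s c m
  set J : Matrix κ κ A := h + (ε : ℤ) • hᴴ with hJdef
  have hJs : Jᴴ = (ε : ℤ) • J := by
    rw [hJdef, conjTranspose_add, conjTranspose_zsmul, conjTranspose_conjTranspose, smul_add,
      smul_smul, eps_sq, one_smul, add_comm]
  have hadj : Nᴴ * J = J * N := by
    have h1 : (J * N)ᴴ = (ε : ℤ) • (J * N) := by
      rw [hJ, conjTranspose_add, conjTranspose_zsmul, conjTranspose_conjTranspose, smul_add,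
        smul_smul, eps_sq, one_smul, add_comm]
    rw [conjTranspose_mul, hJs, Matrix.mul_smul] at h1
    have h2 := congrArg (fun M : Matrix κ κ A => (ε : ℤ) • M) h1
    simpa only [smul_smul, eps_sq, one_smul] using h2
  set W : Matrix κ κ A := Polynomial.aeval N w with hW
  have hWJ : Wᴴ * J = J * W := aeval_adj hadj w
  set T : Matrix κ κ A := 1 + (s + 4 * c) • N with hT
  have hT' : T = Polynomial.aeval N (1 + (Polynomial.C s + 4 * Polynomial.C c) * Polynomial.X) := by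
    rw [map_add, map_mul, map_one, Polynomial.aeval_X, map_add, map_mul, Polynomial.aeval_C,
      Polynomial.aeval_C, map_ofNat, hT, Algebra.smul_def, map_add, map_mul, map_ofNat]
  -- the identity
  have hid : (W + W * W) * T + c • N = 0 := by
    obtain ⟨q, hq⟩ := hw2
    have h1 := congrArg (Polynomial.aeval N) hq
    rw [map_mul (Polynomial.aeval N) (Polynomial.X ^ m) q, map_pow, Polynomial.aeval_X, hm,
      Matrix.zero_mul, map_add, map_mul, ← hT', map_add, map_pow, map_mul, Polynomial.aeval_C,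
      Polynomial.aeval_X, ← Algebra.smul_def, pow_two] at h1
    exact h1
  have hcomm : W * T = T * W := by
    rw [hT', hW, ← map_mul, mul_comm, map_mul]
  -- `1 + 2 W` is invertible
  have hWnil : IsNilpotent ((2 : ℤ) • W) := by
    refine ⟨m, ?_⟩
    obtain ⟨q, hq⟩ := hw1
    have h1 : W ^ m = 0 := by
      rw [hW, ← map_pow, hq, mul_pow, map_mul, map_pow, Polynomial.aeval_X, hm, Matrix.zero_mul]
    rw [smul_pow, h1, smul_zero]
  obtain ⟨V, hV⟩ := hWnil.isUnit_one_add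
  refine ⟨V, ↑V⁻¹, -((2 : ℤ) • (Wᴴ * (h + (s + 4 * c) • ξ)) +
    (2 : ℤ) • (Wᴴ * (h + (s + 4 * c) • ξ) * W) + (2 : ℤ) • c • ξ), V.mul_inv, V.inv_mul, ?_⟩
  rw [hV]
  set θ : Matrix κ κ A := h + (s + 4 * c) • ξ with hθ
  have hΦ : θ + (ε : ℤ) • θᴴ = J * T := by
    rw [hθ, hT, Matrix.mul_add, Matrix.mul_one, Matrix.mul_smul, hJ, conjTranspose_add, zp_conj,
      hJdef, smul_add, smul_add, smul_comm (ε : ℤ) (s + 4 * c)]
    abel
  have hkey : (2 : ℤ) • (c • (ξ + (ε : ℤ) • ξᴴ)) + (2 : ℤ) • ((θ + (ε : ℤ) • θᴴ) * W) +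
      (2 : ℤ) • (Wᴴ * (θ + (ε : ℤ) • θᴴ) * W) = 0 := by
    rw [hΦ, ← hJ]
    have h1 : Wᴴ * (J * T) * W = J * (W * W * T) := by
      rw [← Matrix.mul_assoc, hWJ, Matrix.mul_assoc, Matrix.mul_assoc, ← hcomm,
        ← Matrix.mul_assoc W W T]
    have h2 : J * T * W = J * (W * T) := by rw [Matrix.mul_assoc, ← hcomm]
    rw [h1, h2, ← smul_add, ← smul_add, ← Matrix.mul_smul, ← Matrix.mul_add, ← Matrix.mul_add]
    have h3 : c • N + W * T + W * W * T = 0 := by
      rw [← hid, Matrix.add_mul]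
      abel
    rw [h3, Matrix.mul_zero, smul_zero]
  have hexp : (1 + (2 : ℤ) • W)ᴴ * θ * (1 + (2 : ℤ) • W) = θ + (2 : ℤ) • (Wᴴ * θ) +
      (2 : ℤ) • (θ * W) + (4 : ℤ) • (Wᴴ * θ * W) := by
    rw [conjTranspose_add, conjTranspose_one, conjTranspose_zsmul]
    simp only [Matrix.add_mul, Matrix.mul_add, Matrix.one_mul, Matrix.mul_one, Matrix.smul_mul,
      Matrix.mul_smul]
    have h0 : (4 : ℤ) • (Wᴴ * θ * W) = (2 : ℤ) • (2 : ℤ) • (Wᴴ * θ * W) := by
      rw [smul_smul]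
      norm_num
    rw [h0, smul_add]
    abel
  rw [hexp]
  have hθ4 : θ = h + s • ξ + (4 : ℤ) • c • ξ := by
    rw [hθ, add_smul, mul_smul]
    have : (4 : zp A) • (c • ξ) = (4 : ℤ) • c • ξ := by
      rw [← Int.cast_smul_eq_zsmul (zp A) 4 (c • ξ)]
      norm_num
    rw [this]
    abel
  have hfin : h + s • ξ = θ - (4 : ℤ) • c • ξ := by rw [hθ4]; abel
  rw [hfin]
  simp only [conjTranspose_neg, conjTranspose_add, conjTranspose_zsmul, conjTranspose_mul,
    conjTranspose_conjTranspose, zp_conj, smul_neg, smul_add]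
  simp only [Matrix.add_mul, Matrix.mul_add, Matrix.smul_mul, Matrix.mul_smul, smul_add,
    ← Matrix.mul_assoc] at hkey ⊢
  rw [smul_comm (ε : ℤ) (2 : ℤ), smul_comm (ε : ℤ) (2 : ℤ), smul_comm (ε : ℤ) (2 : ℤ),
    smul_comm (ε : ℤ) c ξᴴ]
  have h4 : ∀ M : Matrix κ κ A, (4 : ℤ) • M = (2 : ℤ) • M + (2 : ℤ) • M := by
    intro M
    rw [← add_smul]
    norm_num
  rw [h4, h4]
  rw [← sub_eq_zero] at hkey ⊢
  rw [← neg_eq_zero, ← hkey]
  abel

end Scale

end Pool.Agent.Lib.MP8a3537.CRQ
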