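import Pool.Agent.Lib.MP_8a3537_gt.CR.QPD
import Pool.Agent.Lib.MP_8a3537_gt.CR.QSC

/-!
# Patching (MP_8a3537_gt, folder CR, helper30): the patching theorem

`Van R G X B Y`: the vanishing theorem for the coefficient ring `R`. `patch`: if `C` is a ring of central
self-adjoint elements of `R`, and `Van R'[X]` holds for a localization `R'` of `R` at every maximal
ideal of `C` which contains `2`, then `Van R` holds.
-/

set_option autoImplicit false
set_option linter.unusedSectionVars false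

namespace Pool.Agent.Lib.MP8a3537.CRQ

open Matrix Polynomial Pool.Agent.Lib.MP8a3537.UV
open Pool.Agent.Lib.MP8a3537.UV.EMVAux (iso_trans iso_symm iso_sum iso_sum' iso_assoc hyp_sum)
open Pool.Agent.Lib.MP8a3537.CR (Van)

section Scalar

variable {A : Type} [Ring A] [StarRing A]

theorem conj_smul (x : A) (hx : ∀ a, x * a = a * x) (hs : star x = x) {ι κ : Type}
    (M : Matrix ι κ A) : (x • M)ᴴ = x • Mᴴ := by
  ext i j
  simp only [Matrix.conjTranspose_apply, Matrix.smul_apply, smul_eq_mul, star_mul, hs, hx]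

theorem mul_smul_cen (x : A) (hx : ∀ a, x * a = a * x) {ι κ l : Type} [Fintype κ]
    (M : Matrix ι κ A) (N : Matrix κ l A) : M * (x • N) = x • (M * N) := by
  ext i j
  simp only [Matrix.mul_apply, Matrix.smul_apply, smul_eq_mul, Finset.mul_sum]
  refine Finset.sum_congr rfl fun k _ => ?_
  rw [← mul_assoc, ← hx, mul_assoc]

theorem smul_pow_cen (x : A) (hx : ∀ a, x * a = a * x) {ι : Type} [Fintype ι] [DecidableEq ι]
    (M : Matrix ι ι A) (k : ℕ) : (x • M) ^ k = x ^ k • M ^ k := by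
  induction k with
  | zero => rw [pow_zero, pow_zero, pow_zero, one_smul]
  | succ k ih =>
    rw [pow_succ, ih, mul_smul_cen x hx, Matrix.smul_mul, smul_smul, ← pow_succ', ← pow_succ]

/-- The pencil of a unitary form. -/
def xi {n : Type} (ψ μ χ : Matrix n n A) : Matrix (n ⊕ n) (n ⊕ n) A := fromBlocks ψ μᴴ 0 χ

theorem uf_smul (x : A) (hx : ∀ a, x * a = a * x) (hs : star x = x) {n : Type} [Fintype n]
    [DecidableEq n] (ψ μ χ : Matrix n n A) :
    UF (x • ψ) (x • μ) (x • χ) = hyp n A + x • xi ψ μ χ := by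
  unfold UF hyp xi
  rw [conj_smul x hx hs, Matrix.fromBlocks_smul, Matrix.fromBlocks_add]
  simp

theorem nu_smul (ε : ℤˣ) (x : A) (hx : ∀ a, x * a = a * x) (hs : star x = x) {n : Type} [Fintype n]
    [DecidableEq n] (ψ μ χ : Matrix n n A) :
    nu ε (x • ψ + (ε : ℤ) • (x • ψ)ᴴ) (x • μ) (x • χ + (ε : ℤ) • (x • χ)ᴴ)
      = x • nu ε (ψ + (ε : ℤ) • ψᴴ) μ (χ + (ε : ℤ) • χᴴ) := by
  unfold nu
  rw [conj_smul x hx hs, conj_smul x hx hs, conj_smul x hx hs, Matrix.fromBlocks_smul]
  congr 1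
  · rw [smul_comm (ε : ℤ) x χᴴ, ← smul_add, smul_comm (ε : ℤ) x]
  · rw [smul_comm (ε : ℤ) x ψᴴ, ← smul_add]

theorem nu_map {B : Type} [Ring B] [StarRing B] (ε : ℤˣ) {f : A →+* B} (hf : SH f) {n : Type}
    [Fintype n] [DecidableEq n] (ψ μ χ : Matrix n n A) :
    nu ε (ψ.map f + (ε : ℤ) • (ψ.map f)ᴴ) (μ.map f) (χ.map f + (ε : ℤ) • (χ.map f)ᴴ)
      = (nu ε (ψ + (ε : ℤ) • ψᴴ) μ (χ + (ε : ℤ) • χᴴ)).map f := by
  unfold nu
  rw [Matrix.fromBlocks_map]
  congr 1
  · ext i j
    simp only [Matrix.map_apply, Matrix.add_apply, Matrix.smul_apply, Matrix.conjTranspose_apply,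
      map_add, map_zsmul, hf _]
  · ext i j
    simp only [Matrix.map_apply, Matrix.add_apply, Matrix.smul_apply, Matrix.conjTranspose_apply,
      map_add, map_zsmul, hf _]
  · ext i j
    simp only [Matrix.map_apply, Matrix.conjTranspose_apply, hf _]

theorem nilp_map {B : Type} [Ring B] (f : A →+* B) {n : Type} [Fintype n] [DecidableEq n]
    {M : Matrix n n A} (h : IsNilpotent M) : IsNilpotent (M.map f) := by
  have := h.map (RingHom.mapMatrix (m := n) f)
  exact this

end Scalar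

section Kappa

variable (B G : Type) [Ring B] [StarRing B] [Group G]

/-- The homomorphism `B[X][G] → B[G][X]`. -/
noncomputable def kap : MonoidAlgebra B[X] G →+* (MonoidAlgebra B G)[X] :=
  MonoidAlgebra.liftNCRingHom
    (mapRingHom (MonoidAlgebra.singleOneRingHom : B →+* MonoidAlgebra B G))
    ((C : MonoidAlgebra B G →+* (MonoidAlgebra B G)[X]).toMonoidHom.comp (MonoidAlgebra.of B G))
    (fun p g => by
      show mapRingHom _ p * C (MonoidAlgebra.single g 1) = C (MonoidAlgebra.single g 1) *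
        mapRingHom _ p
      ext n : 1
      rw [coeff_mul_C, coeff_C_mul, coe_mapRingHom, coeff_map]
      show MonoidAlgebra.single 1 (p.coeff n) * MonoidAlgebra.single g 1
        = MonoidAlgebra.single g 1 * MonoidAlgebra.single 1 (p.coeff n)
      rw [MonoidAlgebra.single_mul_single, MonoidAlgebra.single_mul_single, mul_one, one_mul,
        mul_one, one_mul])

theorem kap_single (g : G) (p : B[X]) : kap B G (MonoidAlgebra.single g p)
    = mapRingHom (MonoidAlgebra.singleOneRingHom : B →+* MonoidAlgebra B G) p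
      * C (MonoidAlgebra.single g 1) := by
  unfold kap
  exact MonoidAlgebra.liftNC_single _ _ _ _

theorem sh_kap : SH (kap B G) := by
  have h1 : SH (MonoidAlgebra.singleOneRingHom : B →+* MonoidAlgebra B G) := fun b => by
    show MonoidAlgebra.single 1 (star b) = star (MonoidAlgebra.single 1 b)
    rw [UV.star_single, inv_one]
  intro x
  induction x using MonoidAlgebra.induction_linear with
  | zero => rw [star_zero, map_zero, star_zero]
  | add x y hx hy => rw [star_add, map_add, map_add, star_add, hx, hy]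
  | single g p =>
    rw [UV.star_single, kap_single, kap_single, star_mul, ← sh_map h1, star_C, UV.star_single,
      star_one]
    ext n : 1
    rw [coeff_mul_C, coeff_C_mul, coe_mapRingHom, coeff_map]
    show MonoidAlgebra.single 1 _ * MonoidAlgebra.single g⁻¹ 1
        = MonoidAlgebra.single g⁻¹ 1 * MonoidAlgebra.single 1 _
    rw [MonoidAlgebra.single_mul_single, MonoidAlgebra.single_mul_single, mul_one, one_mul,
        mul_one, one_mul]

theorem kap_C (y : MonoidAlgebra B G) :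
    kap B G (MonoidAlgebra.mapRingHom G (C : B →+* B[X]) y) = C y := by
  induction y using MonoidAlgebra.induction_linear with
  | zero => rw [map_zero, map_zero, C_0]
  | add x y hx hy => rw [map_add, map_add, hx, hy, C_add]
  | single g r =>
    rw [MonoidAlgebra.mapRingHom_single, kap_single, coe_mapRingHom, map_C, ← C_mul]
    congr 1
    show MonoidAlgebra.single 1 r * MonoidAlgebra.single g 1 = _
    rw [MonoidAlgebra.single_mul_single, one_mul, mul_one]

theorem kap_X : kap B G (MonoidAlgebra.single 1 X) = X := by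
  rw [kap_single, coe_mapRingHom, map_X]
  have : (MonoidAlgebra.single 1 1 : MonoidAlgebra B G) = 1 := rfl
  rw [this, C_1, mul_one]

end Kappa

section Main

variable {R R' G : Type} [Ring R] [StarRing R] [Ring R'] [StarRing R'] [Group G]
  {S : Submonoid R} {φ : R →+* R'}

theorem cen_single {r : R} (hr : ∀ a, r * a = a * r) (a : MonoidAlgebra R G) :
    MonoidAlgebra.single 1 r * a = a * MonoidAlgebra.single 1 r := by
  ext g
  rw [MonoidAlgebra.coeff_single_one_mul, MonoidAlgebra.coeff_mul_single_one, hr]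

theorem sa_single {r : R} (hr : star r = r) :
    star (MonoidAlgebra.single 1 r : MonoidAlgebra R G) = MonoidAlgebra.single 1 r := by
  rw [UV.star_single, inv_one, hr]

/-- The pencil over `R'[G][X]` is stably hyperbolic. -/
theorem van_pencil (hφ : SH φ) {X' B' Y' : Set G} (hV : Van R'[X] G X' B' Y') (ε : ℤˣ) (n : ℕ)
    (ψ μ χ : Matrix (Fin n) (Fin n) (MonoidAlgebra R G)) (hψ : SuppIn X' ψ) (hμ : SuppIn B' μ)
    (hχ : SuppIn Y' χ) (hnil : IsNilpotent (nu ε (ψ + (ε : ℤ) • ψᴴ) μ (χ + (ε : ℤ) • χᴴ))) :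
    ∃ m k : ℕ, Isometric ε (Pen (((hyp (Fin n) (MonoidAlgebra R G)).map
      (MonoidAlgebra.mapRingHom G φ)).map C) (((xi ψ μ χ).map (MonoidAlgebra.mapRingHom G φ)).map C)
        m (X : (MonoidAlgebra R' G)[X]))
      ((hyp (Fin k) (MonoidAlgebra R' G)).map
        (C : MonoidAlgebra R' G →+* (MonoidAlgebra R' G)[X])) := by
  set f : MonoidAlgebra R G →+* MonoidAlgebra R'[X] G :=
    (MonoidAlgebra.mapRingHom G (C : R' →+* R'[X])).comp (MonoidAlgebra.mapRingHom G φ) with hf
  have hfS : SH f := SH.comp (sh_ma sh_C) (sh_ma hφ)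
  have fcoeff : ∀ (x : MonoidAlgebra R G) (g : G), (f x).coeff g = C (φ (x.coeff g)) := by
    intro x g
    rw [hf, RingHom.comp_apply, MonoidAlgebra.coeff_mapRingHom, MonoidAlgebra.coeff_mapRingHom]
  set t : MonoidAlgebra R'[X] G := MonoidAlgebra.single 1 X with ht
  have htc : ∀ a, t * a = a * t := cen_single (fun a => X_mul)
  have hts : star t = t := sa_single star_X
  have supp : ∀ {Z : Set G} {M : Matrix (Fin n) (Fin n) (MonoidAlgebra R G)}, SuppIn Z M →
      SuppIn Z (t • M.map f) := by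
    intro Z M hM i j g hg
    refine hM i j g fun h0 => hg ?_
    rw [Matrix.smul_apply, smul_eq_mul, ht, MonoidAlgebra.coeff_single_one_mul, Matrix.map_apply,
      fcoeff, h0, map_zero, C_0, mul_zero]
  have hnil' : IsNilpotent (nu ε (t • ψ.map f + (ε : ℤ) • (t • ψ.map f)ᴴ) (t • μ.map f)
      (t • χ.map f + (ε : ℤ) • (t • χ.map f)ᴴ)) := by
    rw [nu_smul ε t htc hts, nu_map ε hfS]
    obtain ⟨k, hk⟩ := nilp_map f hnil
    refine ⟨k, ?_⟩
    rw [smul_pow_cen t htc, hk, smul_zero]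
  obtain ⟨m, k, hiso⟩ := hV ε n _ _ _ (supp hψ) (supp hμ) (supp hχ) hnil'
  refine ⟨m, k, ?_⟩
  have h1 := iso_map ε (sh_kap R' G) hiso
  rw [hyp_map (n := Fin k)] at h1
  rw [hyp_map (n := Fin k)]
  have h2 : (fromBlocks (UF (t • ψ.map f) (t • μ.map f) (t • χ.map f)) 0 0
      (hyp (Fin m) (MonoidAlgebra R'[X] G))).map (kap R' G)
      = Pen (((hyp (Fin n) (MonoidAlgebra R G)).map
      (MonoidAlgebra.mapRingHom G φ)).map C) (((xi ψ μ χ).map (MonoidAlgebra.mapRingHom G φ)).map C)
        m (X : (MonoidAlgebra R' G)[X]) := by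
    have kf : ∀ x, kap R' G (f x) = C (MonoidAlgebra.mapRingHom G φ x) := by
      intro x
      rw [hf, RingHom.comp_apply, kap_C]
    rw [uf_smul t htc hts, Matrix.fromBlocks_map, hyp_map]
    unfold Pen
    congr 1
    · rw [map_add', hyp_map, hyp_map, hyp_map]
      congr 1
      unfold xi
      rw [Matrix.fromBlocks_map, Matrix.fromBlocks_map, map_conj hfS]
      ext i j : 1
      simp only [Matrix.map_apply, Matrix.smul_apply, smul_eq_mul, map_mul]
      rw [ht, kap_X]
      refine congrArg (fun z : (MonoidAlgebra R' G)[X] => X * z) ?_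
      rcases i with i | i <;> rcases j with j | j
      · simp only [Matrix.fromBlocks_apply₁₁, Matrix.map_apply]
        exact kf _
      · simp only [Matrix.fromBlocks_apply₁₂, Matrix.map_apply]
        exact kf _
      · simp
      · simp only [Matrix.fromBlocks_apply₂₂, Matrix.map_apply]
        exact kf _
  rw [h2] at h1
  exact h1

/-- The forms `Ψ`, `Φ` are stably isometric. -/
def SI (ε : ℤˣ) {A ι : Type} [Ring A] [StarRing A] [Fintype ι] [DecidableEq ι]
    (Ψ Φ : Matrix ι ι A) : Prop :=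
  ∃ m : ℕ, Isometric ε (fromBlocks Ψ 0 0 (hyp (Fin m) A)) (fromBlocks Φ 0 0 (hyp (Fin m) A))

theorem SI.refl (ε : ℤˣ) {A ι : Type} [Ring A] [StarRing A] [Fintype ι] [DecidableEq ι]
    (Ψ : Matrix ι ι A) : SI ε Ψ Ψ := by
  refine ⟨0, 1, 1, 0, one_mul 1, one_mul 1, ?_⟩
  simp

theorem stab (ε : ℤˣ) {A ι : Type} [Ring A] [StarRing A] [Fintype ι] [DecidableEq ι]
    {Ψ Φ : Matrix ι ι A} {m : ℕ}
    (h : Isometric ε (fromBlocks Ψ 0 0 (hyp (Fin m) A)) (fromBlocks Φ 0 0 (hyp (Fin m) A)))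
    (k : ℕ) : Isometric ε (fromBlocks Ψ 0 0 (hyp (Fin (m + k)) A))
      (fromBlocks Φ 0 0 (hyp (Fin (m + k)) A)) := by
  have s1 := iso_sum' ε Ψ (iso_symm ε (hyp_sum (A := A) ε m k))
  have s2 := iso_assoc ε Ψ (hyp (Fin m) A) (hyp (Fin k) A)
  have s3 := iso_sum ε (hyp (Fin k) A) h
  have s4 := iso_symm ε (iso_assoc ε Φ (hyp (Fin m) A) (hyp (Fin k) A))
  have s5 := iso_sum' ε Φ (hyp_sum (A := A) ε m k)
  exact iso_trans ε s1 (iso_trans ε s2 (iso_trans ε s3 (iso_trans ε s4 s5)))

theorem SI.trans (ε : ℤˣ) {A ι : Type} [Ring A] [StarRing A] [Fintype ι] [DecidableEq ι]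
    {Ψ Φ Θ : Matrix ι ι A} (h1 : SI ε Ψ Φ) (h2 : SI ε Φ Θ) : SI ε Ψ Θ := by
  obtain ⟨m, h1⟩ := h1
  obtain ⟨k, h2⟩ := h2
  refine ⟨m + k, iso_trans ε (stab ε h1 k) ?_⟩
  have := stab ε h2 m
  rw [add_comm] at this
  exact this

/-- The form `h + r ξ`. -/
noncomputable def FF {C : Type} [CommRing C] (i : C →+* R) {N : Type} [Fintype N] [DecidableEq N]
    (Λ ξ : Matrix N N (MonoidAlgebra R G)) (r : C) : Matrix N N (MonoidAlgebra R G) :=
  Λ + (MonoidAlgebra.single 1 (i r) : MonoidAlgebra R G) • ξ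

/-- The ideal `J` of the elements `s` such that `h + (r + s r') ξ` is stably isometric to `h + r ξ`
for all `r`, `r'`. -/
noncomputable def JJ {C : Type} [CommRing C] (i : C →+* R) (ε : ℤˣ) {N : Type} [Fintype N]
    [DecidableEq N] (Λ ξ : Matrix N N (MonoidAlgebra R G)) : Ideal C where
  carrier := {s | ∀ r r' : C, SI ε (FF i Λ ξ (r + s * r')) (FF i Λ ξ r)}
  zero_mem' := fun r r' => by
    rw [zero_mul, add_zero]
    exact SI.refl ε _
  add_mem' := fun {s t} hs ht r r' => by
    have h3 : r + (s + t) * r' = r + s * r' + t * r' := by ring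
    rw [h3]
    exact SI.trans ε (ht (r + s * r') r') (hs r r')
  smul_mem' := fun c s hs r r' => by
    have h2 : r + c • s * r' = r + s * (c * r') := by
      rw [smul_eq_mul]
      ring
    rw [h2]
    exact hs r (c * r')

theorem nu_hyp {A : Type} [Ring A] [StarRing A] (ε : ℤˣ) {n : Type} [Fintype n] [DecidableEq n]
    (ψ μ χ : Matrix n n A) :
    (hyp n A + (ε : ℤ) • (hyp n A)ᴴ) * nu ε (ψ + (ε : ℤ) • ψᴴ) μ (χ + (ε : ℤ) • χᴴ)
      = xi ψ μ χ + (ε : ℤ) • (xi ψ μ χ)ᴴ := by
  unfold hyp nu xi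
  rw [Matrix.fromBlocks_conjTranspose, Matrix.fromBlocks_conjTranspose, Matrix.fromBlocks_smul,
    Matrix.fromBlocks_smul, Matrix.fromBlocks_add, Matrix.fromBlocks_add,
    Matrix.fromBlocks_multiply]
  simp only [Matrix.conjTranspose_zero, Matrix.conjTranspose_one, Matrix.conjTranspose_conjTranspose,
    smul_zero, add_zero, zero_add, Matrix.zero_mul, Matrix.one_mul, Matrix.smul_mul]
  congr 1
  rw [smul_smul, CR.eps_sq, one_smul]

/-- `4` is in the ideal `J`. -/
theorem four_mem {C : Type} [CommRing C] (i : C →+* R) (hi : ∀ (c : C) (a : R), i c * a = a * i c)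
    (his : ∀ c : C, star (i c) = i c) (ε : ℤˣ) {n : ℕ}
    (ψ μ χ : Matrix (Fin n) (Fin n) (MonoidAlgebra R G))
    (hnil : IsNilpotent (nu ε (ψ + (ε : ℤ) • ψᴴ) μ (χ + (ε : ℤ) • χᴴ))) :
    (4 : C) ∈ JJ (G := G) i ε (hyp (Fin n) (MonoidAlgebra R G)) (xi ψ μ χ) := by
  intro r r'
  let z : C → CR.zp (MonoidAlgebra R G) := fun r =>
    ⟨MonoidAlgebra.single 1 (i r), fun a => (cen_single (hi r) a).symm, sa_single (his r)⟩
  have h1 := scaleG ε (hyp (Fin n) (MonoidAlgebra R G)) (xi ψ μ χ) _ (nu_hyp ε ψ μ χ) hnil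
    (z r) (z r')
  have h2 : ∀ (w : CR.zp (MonoidAlgebra R G)), w • xi ψ μ χ = w.1 • xi ψ μ χ := by
    intro w
    ext1 a b
    rfl
  have h3 : (z r + 4 * z r').1 = MonoidAlgebra.single 1 (i (r + 4 * r')) := by
    show MonoidAlgebra.single 1 (i r) + 4 * MonoidAlgebra.single 1 (i r') = _
    have h4 : (4 : MonoidAlgebra R G) * MonoidAlgebra.single 1 (i r')
        = MonoidAlgebra.single 1 (4 * i r') := by
      ext g
      have h5 : (4 : MonoidAlgebra R G) = MonoidAlgebra.single 1 4 := by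
        have := (map_ofNat (MonoidAlgebra.singleOneRingHom : R →+* MonoidAlgebra R G) 4).symm
        exact this
      rw [h5, MonoidAlgebra.single_mul_single, one_mul]
    rw [h4, ← MonoidAlgebra.single_add, map_add, map_mul, map_ofNat]
  rw [h2, h2, h3] at h1
  exact ⟨0, iso_sum ε _ h1⟩

/-- **The patching theorem.** Let `i : C → R` be a homomorphism of a commutative ring to the central
self-adjoint elements of `R`. Suppose that for every maximal ideal `M` of `C` which contains `2` there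
is a localization `R'` of `R` at `M` such that the vanishing theorem holds for `R'[X]`, `X^* = X`. Then
it holds for `R`. -/
theorem patch {C : Type} [CommRing C] (i : C →+* R) (hi : ∀ (c : C) (a : R), i c * a = a * i c)
    (his : ∀ c : C, star (i c) = i c) (X' B' Y' : Set G)
    (h : ∀ M : Ideal C, M.IsMaximal → (2 : C) ∈ M →
      ∃ (R' : Type) (_ : Ring R') (_ : StarRing R') (φ : R →+* R'),
        (∀ r, φ (star r) = star (φ r)) ∧ (∀ s : C, s ∉ M → IsUnit (φ (i s))) ∧
        (∀ x : R', ∃ s : C, s ∉ M ∧ ∃ y : R, φ (i s) * x = φ y) ∧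
        (∀ y : R, φ y = 0 → ∃ s : C, s ∉ M ∧ i s * y = 0) ∧ Van R'[X] G X' B' Y') :
    Van R G X' B' Y' := by
  intro ε n ψ μ χ hψ hμ hχ hnil
  set Λ := hyp (Fin n) (MonoidAlgebra R G) with hΛ
  set ξ := xi ψ μ χ with hξ
  have hJ : JJ (G := G) i ε Λ ξ = ⊤ := by
    by_contra hne
    obtain ⟨M, hM, hle⟩ := Ideal.exists_le_maximal _ hne
    have h2 : (2 : C) ∈ M := by
      have h4 : (4 : C) ∈ M := hle (four_mem i hi his ε ψ μ χ hnil)
      have h5 : (2 : C) * 2 ∈ M := by
        have : (2 : C) * 2 = 4 := by norm_num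
        rw [this]
        exact h4
      rcases hM.isPrime.mem_or_mem h5 with h | h <;> exact h
    obtain ⟨R', _, _, φ, hst, hun, hden, htor, hV⟩ := h M hM h2
    have hL : Loc ((M.primeCompl).map (i : C →* R)) φ := by
      refine ⟨?_, ?_, hst, ?_, ?_, ?_⟩
      · rintro _ ⟨c, -, rfl⟩ a
        exact hi c a
      · rintro _ ⟨c, -, rfl⟩
        exact his c
      · rintro _ ⟨c, hc, rfl⟩ x
        obtain ⟨s, hs, y, hy⟩ := hden x
        obtain ⟨v, hv⟩ := hun s hs
        have e1 : φ (i s) * (φ (i c) * x) = φ (i s) * (x * φ (i c)) := by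
          have e2 : φ (i s) * φ (i c) = φ (i c) * φ (i s) := by
            rw [← map_mul φ, ← map_mul φ, hi s (i c)]
          rw [← mul_assoc, e2, mul_assoc, hy, ← mul_assoc, hy, ← map_mul, ← map_mul, hi]
        rw [← hv] at e1
        exact v.isUnit.mul_left_cancel e1
      · intro x
        obtain ⟨s, hs, y, hy⟩ := hden x
        exact ⟨_, ⟨s, hs, rfl⟩, y, hy⟩
      · intro y hy
        obtain ⟨s, hs, h0⟩ := htor y hy
        exact ⟨_, ⟨s, hs, rfl⟩, h0⟩
    obtain ⟨m, k, hiso⟩ := van_pencil hst hV ε n ψ μ χ hψ hμ hχ hnil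
    obtain ⟨_, ⟨_, ⟨c, hc, rfl⟩, rfl⟩, H⟩ := pencil (hL.ma G) ε Λ ξ m _ hiso
    refine hc (hle ?_)
    intro r r'
    have H' := H (MonoidAlgebra.single 1 (i r)) (MonoidAlgebra.single 1 (i r'))
      (cen_single (hi r)) (cen_single (hi r')) (sa_single (his r)) (sa_single (his r'))
    have e3 : (MonoidAlgebra.single 1 (i r) : MonoidAlgebra R G)
        + (MonoidAlgebra.singleOneRingHom : R →+* MonoidAlgebra R G) (i c)
          * MonoidAlgebra.single 1 (i r') = MonoidAlgebra.single 1 (i (r + c * r')) := by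
      show MonoidAlgebra.single 1 (i r) + MonoidAlgebra.single 1 (i c) *
        MonoidAlgebra.single 1 (i r') = _
      rw [MonoidAlgebra.single_mul_single, one_mul, ← MonoidAlgebra.single_add, map_add, map_mul]
    refine ⟨m, ?_⟩
    have e4 : Isometric ε (Pen Λ ξ m (MonoidAlgebra.single 1 (i (r + c * r'))))
        (Pen Λ ξ m (MonoidAlgebra.single 1 (i r))) := by
      rw [← e3]
      exact H'
    exact e4
  have h1 : (1 : C) ∈ JJ (G := G) i ε Λ ξ := by
    rw [hJ]
    exact Submodule.mem_top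
  obtain ⟨m, h2⟩ := h1 0 1
  have e1 : FF i Λ ξ (0 + 1 * 1 : C) = UF ψ μ χ := by
    unfold FF
    have e2 : (MonoidAlgebra.single 1 (i (0 + 1 * 1)) : MonoidAlgebra R G) = 1 := by
      rw [mul_one, zero_add, map_one]
      rfl
    rw [e2, one_smul, hΛ, hξ]
    unfold hyp xi UF
    rw [Matrix.fromBlocks_add]
    simp
  have e3 : FF i Λ ξ (0 : C) = hyp (Fin n) (MonoidAlgebra R G) := by
    unfold FF
    rw [map_zero, MonoidAlgebra.single_zero, zero_smul, add_zero]
  rw [e1, e3] at h2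
  exact ⟨m, n + m, iso_trans ε h2 (hyp_sum ε n m)⟩

end Main

end Pool.Agent.Lib.MP8a3537.CRQ
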