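import Pool.Agent.Lib.MP_8a3537_gt.CR.Cls
import Pool.Agent.Lib.MP_8a3537_gt.CR.HILP

/-!
# Coefficient rings (MP_8a3537_gt, folder CR): commutative rings with the trivial involution (helper30)

`patch_comm`: a commutative ring `R` with the trivial involution is in a closed class if the rings
`R_M[t]`, `M` a maximal ideal which contains `2`, are. `reg`: for instance, if all `R_M` are noetherian
and have free resolutions of finite length.
-/

set_option autoImplicit false

namespace Pool.Agent.Lib.MP8a3537.CR

open Polynomial

/-- The trivial involution. -/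
abbrev trivStar (R : Type) [CommRing R] : StarRing R where
  star := id
  star_involutive := fun _ => rfl
  star_mul := fun a b => mul_comm a b
  star_add := fun _ _ => rfl

/-- The trivial involution of the localization at a maximal ideal. -/
abbrev locStar {R : Type} [CommRing R] (M : Ideal R) (hM : M.IsMaximal) :
    StarRing (Localization (Ideal.primeCompl M (hp := hM.isPrime))) := trivStar _

theorem patch_comm {Q : (R : Type) → [Ring R] → [StarRing R] → Prop} (hQ : Closed Q)
    (R : Type) [CommRing R] [StarRing R] (htriv : ∀ r : R, star r = r)
    (h : ∀ (M : Ideal R) (hM : M.IsMaximal), (2 : R) ∈ M →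
      letI := locStar M hM
      Q (Localization (Ideal.primeCompl M (hp := hM.isPrime)))[X]) : Q R := by
  refine hQ.patch R R (RingHom.id R) (fun c a => mul_comm c a) htriv fun M hM h2 => ?_
  have hp := hM.isPrime
  let _ := locStar M hM
  refine ⟨Localization M.primeCompl, inferInstance, locStar M hM,
    algebraMap R (Localization M.primeCompl), ?_, ?_, ?_, ?_, h M hM h2⟩
  · intro r
    rw [htriv]
    rfl
  · intro s hs
    exact IsLocalization.map_units (Localization M.primeCompl) (⟨s, hs⟩ : M.primeCompl)
  · intro x
    obtain ⟨⟨y, s⟩, e⟩ := IsLocalization.surj M.primeCompl x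
    refine ⟨s.1, s.2, y, ?_⟩
    rw [mul_comm]
    exact e
  · intro y hy
    obtain ⟨s, e⟩ := (IsLocalization.map_eq_zero_iff M.primeCompl (Localization M.primeCompl) y).1 hy
    exact ⟨s.1, s.2, e⟩

/-- A commutative ring with the trivial involution whose localizations at the maximal ideals over `2`
are noetherian with free resolutions of finite length is in every closed class which contains the
noetherian rings with free resolutions of bounded length. -/
theorem reg {P : (R : Type) → [Ring R] → [StarRing R] → Prop}
    (hP : ∀ (S : Type) [Ring S] [StarRing S] (d : ℕ), IsNoetherianRing S → AUL.FinRes S d → P S)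
    (R : Type) [CommRing R] [StarRing R] (htriv : ∀ r : R, star r = r)
    (h : ∀ (M : Ideal R) (hM : M.IsMaximal), (2 : R) ∈ M →
      IsNoetherianRing (Localization (Ideal.primeCompl M (hp := hM.isPrime))) ∧
      ∃ d : ℕ, AUL.FinRes (Localization (Ideal.primeCompl M (hp := hM.isPrime))) d) : Cls P R := by
  refine patch_comm (closed_cls P) R htriv fun M hM h2 => ?_
  obtain ⟨h1, d, h3⟩ := h M hM h2
  obtain ⟨h4, h5⟩ := CRH.finres_pol _ h1 d h3
  intro Q hQ hPQ
  let _ := locStar M hM
  exact hPQ _ (hP _ (d + 1) h4 h5)

end Pool.Agent.Lib.MP8a3537.CR
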